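import Pool.Agent.H35.UB.Fin
import Pool.Agent.H35.UX.Defs
import Pool.Agent.H77.S3.Def
import Pool.Agent.H51.F3.Defs

/-!
# H70-UX-BOX: the analytic input of UBX (the exact upper bound for every nilpotent group), MP_b39724_nt

`P` a finite `p`-group, `N` normal, generated by its elements of order `p`, `Nk N (n+1) = 1`, `W : Pl K → FW A` a word system for the primes in `Zw`.
BG, the box lemma with characters of the LAST layer `Nk N n` at the fixed primes, `n + 1` variables, labels of the variable primes AVERAGED over the conjugations by `Nk N (n-1)`.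
* `Bs`: the data of a box: fixed primes `s` with labels `g`, values `α` at the `a_i`, honest reduction `φ`, functions `G v` with characters `χ v` on `Nk N n`, boxes `(lo k, hi k]`.
* `Bs.sm`: the sum over the box, `Bs.smz`: the same summed over `z k ∈ Nk N (n-1)`: label `z g z⁻¹`, function `Gk (z⁻¹ x z)`.
* `Bs.ch`: the conditions on the characters. `Bs.ad`: (AD) the characters are orthogonal to all virtual crossed homs with values in `Nk N n` which vanish at the `t_v`, `v ∉ E`.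
* `Bs.lk`: linked: `χ v` does not vanish at the iterated commutator of some conjugates of the labels of the variables, for some `v ∈ s`.
* The functions `Gk k` of the variable primes are invariant under `Nk N n` and live over `fk k`. `BGb`: the sum over a family of boxes with (AD), linked.
* `UXst D Ω κ m j z`: THE INPUT. There are `A`, `B`, `k`, `Mw` such that for all `C₁ A₀ ε`, large `Y` and all places (normalised by `z`) there are good places and for every `Zw` a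
  word system `W` for the groups of order at most `Mw` and exponent `p ^ k` with `BLatX` (H35/UX) and `BGb` for all `P` of order at most `m` and exponent `p ^ κ`.
* `UX2 p`: the input for all fields. THE GOAL of the group level is `H51.F3.APu3 p`.
-/

set_option autoImplicit false

open scoped NumberField
open IsDedekindDomain
open scoped Classical

noncomputable section

namespace H70.UX

open H38.ML H63.MA H38.BB H38.BG H57.PC H57.BRA H77.WD H77.WE H77.PC3 H35.CF H35.UB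

variable {K : Type} [Field K] [NumberField K] {Ω : Type} [Field Ω] [Algebra K Ω]
  {p : ℕ} {ζ : K} {D : RD0 K p ζ} {P : Type} [Group P]

/-- the data of a box -/
structure Bs (A : GS D Ω) (P : Type) [Group P] (N : Subgroup P) [N.Normal] (n : ℕ) where
  s : Finset (Pl K)
  g : Pl K → P
  α : Fin A.g → P
  φ : Gal(Ω/K) →* P ⧸ N
  G : Pl K → P → ℂ
  χ : Pl K → P → ZMod p
  lo : Fin (n + 1) → ℝ
  hi : Fin (n + 1) → ℝ

variable {A : GS D Ω} {N : Subgroup P} [N.Normal] {n : ℕ}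

/-- the tuples of different primes in the box -/
def Bs.bx (X : Bs A P N n) (Zw : Finset (Pl K)) : Finset (Fin (n + 1) → Pl K) :=
  (Fintype.piFinset fun k => Zw.filter fun v =>
    D.Gd v ∧ v ∉ X.s ∧ X.lo k < (nm v : ℝ) ∧ (nm v : ℝ) ≤ X.hi k).filter fun q =>
      Function.Injective q

/-- the evaluation of the words for given variable primes with values `g k` -/
def Bs.th (X : Bs A P N n) (g : Fin (n + 1) → P) (q : Fin (n + 1) → Pl K) : FW A →* P :=
  ev A (fun v => if h : ∃ k, q k = v then g h.choose else X.g v) X.α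

/-- the sum over the box -/
def Bs.sm (X : Bs A P N n) (W : Pl K → FW A) (Zw : Finset (Pl K)) (g : Fin (n + 1) → P)
    (Gk : Fin (n + 1) → P → ℂ) : ℂ :=
  ∑ q ∈ X.bx Zw, (∏ v ∈ X.s, X.G v (X.th g q (W v))) * ∏ k, Gk k (X.th g q (W (q k)))

/-- the sum over the box and over the conjugations of the labels by `Nk N (n - 1)` -/
def Bs.smz [Fintype P] (X : Bs A P N n) (W : Pl K → FW A) (Zw : Finset (Pl K))
    (g : Fin (n + 1) → P) (Gk : Fin (n + 1) → P → ℂ) : ℂ :=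
  ∑ z ∈ Fintype.piFinset (fun _ : Fin (n + 1) =>
      (Finset.univ.filter fun x : P => x ∈ Nk N (n - 1))),
    X.sm W Zw (fun k => z k * g k * (z k)⁻¹) fun k x => Gk k ((z k)⁻¹ * x * z k)

/-- (AD) the characters are orthogonal to the virtual crossed homs with values in the last layer
which vanish at the `t_v`, `v ∉ E` -/
def Bs.ad (X : Bs A P N n) (W : Pl K → FW A) (E : Finset (Pl K)) : Prop :=
  ∀ (g' : Pl K → P) (α' : Fin A.g → P), (∀ v, v ∉ E → g' v = X.g v) →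
    (∀ v, g' v * (X.g v)⁻¹ ∈ Nk N n) → (∀ i, α' i * (X.α i)⁻¹ ∈ Nk N n) →
    ∑ v ∈ X.s, X.χ v ((ev A X.g X.α (W v))⁻¹ * ev A g' α' (W v)) = 0

/-- the conditions on the characters -/
structure Bs.ch (X : Bs A P N n) {L : LDs D Ω} (Fr : FR L) (E : Finset (Pl K)) : Prop where
  mem : ∀ v ∈ X.s, v ∉ E → X.g v ∈ N
  add : ∀ v ∈ X.s, ∀ u ∈ Nk N n, ∀ u' ∈ Nk N n, X.χ v (u * u') = X.χ v u + X.χ v u'
  inv : ∀ v ∈ X.s, ∀ x : P, (x : P ⧸ N) = X.φ (Fr.F v) → ∀ u ∈ Nk N n,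
    X.χ v (x * u * x⁻¹) = X.χ v u
  exc : ∀ v ∈ E, ∀ u ∈ Nk N n, X.χ v u = 0
  eq : ∀ v ∈ X.s, ∀ x : P, ∀ u ∈ Nk N n, X.G v (x * u) = ep p (X.χ v u) * X.G v x

/-- linked: some character does not vanish at an iterated commutator of conjugates of the labels -/
def Bs.lk (X : Bs A P N n) (g : Fin (n + 1) → P) : Prop :=
  ∃ v ∈ X.s, ∃ u : Fin (n + 1) → P,
    X.χ v (brk (List.ofFn fun j => u j * g j * (u j)⁻¹)) ≠ 0

/-- THE BOX INEQUALITY BG for fixed `Y`, labels `(gk k, fk k)` of the variable primes -/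
def BGb [Fintype P] {L : LDs D Ω} (Fr : FR L) (A : GS D Ω) (W : Pl K → FW A)
    (Zw E : Finset (Pl K)) (N : Subgroup P) [N.Normal] (n : ℕ) (C₁ A₀ ε Y : ℝ) : Prop :=
  ∀ (gk : Fin (n + 1) → P) (fk : Fin (n + 1) → P ⧸ N), (∀ k, gk k ∈ N ∧ gk k ^ p = 1 ∧
      ∀ x : P, (x : P ⧸ N) = fk k → x * gk k * x⁻¹ * (gk k)⁻¹ ∈ Nk N 1) →
    ∀ Gk : Fin (n + 1) → P → ℂ, (∀ k x, ‖Gk k x‖ ≤ 1) →
    (∀ k x, Gk k x ≠ 0 → (x : P ⧸ N) = fk k) →
    (∀ k x, ∀ u ∈ Nk N n, Gk k (x * u) = Gk k x) →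
    ∀ (ι : Type) (I : Finset ι) (X : ι → Bs A P N n),
    (∀ i ∈ I, E ⊆ (X i).s ∧ (X i).s ⊆ Zw ∧ nr (X i).s ≤ Y ^ C₁ ∧
      ((X i).s.card : ℝ) ≤ C₁ * Real.log (Real.log Y)) →
    (∀ i ∈ I, (∀ v, v ∉ (X i).s → (X i).g v = 1) ∧ HonE L E (X i).s (X i).φ ∧
      Function.Surjective (X i).φ ∧
      hat L A (X i).φ = (QuotientGroup.mk' N).comp (ev A (X i).g (X i).α) ∧
      ∀ v x, ‖(X i).G v x‖ ≤ 1) →
    (∀ i ∈ I, (X i).ch Fr E ∧ (X i).ad W E ∧ (X i).lk gk) →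
    (∀ i ∈ I, ∀ k, T0 ε Y ≤ (X i).lo k ∧ (X i).lo k ≤ (X i).hi k ∧
      (X i).hi k ≤ 2 * (X i).lo k ∧ (X i).hi k ≤ Y ^ C₁) →
    (∀ m : Finset (Pl K), ((I.filter fun i => (X i).s = m).card : ℝ) ≤ Real.log Y ^ C₁) →
    ∑ i ∈ I, (nr (X i).s)⁻¹ * (∏ k, (X i).lo k)⁻¹ * ‖(X i).smz W Zw gk Gk‖ ≤
      Real.log Y ^ (-A₀)

/-- THE INPUT OF UBX. `L₀` is normalised by the root of unity `z` of order `p ^ j`. -/
def UXst (D : RD0 K p ζ) (Ω : Type) [Field Ω] [Algebra K Ω] (κ m j : ℕ) (z : K) : Prop :=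
  ∃ (A : GS D Ω) (Q : DP K Ω) (B : H77.S3.SD D Q A) (k Mw : ℕ), m ≤ Mw ∧ κ ≤ k ∧
    ∀ (C₁ A₀ ε : ℝ), 0 < ε → ∃ Y₀ : ℝ, 3 ≤ Y₀ ∧ ∀ Y : ℝ, Y₀ ≤ Y →
    ∀ L₀ : LDs D Ω, H24.RK.NL j z L₀ → ∃ (L : LDs D Ω) (Fr : FR L), SimL L₀ L ∧
      ∀ Zw : Finset (Pl K), (∀ v ∈ Zw, v ∉ D.S0) →
        (∀ v, D.Gd v → (nm v : ℝ) ≤ Y ^ C₁ → v ∈ Zw) →
        ∃ (W : Pl K → FW A) (Yw : Fin A.g → FW A), H77.S3.Wds k Mw L Fr A B Zw W Yw ∧
          (∀ v ∈ Zw, W v ∈ OnZ A Zw) ∧
          ∀ (P : Type) [Group P] [Fintype P], Nat.card P ≤ m → (∀ x : P, x ^ (p ^ κ) = 1) →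
            ∀ (N : Subgroup P) [N.Normal] (n : ℕ), Nk N (n + 1) = ⊥ →
              N = Subgroup.closure {x | x ∈ N ∧ x ^ p = 1} → ∀ E ⊆ Zw,
                H35.UX.BLatX L A W Zw E N n C₁ A₀ ε Y ∧ BGb Fr A W Zw E N n C₁ A₀ ε Y

/-- the input for all fields with enough roots of unity -/
def UX2 (p : ℕ) : Prop := ∀ κ m : ℕ, ∃ M : ℕ, ∀ (K : IntermediateField ℚ QBar) [NumberField K]
    (ζ : K) (_ : IsPrimitiveRoot ζ p) (z : K) (_ : IsPrimitiveRoot z (p ^ (M + 1)))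
    (_ : z ^ p ^ M = ζ) (D : RD K p ζ), UXst D.toRD0 QBar κ m (M + 1) z

end H70.UX
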