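import Pool.Agent.H70.UX.Als4
import Pool.Agent.H35.UX.U4s
import Pool.Agent.H35.UX.Fin
import Pool.Agent.H77.S3.Blk

/-!
# H70-UX-STP4: U4 for the exact labels (MP_b39724_nt, UBX)

The reduction modulo `Nk N (k+1)` (copied from H35/UX/Stp) and `u4a`.
* `u4st`: `U4st A B c kw Mw k M` for all `M ≥ (k+2) Nc |P|^3`. `u4all`: `H35.UX.U4All p`.
-/

set_option autoImplicit false

open scoped NumberField
open IsDedekindDomain
open scoped Classical

noncomputable section

namespace H70.UX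

open H38.ML H63.MA H38.BB H38.BG H57.PC H57.BRA H77.WD H77.WE H77.PC3 H35.CF H35.UB H35.UX

/-- the sum of a function of the image -/
private theorem sum_hom {G H : Type} [Group G] [Group H] [Fintype G] [Fintype H] (f : G →* H)
    (hf : Function.Surjective f) (Φ : H → ℝ) :
    ∑ g, Φ (f g) = ((Nat.card G : ℝ) / Nat.card H) * ∑ h, Φ h := by
  have h1 : ∀ Ψ : H → ℝ, ∑ g, Ψ (f g) =
      ((Finset.univ.filter fun g => f g = 1).card : ℝ) * ∑ h, Ψ h := by
    intro Ψ
    rw [← Finset.sum_fiberwise Finset.univ f (fun g => Ψ (f g)), Finset.mul_sum]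
    refine Finset.sum_congr rfl fun h _ => ?_
    have h2 : ∑ g ∈ Finset.univ.filter (fun g => f g = h), Ψ (f g) =
        ∑ g ∈ Finset.univ.filter (fun g => f g = h), Ψ h :=
      Finset.sum_congr rfl fun g hg => by rw [(Finset.mem_filter.1 hg).2]
    rw [h2, Finset.sum_const, nsmul_eq_mul,
      MonoidHom.card_fiber_eq_of_mem_range f (x := h) (y := 1) (hf h) (hf 1)]
  have h3 := h1 fun _ => 1
  rw [Finset.sum_const, Finset.sum_const, Finset.card_univ, Finset.card_univ, nsmul_eq_mul,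
    nsmul_eq_mul, mul_one, mul_one, ← Nat.card_eq_fintype_card, ← Nat.card_eq_fintype_card] at h3
  have h4 : (Nat.card H : ℝ) ≠ 0 := Nat.cast_ne_zero.2 Nat.card_pos.ne'
  rw [h1 Φ, h3, mul_div_assoc, div_self h4, mul_one]

section grp

variable {P Q : Type} [Group P] [Group Q] {p Nc : ℕ}

/-- the isomorphism of the quotients -/
private theorem quo (π : P →* Q) (hπ : Function.Surjective π) (N : Subgroup P) [N.Normal]
    [(N.map π).Normal] (hN : π.ker ≤ N) :
    ∃ j : P ⧸ N ≃* Q ⧸ N.map π, ∀ x : P, j (x : P ⧸ N) = (π x : Q ⧸ N.map π) := by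
  refine ⟨MulEquiv.ofBijective (QuotientGroup.map N (N.map π) π (Subgroup.le_comap_map π N))
    ⟨?_, ?_⟩, fun x => ?_⟩
  · rw [injective_iff_map_eq_one]
    intro x
    induction x using QuotientGroup.induction_on with
    | H x =>
      intro h
      rw [QuotientGroup.map_mk, QuotientGroup.eq_one_iff] at h
      obtain ⟨y, hy, hxy⟩ := h
      rw [QuotientGroup.eq_one_iff]
      have h1 : y⁻¹ * x ∈ π.ker := by
        rw [MonoidHom.mem_ker, map_mul, map_inv, hxy, inv_mul_cancel]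
      have h2 := N.mul_mem hy (hN h1)
      rwa [mul_inv_cancel_left] at h2
  · intro y
    induction y using QuotientGroup.induction_on with
    | H y =>
      obtain ⟨x, rfl⟩ := hπ y
      exact ⟨(x : P ⧸ N), rfl⟩
  · rfl

/-- the map of the labels -/
private def vp (c : CL p Nc P) (π : P →* Q) (x : Px c) : Fin Nc × Q := (cid x, π x.1)

/-- the labels modulo the kernel -/
private def LSq (c : CL p Nc P) (_π : P →* Q) : LS Nc Q (Fin Nc × Q) :=
  ⟨Prod.snd, Prod.fst, fun _ => 1⟩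

/-- the sums of the weights -/
private def Wq [Fintype P] (c : CL p Nc P) (π : P →* Q) (hπ : Function.Surjective π)
    (G : Px c → P → ℝ) (y : Fin Nc × Q) (z : Q) : ℝ :=
  ∑ x ∈ Finset.univ.filter (fun x : Px c => vp c π x = y), G x (Function.surjInv hπ z)

end grp

section loc

variable {K : Type} [Field K] [NumberField K] {Ω : Type} [Field Ω] [Algebra K Ω]
  {p : ℕ} {ζ : K} {D : RD0 K p ζ} {P Q : Type} [Group P] [Group Q] {Nc : ℕ}

private theorem ev_map (A : GS D Ω) (π : P →* Q) (g : Pl K → P) (α : Fin A.g → P) :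
    π.comp (ev A g α) = ev A (fun v => π (g v)) (fun i => π (α i)) := by
  refine FreeGroup.ext_hom _ _ fun x => ?_
  unfold ev
  rw [MonoidHom.comp_apply, FreeGroup.lift_apply_of, FreeGroup.lift_apply_of]
  rcases x with v | i <;> rfl

private theorem lab_map (c : CL p Nc P) (π : P →* Q) (E : Finset (Pl K)) (e : Pl K → P)
    (f : Pl K → Option (Px c)) (v : Pl K) :
    π (lab E e (LSx c).val f v) =
      lab E (fun v => π (e v)) (Prod.snd : Fin Nc × Q → Q) (mp (vp c π) f) v := by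
  unfold lab mp
  by_cases h : v ∈ E
  · rw [if_pos h, if_pos h]
  · rw [if_neg h, if_neg h]
    cases hf : f v with
    | none => exact map_one π
    | some x => rfl

private theorem ev_lab (A : GS D Ω) (c : CL p Nc P) (π : P →* Q) (E : Finset (Pl K))
    (e : Pl K → P) (f : Pl K → Option (Px c)) (α : Fin A.g → P) :
    π.comp (ev A (lab E e (LSx c).val f) α) =
      ev A (lab E (fun v => π (e v)) (Prod.snd : Fin Nc × Q → Q) (mp (vp c π) f))
        (fun i => π (α i)) := by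
  rw [ev_map]
  congr 1
  exact funext fun v => lab_map c π E e f v

private theorem hs_map (π : P →* Q) (hπ : Function.Surjective π) (N : Subgroup P) [N.Normal]
    [(N.map π).Normal] (hN : π.ker ≤ N) (L : LDs D Ω) (A : GS D Ω) (E n : Finset (Pl K))
    (θ : FW A →* P) : Hs L A E N n θ ↔ Hs L A E (N.map π) n (π.comp θ) := by
  obtain ⟨j, hj⟩ := quo π hπ N hN
  have hj1 : j.toMonoidHom.comp (QuotientGroup.mk' N) = (QuotientGroup.mk' (N.map π)).comp π :=
    MonoidHom.ext fun x => hj x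
  have hj2 : j.symm.toMonoidHom.comp ((QuotientGroup.mk' (N.map π)).comp π) =
      QuotientGroup.mk' N := by
    rw [← hj1]
    refine MonoidHom.ext fun x => ?_
    exact j.symm_apply_apply _
  constructor
  · rintro ⟨φ, h1, h2, h3⟩
    refine ⟨j.toMonoidHom.comp φ, h1.comp _, j.surjective.comp h2, ?_⟩
    rw [hat_comp, h3, ← MonoidHom.comp_assoc, hj1, MonoidHom.comp_assoc]
  · rintro ⟨φ, h1, h2, h3⟩
    refine ⟨j.symm.toMonoidHom.comp φ, h1.comp _, j.symm.surjective.comp h2, ?_⟩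
    rw [hat_comp, h3, ← MonoidHom.comp_assoc θ π (QuotientGroup.mk' (N.map π)),
      ← MonoidHom.comp_assoc, hj2]

private theorem cn_map (c : CL p Nc P) (π : P →* Q) (Z : Finset (Pl K)) (T : ℝ)
    (f : Pl K → Option (Px c)) (i : Fin Nc) :
    cn (LSx c).cls Z T f i = cn (Prod.fst : Fin Nc × Q → Fin Nc) Z T (mp (vp c π) f) i := by
  unfold cn
  congr 1
  refine Finset.filter_congr fun v _ => ?_
  have h : (mp (vp c π) f v).map (Prod.fst : Fin Nc × Q → Fin Nc) = (f v).map (LSx c).cls := by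
    unfold mp
    rw [Option.map_map]
    rfl
  rw [h]

private theorem sp_map {V Λ Λ' : Type} (Z : Finset V) (π : Λ → Λ') (f : V → Option Λ) :
    sp Z (mp π f) = sp Z f := by
  unfold sp mp
  refine Finset.filter_congr fun v _ => ?_
  rw [Ne, Ne, Option.map_eq_none_iff]

/-- the reduction of the labels modulo the kernel -/
private theorem sa_red [Fintype P] [Fintype Q] (π : P →* Q) (hπ : Function.Surjective π)
    (N : Subgroup P) [N.Normal] [(N.map π).Normal] (hN : π.ker ≤ N) (c : CL p Nc P)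
    (L : LDs D Ω) (A : GS D Ω) (X : Pl K → FW A) (R : Finset (Fin Nc)) (M : ℕ) (T : ℝ)
    (Zw E : Finset (Pl K)) (e : Pl K → P) (G V : Px c → P → ℝ)
    (hG : ∀ g x y, π x = π y → G g x = G g y) (hV : ∀ g x y, π x = π y → V g x = V g y) (Y : ℝ) :
    SAx (LSx c) L A X N R M T Zw E e G V Y =
      ((Nat.card (Fin A.g → P) : ℝ) / Nat.card (Fin A.g → Q)) *
        SAx (LSq c π) L A X (N.map π) R M T Zw E (fun v => π (e v)) (Wq c π hπ G)
          (Wq c π hπ V) Y := by
  set Z := Zg D Zw E with hZ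
  -- the local weights
  set a : (Fin A.g → Q) → (Pl K → Option (Fin Nc × Q)) → Pl K → Px c → ℝ := fun β f v x =>
    if RL (LSx c).cls R T v x then G x (Function.surjInv hπ
      (ev A (lab E (fun v => π (e v)) (LSq c π).val f) β (X v)))
    else V x (Function.surjInv hπ
      (ev A (lab E (fun v => π (e v)) (LSq c π).val f) β (X v))) with ha
  set F : (Fin A.g → Q) → (Pl K → Option (Fin Nc × Q)) → ℝ := fun β f =>
    if Pat (LSq c π).cls R Z T M f ∧
      Hs L A E (N.map π) (sp Z f) (ev A (lab E (fun v => π (e v)) (LSq c π).val f) β) then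
      psi (nc Z f / Y) else 0 with hF
  have h1 : ∀ f ∈ Cf Z (Px c), ∀ α : Fin A.g → P,
      (if Pat (LSx c).cls R Z T M f ∧
        Hs L A E N (sp Z f) (ev A (lab E e (LSx c).val f) α) then
        psi (nc Z f / Y) * om Z (fun v x =>
          if RL (LSx c).cls R T v x then
            G x (ev A (lab E e (LSx c).val f) α (X v))
          else V x (ev A (lab E e (LSx c).val f) α (X v))) f
      else 0) = F (fun i => π (α i)) (mp (vp c π) f) *
        om Z (a (fun i => π (α i)) (mp (vp c π) f)) f := by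
    intro f _ α
    have hev : π.comp (ev A (lab E e (LSx c).val f) α) =
        ev A (lab E (fun v => π (e v)) (LSq c π).val (mp (vp c π) f)) (fun i => π (α i)) :=
      ev_lab A c π E e f α
    have e1 : (Pat (LSx c).cls R Z T M f ∧
        Hs L A E N (sp Z f) (ev A (lab E e (LSx c).val f) α)) ↔
        (Pat (LSq c π).cls R Z T M (mp (vp c π) f) ∧ Hs L A E (N.map π) (sp Z (mp (vp c π) f))
          (ev A (lab E (fun v => π (e v)) (LSq c π).val (mp (vp c π) f)) (fun i => π (α i)))) := by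
      rw [sp_map, ← hev, ← hs_map π hπ N hN]
      refine and_congr_left fun _ => ?_
      unfold Pat
      refine forall_congr' fun i => ?_
      rw [cn_map c π]
      rfl
    have e2 : nc Z (mp (vp c π) f) = nc Z f := by
      unfold nc
      rw [sp_map]
    have e3 : om Z (fun v x =>
          if RL (LSx c).cls R T v x then
            G x (ev A (lab E e (LSx c).val f) α (X v))
          else V x (ev A (lab E e (LSx c).val f) α (X v))) f = om Z (a (fun i => π (α i)) (mp (vp c π) f)) f := by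
      congr 1
      funext v x
      rw [ha]
      beta_reduce
      split_ifs with hRL
      · refine hG _ _ _ ?_
        rw [Function.surjInv_eq hπ, ← hev]
        rfl
      · refine hV _ _ _ ?_
        rw [Function.surjInv_eq hπ, ← hev]
        rfl
    rw [hF]
    beta_reduce
    rw [e3, e2]
    by_cases h : Pat (LSx c).cls R Z T M f ∧
        Hs L A E N (sp Z f) (ev A (lab E e (LSx c).val f) α)
    · rw [if_pos h, if_pos (e1.1 h)]
    · rw [if_neg h, if_neg (fun h' => h (e1.2 h')), zero_mul]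
  have h2 : SAx (LSx c) L A X N R M T Zw E e G V Y = ∑ α : Fin A.g → P,
      ∑ f ∈ Cf Z (Fin Nc × Q), F (fun i => π (α i)) f *
        om Z (fun v y => ∑ x ∈ Finset.univ.filter (fun x => vp c π x = y),
          a (fun i => π (α i)) f v x) f := by
    unfold SAx
    rw [Finset.sum_comm]
    refine Finset.sum_congr rfl fun α _ => ?_
    refine (Finset.sum_congr rfl fun f hf => h1 f hf α).trans
      ((cf_fib Z (vp c π) (F fun i => π (α i)) (a fun i => π (α i))).trans ?_)
    refine Finset.sum_congr rfl fun f _ => ?_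
    congr!
  have h3 : SAx (LSq c π) L A X (N.map π) R M T Zw E (fun v => π (e v)) (Wq c π hπ G)
      (Wq c π hπ V) Y =
      ∑ β : Fin A.g → Q, ∑ f ∈ Cf Z (Fin Nc × Q), F β f *
        om Z (fun v y => ∑ x ∈ Finset.univ.filter (fun x => vp c π x = y), a β f v x) f := by
    unfold SAx
    rw [Finset.sum_comm]
    refine Finset.sum_congr rfl fun β _ => Finset.sum_congr rfl fun f _ => ?_
    have e3 : om Z (fun v x =>
          if RL (LSq c π).cls R T v x then
            Wq c π hπ G x (ev A (lab E (fun v => π (e v)) (LSq c π).val f) β (X v))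
          else Wq c π hπ V x (ev A (lab E (fun v => π (e v)) (LSq c π).val f) β (X v))) f =
        om Z (fun v y => ∑ x ∈ Finset.univ.filter (fun x => vp c π x = y), a β f v x) f := by
      congr 1
      funext v y
      have h4 : ∀ x ∈ Finset.univ.filter (fun x : Px c => vp c π x = y),
          (RL (LSx c).cls R T v x ↔ RL (LSq c π).cls R T v y) := by
        intro x hx
        rw [← (Finset.mem_filter.1 hx).2]
        rfl
      split_ifs with hRL
      · unfold Wq
        refine Finset.sum_congr rfl fun x hx => ?_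
        rw [ha]
        beta_reduce
        rw [if_pos ((h4 x hx).2 hRL)]
      · unfold Wq
        refine Finset.sum_congr rfl fun x hx => ?_
        rw [ha]
        beta_reduce
        rw [if_neg fun h => hRL ((h4 x hx).1 h)]
    rw [e3, hF]
    beta_reduce
    by_cases h : Pat (LSq c π).cls R Z T M f ∧
      Hs L A E (N.map π) (sp Z f) (ev A (lab E (fun v => π (e v)) (LSq c π).val f) β)
    · rw [if_pos h, if_pos h]
    · rw [if_neg h, if_neg h, zero_mul]
  rw [h2, h3]
  exact sum_hom (MonoidHom.pi fun i => π.comp (Pi.evalMonoidHom (fun _ : Fin A.g => P) i))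
    (fun β => ⟨fun i => Function.surjInv hπ (β i), funext fun i => Function.surjInv_eq hπ (β i)⟩)
    (fun β => ∑ f ∈ Cf Z (Fin Nc × Q), F β f *
        om Z (fun v y => ∑ x ∈ Finset.univ.filter (fun x => vp c π x = y), a β f v x) f)

end loc

section wok

variable {P Q : Type} [Group P] [Group Q] {p Nc : ℕ}

private theorem gd_ker [Fintype P] (π : P →* Q) (N : Subgroup P) (k : ℕ) (hk : π.ker ≤ Nk N k)
    (g x y : P) (h : π x = π y) : Gd N k g x = Gd N k g y := by
  have h1 : x⁻¹ * y ∈ Nk N k := by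
    refine hk ?_
    rw [MonoidHom.mem_ker, map_mul, map_inv, h, inv_mul_cancel]
  have h2 := gd_inv N k g x _ h1
  rwa [mul_inv_cancel_left, eq_comm] at h2

private theorem nr_mem (c : CL p Nc P) (R : Finset (Fin Nc)) (x : Px c) (h : cid x ∈ R) :
    x.1 ∈ NR c R := Subgroup.subset_normalClosure ⟨cid x, h, cid_spec x⟩

private theorem px_pow (c : CL p Nc P) (x : Px c) : x.1 ^ p = 1 := by
  obtain ⟨i, hi⟩ := x.2
  obtain ⟨a, ha⟩ := isConj_iff.1 hi.symm
  rw [← ha, conj_pow, c.pow, mul_one, mul_inv_cancel]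

private theorem wq_ne [Fintype P] (c : CL p Nc P) (π : P →* Q) (hπ : Function.Surjective π)
    (G : Px c → P → ℝ) (y : Fin Nc × Q) (z : Q) (h : Wq c π hπ G y z ≠ 0) :
    ∃ x : Px c, cid x = y.1 ∧ π x.1 = y.2 ∧ G x (Function.surjInv hπ z) ≠ 0 := by
  obtain ⟨x, hx, hx2⟩ := Finset.exists_ne_zero_of_sum_ne_zero h
  have h1 := (Finset.mem_filter.1 hx).2
  exact ⟨x, congrArg Prod.fst h1, congrArg Prod.snd h1, hx2⟩

private theorem px_card [Fintype P] (c : CL p Nc P) (s : Finset (Px c)) :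
    (s.card : ℝ) ≤ Nat.card P := by
  rw [Nat.cast_le]
  refine (Finset.card_le_univ s).trans ?_
  rw [← Nat.card_eq_fintype_card]
  exact Nat.card_le_card_of_injective _ Subtype.val_injective

private theorem wq_bd [Fintype P] (c : CL p Nc P) (π : P →* Q) (hπ : Function.Surjective π)
    (G : Px c → P → ℝ) (hG : ∀ x y, 0 ≤ G x y ∧ G x y ≤ 1) (y : Fin Nc × Q) (z : Q) :
    0 ≤ Wq c π hπ G y z ∧ Wq c π hπ G y z ≤ Nat.card P := by
  refine ⟨Finset.sum_nonneg fun x _ => (hG _ _).1, ?_⟩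
  refine le_trans (Finset.sum_le_sum fun x _ => (hG x _).2) ?_
  rw [Finset.sum_const, nsmul_eq_mul, mul_one]
  exact px_card c _

private theorem wav_q [Fintype P] [Fintype Q] (c : CL p Nc P) (N : Subgroup P) [N.Normal]
    (π : P →* Q) (hπ : Function.Surjective π) (k : ℕ) (hk : π.ker = Nk N (k + 1))
    (ω : Px c → P ⧸ N → ℝ) (y : Fin Nc × Q) (z : Q) :
    wav (N.map π) k (Wq c π hπ (WG c N ω (k + 1)) y) z =
      Wq c π hπ (WG c N ω k) y z := by
  unfold wav Wq
  rw [Finset.sum_comm, Finset.sum_div]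
  refine Finset.sum_congr rfl fun x _ => ?_
  have hom : ∀ u : Nk (N.map π) k, WG c N ω (k + 1) x (Function.surjInv hπ (z * u)) =
      ω x (Function.surjInv hπ z : P) * Gd N (k + 1) x.1 (Function.surjInv hπ (z * u)) := by
    intro u
    unfold WG
    congr 2
    have h0 : (u : Q) ∈ (Nk N k).map π := by
      have h00 := u.2
      exact (nk_map π N k) ▸ h00
    obtain ⟨u0, hu0, hu1⟩ := h0
    have h1 : (Function.surjInv hπ (z * u))⁻¹ * (Function.surjInv hπ z * u0) ∈ N := by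
      refine (hk.le.trans (nk_anti N (Nat.zero_le _))) ?_
      rw [MonoidHom.mem_ker, map_mul, map_inv, map_mul, Function.surjInv_eq hπ,
        Function.surjInv_eq hπ, hu1, inv_mul_cancel]
    have h2 : ((u0 : P) : P ⧸ N) = 1 :=
      (QuotientGroup.eq_one_iff u0).2 (nk_anti N (Nat.zero_le k) hu0)
    rw [QuotientGroup.eq.2 h1, QuotientGroup.mk_mul, h2, mul_one]
  rw [Finset.sum_congr rfl fun u _ => hom u, ← Finset.mul_sum, mul_div_assoc]
  unfold WG
  congr 1
  beta_reduce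
  rw [gd_avg N k x.1 (Function.surjInv hπ z)]
  have h1 : (Nk N k).map π = Nk (N.map π) k := (nk_map π N k).symm
  set r : Nk N k →* Nk (N.map π) k :=
    (MulEquiv.subgroupCongr h1).toMonoidHom.comp (π.subgroupMap (Nk N k)) with hr
  have hr1 : ∀ u : Nk N k, (r u : Q) = π u := fun u => rfl
  have hr2 : Function.Surjective r :=
    (MulEquiv.subgroupCongr h1).surjective.comp (π.subgroupMap_surjective (Nk N k))
  have h2 := sum_hom r hr2
    (fun u : Nk (N.map π) k => Gd N (k + 1) x.1 (Function.surjInv hπ (z * u)))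
  have h3 : ∑ u : Nk N k, Gd N (k + 1) x.1 (Function.surjInv hπ (z * (r u : Q))) =
      ∑ u : Nk N k, Gd N (k + 1) x.1 (Function.surjInv hπ z * u) := by
    refine Finset.sum_congr rfl fun u _ => ?_
    refine gd_ker π N (k + 1) hk.le _ _ _ ?_
    rw [Function.surjInv_eq hπ, map_mul, Function.surjInv_eq hπ, hr1]
  rw [← h3, h2]
  have h4 : (Nat.card (Nk N k) : ℝ) ≠ 0 := Nat.cast_ne_zero.2 Nat.card_pos.ne'
  have h5 : (Nat.card (Nk (N.map π) k) : ℝ) ≠ 0 := Nat.cast_ne_zero.2 Nat.card_pos.ne'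
  field_simp

end wok

private theorem le_q {P Q : Type} [Group P] [Group Q] [Fintype P] [Fintype Q] {p Nc : ℕ}
    [NeZero p] (hp : p.Prime) (π : P →* Q) (hπ : Function.Surjective π) (N : Subgroup Q)
    [N.Normal] (k : ℕ) (hn : Nk N (k + 1) = ⊥) (hV : ∀ u ∈ Nk N k, u ^ p = 1) :
    Fintype.card (Le p (Fin Nc × Q) N k) ≤ Nc * Nat.card P ^ 3 := by
  have h1 : Nat.card Q ≤ Nat.card P := Nat.card_le_card_of_surjective π hπ
  have h2 : Nat.card (Q ⧸ N) ≤ Nat.card P :=
    (Nat.card_le_card_of_surjective _ (QuotientGroup.mk'_surjective N)).trans h1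
  have h3 : Nat.card (Nk N k) ≤ Nat.card P :=
    (Nat.card_le_card_of_injective _ Subtype.val_injective).trans h1
  rw [← Nat.card_eq_fintype_card, Nat.card_prod, Nat.card_prod, Nat.card_prod,
    Nat.card_eq_fintype_card (α := Xc p N k), xc_card hp N k hn hV, Nat.card_eq_fintype_card
    (α := Fin Nc), Fintype.card_fin]
  calc Nc * Nat.card Q * (Nat.card (Q ⧸ N) * Nat.card (Nk N k))
      ≤ Nc * Nat.card P * (Nat.card P * Nat.card P) :=
        Nat.mul_le_mul (Nat.mul_le_mul le_rfl h1) (Nat.mul_le_mul h2 h3)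
    _ = Nc * Nat.card P ^ 3 := by ring

section w4

open scoped commutatorElement

variable {P Q : Type} [Group P] [Group Q] [Fintype P] {p Nc : ℕ}

/-- conjugation of the labels -/
private theorem wq_conj (c : CL p Nc P) (N : Subgroup P) [N.Normal] (j : ℕ) (π : P →* Q)
    (hπ : Function.Surjective π) (hk : π.ker ≤ Nk N j) (z0 : P) (i : Fin Nc) (q y : Q) :
    Wq c π hπ (WG c N (fun _ _ => 1) j) (i, π z0 * q * (π z0)⁻¹) y =
      Wq c π hπ (WG c N (fun _ _ => 1) j) (i, q) ((π z0)⁻¹ * y * π z0) := by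
  unfold Wq
  have hc : ∀ x : Px c, ∀ t : P, ∃ i, IsConj (t * x.1 * t⁻¹) (c.g i) := fun x t =>
    ⟨cid x, IsConj.trans (isConj_iff.2 ⟨t⁻¹, by group⟩) (cid_spec x)⟩
  have hcid : ∀ (x : Px c) (t : P), cid (⟨t * x.1 * t⁻¹, hc x t⟩ : Px c) = cid x := by
    intro x t
    rw [cid_iff]
    exact IsConj.trans (isConj_iff.2 ⟨t⁻¹, by group⟩) (cid_spec x)
  refine Finset.sum_bij' (fun x _ => (⟨z0⁻¹ * x.1 * z0⁻¹⁻¹, hc x z0⁻¹⟩ : Px c))
      (fun x _ => (⟨z0 * x.1 * z0⁻¹, hc x z0⟩ : Px c)) ?_ ?_ ?_ ?_ ?_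
  · intro x hx
    rw [Finset.mem_filter] at hx ⊢
    refine ⟨Finset.mem_univ _, ?_⟩
    have h1 := congrArg Prod.fst hx.2
    have h2 := congrArg Prod.snd hx.2
    change cid x = i at h1
    change π x.1 = π z0 * q * (π z0)⁻¹ at h2
    unfold vp
    rw [hcid, h1]
    congr 1
    change π (z0⁻¹ * x.1 * z0⁻¹⁻¹) = q
    rw [map_mul, map_mul, map_inv, map_inv, map_inv, h2]
    group
  · intro x hx
    rw [Finset.mem_filter] at hx ⊢
    refine ⟨Finset.mem_univ _, ?_⟩
    have h1 := congrArg Prod.fst hx.2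
    have h2 := congrArg Prod.snd hx.2
    change cid x = i at h1
    change π x.1 = q at h2
    unfold vp
    rw [hcid, h1]
    congr 1
    change π (z0 * x.1 * z0⁻¹) = _
    rw [map_mul, map_mul, map_inv, h2]
  · intro x _
    refine Subtype.ext ?_
    change z0 * (z0⁻¹ * x.1 * z0⁻¹⁻¹) * z0⁻¹ = x.1
    group
  · intro x _
    refine Subtype.ext ?_
    change z0⁻¹ * (z0 * x.1 * z0⁻¹) * z0⁻¹⁻¹ = x.1
    group
  · intro x _
    unfold WG
    rw [one_mul, one_mul]
    have h5 := gd_conj N j z0⁻¹ x.1 (Function.surjInv hπ y)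
    rw [← h5]
    refine gd_ker π N j hk _ _ _ ?_
    rw [Function.surjInv_eq hπ, map_mul, map_mul, map_inv, map_inv, map_inv,
      Function.surjInv_eq hπ, inv_inv]

/-- the conjugation of the labels -/
private def zaq (z : Q) : Equiv.Perm (Fin Nc × Q) :=
  Equiv.prodCongr (Equiv.refl _) (MulAut.conj z).toEquiv

private theorem w4ok (c : CL p Nc P) (π : P →* Q)
    (hπ : Function.Surjective π) [((NR c Finset.univ).map π).Normal] (k : ℕ)
    (hk : π.ker = Nk (NR c Finset.univ) (k + 1)) :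
    W4 p (LSq c π) ((NR c Finset.univ).map π) k
      (Wq c π hπ (WG c (NR c Finset.univ) (fun _ _ => 1) k))
      (Wq c π hπ (WG c (NR c Finset.univ) (fun _ _ => 1) (k + 1))) zaq (Nat.card P) := by
  obtain ⟨N, hN⟩ : ∃ N, N = NR c Finset.univ := ⟨_, rfl⟩
  have hω : ∀ (i : Px c) (q : P ⧸ NR c Finset.univ), (0 : ℝ) ≤ (fun _ _ => 1 : Px c →
      P ⧸ NR c Finset.univ → ℝ) i q ∧ (fun _ _ => 1 : Px c → P ⧸ NR c Finset.univ → ℝ) i q ≤ 1 :=
    fun _ _ => ⟨zero_le_one, le_rfl⟩
  have hk1 : π.ker ≤ Nk (NR c Finset.univ) k := hk.le.trans (nk_le _ k)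
  have hmem : ∀ j y z, Wq c π hπ (WG c (NR c Finset.univ) (fun _ _ => 1) j) y z ≠ 0 →
      y.2 ∈ (NR c Finset.univ).map π ∧ y.2 ^ p = 1 := by
    intro j y z hz
    obtain ⟨x, hx1, hx2, -⟩ := wq_ne c π hπ _ y z hz
    refine ⟨?_, ?_⟩
    · rw [← hx2]
      exact Subgroup.mem_map_of_mem π (nr_mem c Finset.univ x (Finset.mem_univ _))
    · rw [← hx2, ← map_pow, px_pow, map_one]
  refine ⟨Nat.one_le_cast.2 Nat.card_pos, fun y z => wq_bd c π hπ _ (wg_bd c _ _ hω _) y z,
    fun y z => wq_bd c π hπ _ (wg_bd c _ _ hω _) y z, ?_, ?_, ?_, ?_, ?_, ?_, ?_⟩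
  · rintro y ⟨z, hz⟩
    exact hmem _ y z hz
  · rintro y ⟨z, hz⟩
    exact (hmem _ y z hz).1
  · intro x y u hu
    rw [nk_map] at hu
    obtain ⟨u0, hu0, rfl⟩ := hu
    unfold Wq
    refine Finset.sum_congr rfl fun t _ => ?_
    unfold WG
    rw [one_mul, one_mul, ← gd_inv (NR c Finset.univ) k t.1 (Function.surjInv hπ y) u0 hu0]
    refine gd_ker π _ k hk1 _ _ _ ?_
    rw [Function.surjInv_eq hπ, map_mul, Function.surjInv_eq hπ]
  · rintro ⟨i, q⟩ z hz y
    by_cases hq : q ∈ (NR c Finset.univ).map π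
    · have hz' := hz
      rw [nk_map] at hz
      obtain ⟨z0, hz0, rfl⟩ := hz
      have h1 := wq_conj c (NR c Finset.univ) (k + 1) π hπ hk.le z0 i q (π z0 * y * (π z0)⁻¹)
      have h2 : (π z0)⁻¹ * (π z0 * y * (π z0)⁻¹) * π z0 = y := by group
      have h3 : π z0 * q * (π z0)⁻¹ = q := by
        have h4 : ⁅π z0, q⁆ ∈ Nk ((NR c Finset.univ).map π) (k + 1) :=
          Subgroup.commutator_mem_commutator hz' hq
        rw [nk_map, ← hk, (Subgroup.map_eq_bot_iff _).2 le_rfl, Subgroup.mem_bot,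
          commutatorElement_def] at h4
        exact mul_inv_eq_one.1 h4
      rw [h2, h3] at h1
      exact h1
    · have h1 : ∀ w, Wq c π hπ (WG c (NR c Finset.univ) (fun _ _ => 1) (k + 1)) (i, q) w = 0 := by
        intro w
        by_contra h2
        exact hq (hmem _ _ _ h2).1
      rw [h1, h1]
  · intro y z hz
    obtain ⟨x, hx1, hx2, hx3⟩ := wq_ne c π hπ _ y z hz
    have h2 := gd_fix (NR c Finset.univ) k x.1 _
      (nr_mem c Finset.univ x (Finset.mem_univ _)) (wg_gd c _ _ _ _ _ hx3)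
    rw [nk_map]
    refine ⟨_, h2, ?_⟩
    change π _ = z * y.2 * z⁻¹ * y.2⁻¹
    rw [← hx2, map_mul, map_mul, map_mul, map_inv, map_inv, Function.surjInv_eq hπ]
  · rintro z hz ⟨i, q⟩
    obtain ⟨z0, rfl⟩ := hπ z
    refine ⟨rfl, rfl, fun y => ?_⟩
    exact wq_conj c (NR c Finset.univ) k π hπ hk1 z0 i q y
  · intro s hs
    refine le_trans ?_ le_sup_left
    rw [Subgroup.map_le_iff_le_comap]
    refine Subgroup.normalClosure_le_normal ?_
    rintro x ⟨i, -, hx⟩
    obtain ⟨hs1, z, hz⟩ := hs i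
    obtain ⟨g, hg1, hg2, -⟩ := wq_ne c π hπ _ (s i) z hz
    have h1 : cid g = i := hg1.trans hs1
    have h2 : IsConj g.1 x := (cid_spec g).trans (by rw [h1]; exact hx.symm)
    obtain ⟨a, ha⟩ := isConj_iff.1 h2
    change π x ∈ Subgroup.normalClosure _
    rw [← ha, map_mul, map_mul, map_inv]
    refine Subgroup.normalClosure_normal.conj_mem _ ?_ _
    rw [hg2]
    exact Subgroup.subset_normalClosure ⟨i, rfl⟩

end w4

section main

variable {K : Type} [Field K] [NumberField K] {Ω : Type} [Field Ω] [Algebra K Ω]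
  {p : ℕ} [NeZero p] {ζ : K} {P Q : Type} [Group P] [Group Q] [Fintype P] [Fintype Q] {Nc : ℕ}

private theorem sx_red {D : RD0 K p ζ} (A : GS D Ω) (c : CL p Nc P) (k j M : ℕ) (π : P →* Q)
    (hπ : Function.Surjective π) [((NR c Finset.univ).map π).Normal]
    (hk : π.ker ≤ Nk (NR c Finset.univ) k) (hj : π.ker ≤ Nk (NR c Finset.univ) j)
    (L : LDs D Ω) (X : Pl K → FW A) (T : ℝ) (Zw E : Finset (Pl K)) (Y : ℝ) :
    Sx L A X c M T Zw E k j Y =
      (((Nat.card (Fin A.g → P) : ℝ) / Nat.card (Fin A.g → Q)) *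
        ((Nat.card (E → P) : ℝ) / Nat.card (E → Q))) *
      ∑ e : E → Q, SAx (LSq c π) L A X ((NR c Finset.univ).map π) Finset.univ M T Zw E (ex e)
        (Wq c π hπ (WG c (NR c Finset.univ) (fun _ _ => 1) k))
        (Wq c π hπ (WG c (NR c Finset.univ) (fun _ _ => 1) j)) Y := by
  have hker : π.ker ≤ NR c Finset.univ := hk.trans (nk_anti _ (Nat.zero_le _))
  have h1 : (fun x : Px c => Gd (NR c Finset.univ) j x.1) =
      WG c (NR c Finset.univ) (fun _ _ => 1) j := by
    funext x y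
    unfold WG
    rw [one_mul]
  unfold Sx
  rw [h1]
  have h2 : ∀ e : E → P, SAx (LSx c) L A X (NR c Finset.univ) Finset.univ M T Zw E (exE E e)
      (WG c (NR c Finset.univ) (fun _ _ => 1) k) (WG c (NR c Finset.univ) (fun _ _ => 1) j) Y =
      ((Nat.card (Fin A.g → P) : ℝ) / Nat.card (Fin A.g → Q)) *
        SAx (LSq c π) L A X ((NR c Finset.univ).map π) Finset.univ M T Zw E
        (ex fun v => π (e v)) (Wq c π hπ (WG c (NR c Finset.univ) (fun _ _ => 1) k))
        (Wq c π hπ (WG c (NR c Finset.univ) (fun _ _ => 1) j)) Y := by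
    intro e
    rw [sa_red π hπ (NR c Finset.univ) hker c L A X Finset.univ M T Zw E (exE E e)
      (WG c (NR c Finset.univ) (fun _ _ => 1) k) (WG c (NR c Finset.univ) (fun _ _ => 1) j)
      (fun g x y h => wg_ker c π _ _ _ hker hk _ _ _ h)
      (fun g x y h => wg_ker c π _ _ _ hker hj _ _ _ h) Y]
    congr 2
    funext v
    unfold exE ex
    split_ifs
    · rfl
    · exact map_one π
  rw [Finset.sum_congr rfl fun e _ => h2 e, ← Finset.mul_sum, mul_assoc]
  congr 1
  exact sum_hom (MonoidHom.pi fun v : E => π.comp (Pi.evalMonoidHom (fun _ : E => P) v))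
    (fun β => ⟨fun i => Function.surjInv hπ (β i), funext fun i => Function.surjInv_eq hπ (β i)⟩)
    (fun e => SAx (LSq c π) L A X ((NR c Finset.univ).map π) Finset.univ M T Zw E (ex e)
        (Wq c π hπ (WG c (NR c Finset.univ) (fun _ _ => 1) k))
        (Wq c π hπ (WG c (NR c Finset.univ) (fun _ _ => 1) j)) Y)

private theorem u4_q (hp : p.Prime) (D : RD0 K p ζ) (A : GS D Ω)
    (c : CL p Nc P) (k M : ℕ) (π : P →* Q) (hπ : Function.Surjective π)
    [((NR c Finset.univ).map π).Normal] (hk : π.ker = Nk (NR c Finset.univ) (k + 1))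
    (hM : (k + 1) * (Nc * Nat.card P ^ 3) ≤ M) (A₁ A₂ ε : ℝ) (hε : 0 < ε) :
    ∃ C₁ A₀ Y₀ : ℝ, 2 ≤ C₁ ∧ 0 ≤ A₀ ∧ 3 ≤ Y₀ ∧ ∀ C₁' A₀' : ℝ, C₁ ≤ C₁' → A₀ ≤ A₀' →
      ∀ Y : ℝ, Y₀ ≤ Y → ∀ (L : LDs D Ω) (Fr : FR L) (X : Pl K → FW A) (Zw E : Finset (Pl K)),
      EOk A₁ Y Zw E →
      (∀ φ : Gal(Ω/K) →* Q ⧸ (NR c Finset.univ).map π, Unz L Zw φ →
        ∀ v ∈ Zw, hat L A φ (X v) = φ (Fr.F v)) →
      BGb Fr A X Zw E ((NR c Finset.univ).map π) k C₁' A₀' ε Y →
      Sx L A X c M (T0 ε Y) Zw E k (k + 1) Y ≤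
        Sx L A X c M (T0 ε Y) Zw E k k Y + Y * Real.log Y ^ (-A₂) := by
  have hn : Nk ((NR c Finset.univ).map π) (k + 1) = ⊥ := by
    rw [nk_map, ← hk]
    exact (Subgroup.map_eq_bot_iff _).2 le_rfl
  have hcl : (NR c Finset.univ).map π =
      Subgroup.closure {x | x ∈ (NR c Finset.univ).map π ∧ x ^ p = 1} := by
    refine le_antisymm ?_ ?_
    · conv_lhs => rw [nr_cl c Finset.univ]
      rw [MonoidHom.map_closure]
      refine Subgroup.closure_mono ?_
      rintro _ ⟨x, ⟨hx1, hx2⟩, rfl⟩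
      refine ⟨Subgroup.mem_map_of_mem π hx1, ?_⟩
      rw [← map_pow, hx2, map_one]
    · rw [Subgroup.closure_le]
      exact fun x hx => hx.1
  have hV := nk_exp ((NR c Finset.univ).map π) k hn hcl
  obtain ⟨aP, haP⟩ : ∃ aP : ℝ, aP = 2 * |A₁| * Real.log (Nat.card P) := ⟨_, rfl⟩
  have hP1 : (1 : ℝ) ≤ Nat.card P := Nat.one_le_cast.2 Nat.card_pos
  have hlP : 0 ≤ Real.log (Nat.card P) := Real.log_nonneg hP1
  have haP0 : 0 ≤ aP := by
    rw [haP]
    positivity
  obtain ⟨C₁, A₀, Y₀, h2, h3, h4, h⟩ := u4a hp hn hV D A (w4ok c π hπ k hk) M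
    ((Nat.mul_le_mul le_rfl (le_q hp π hπ _ k hn hV)).trans hM) A₁ (A₂ + 1 + aP) ε hε
  set κ : ℝ := (Nat.card (Fin A.g → P) : ℝ) / Nat.card (Fin A.g → Q) with hκ
  have hκ0 : 0 ≤ κ := div_nonneg (Nat.cast_nonneg _) (Nat.cast_nonneg _)
  refine ⟨C₁, A₀, max Y₀ (Real.exp (max κ 1)), h2, h3, h4.trans (le_max_left _ _), ?_⟩
  intro C₁' A₀' hC hA Y hY L Fr X Zw E hE hX hB
  have hY0 : Y₀ ≤ Y := (le_max_left _ _).trans hY
  have hY1 : Real.exp (max κ 1) ≤ Y := (le_max_right _ _).trans hY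
  have hYp : 0 < Y := by linarith
  have hl1 : max κ 1 ≤ Real.log Y := (Real.le_log_iff_exp_le hYp).2 hY1
  have hlκ : κ ≤ Real.log Y := (le_max_left _ _).trans hl1
  have hl11 : 1 ≤ Real.log Y := (le_max_right _ _).trans hl1
  have hl0 : 0 < Real.log Y := by linarith
  have h5 := h C₁' A₀' hC hA Y hY0 L Fr X Zw E hE hX hB
  have h6 : (fun y => wav ((NR c Finset.univ).map π) k
      (Wq c π hπ (WG c (NR c Finset.univ) (fun _ _ => 1) (k + 1)) y)) =
      Wq c π hπ (WG c (NR c Finset.univ) (fun _ _ => 1) k) := by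
    funext y z
    exact wav_q c (NR c Finset.univ) π hπ k hk _ y z
  rw [h6] at h5
  rw [sx_red A c k (k + 1) M π hπ (hk.le.trans (nk_le _ k)) hk.le L X (T0 ε Y) Zw E Y,
    sx_red A c k k M π hπ (hk.le.trans (nk_le _ k)) (hk.le.trans (nk_le _ k)) L X (T0 ε Y) Zw E Y,
    ← hκ]
  set κ' : ℝ := (Nat.card (E → P) : ℝ) / Nat.card (E → Q) with hκ'
  have hκ0' : 0 ≤ κ' := div_nonneg (Nat.cast_nonneg _) (Nat.cast_nonneg _)
  have hκb : κ' ≤ Real.log Y ^ aP := by
    have e1 : κ' ≤ Nat.card (E → P) := by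
      rw [hκ']
      refine div_le_self (Nat.cast_nonneg _) ?_
      exact Nat.one_le_cast.2 Nat.card_pos
    refine e1.trans ?_
    have e2 : (Nat.card (E → P) : ℝ) = Real.exp (E.card * Real.log (Nat.card P)) := by
      rw [mul_comm, Real.exp_mul, Real.exp_log (by linarith), Real.rpow_natCast,
        Nat.card_eq_fintype_card, Fintype.card_fun, Fintype.card_coe, Nat.card_eq_fintype_card]
      push_cast
      rfl
    rw [e2, Real.rpow_def_of_pos hl0, Real.exp_le_exp, haP]
    have hnrE0 : 0 < nr E := lt_of_lt_of_le one_pos (one_le_nr E)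
    have hcE : (E.card : ℝ) ≤ 2 * |A₁| * Real.log (Real.log Y) := by
      have e3 := H1.BD.card_le_nr E
      have e4 : Real.log (nr E) ≤ |A₁| * Real.log (Real.log Y) := by
        rw [← Real.log_rpow hl0]
        refine Real.log_le_log hnrE0 (hE.2.trans ?_)
        exact Real.rpow_le_rpow_of_exponent_le hl11 (le_abs_self _)
      have e5 := Real.log_two_gt_d9
      have e6 : (0 : ℝ) ≤ E.card := Nat.cast_nonneg _
      nlinarith
    refine (mul_le_mul_of_nonneg_right hcE hlP).trans (le_of_eq ?_)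
    ring
  have h7 : Y * Real.log Y ^ (-A₂) = (Real.log Y * Real.log Y ^ aP) *
      (Y * Real.log Y ^ (-(A₂ + 1 + aP))) := by
    have h8 : Real.log Y ^ (-A₂) = Real.log Y ^ (-(A₂ + 1 + aP)) * Real.log Y ^ aP *
        Real.log Y := by
      rw [← Real.rpow_add hl0, ← Real.rpow_add_one hl0.ne']
      congr 1
      ring
    rw [h8]
    ring
  have h9 : 0 ≤ Y * Real.log Y ^ (-(A₂ + 1 + aP)) :=
    mul_nonneg hYp.le (Real.rpow_nonneg hl0.le _)
  have h10 := mul_le_mul_of_nonneg_left h5 (mul_nonneg hκ0 hκ0')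
  have h11 : κ * κ' ≤ Real.log Y * Real.log Y ^ aP := mul_le_mul hlκ hκb hκ0' hl0.le
  have h12 := mul_le_mul_of_nonneg_right h11 h9
  rw [h7]
  refine h10.trans ?_
  rw [mul_add]
  exact add_le_add le_rfl h12

end main

/-- U4 -/
theorem u4st {K : Type} [Field K] [NumberField K] {Ω : Type} [Field Ω] [Algebra K Ω]
    {p : ℕ} (hp : p.Prime) {ζ : K} {D : RD0 K p ζ} (A : GS D Ω) {Q : DP K Ω}
    (B : H77.S3.SD D Q A) {P : Type} [Group P] [Fintype P] {Nc : ℕ} (c : CL p Nc P)
    (kw Mw : ℕ) (hS : H77.S3.Sml p kw Mw P) (k M : ℕ)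
    (hM : (k + 1) * (Nc * Nat.card P ^ 3) ≤ M) : U4st A B c kw Mw k M := by
  haveI : NeZero p := ⟨hp.ne_zero⟩
  intro A₁ A₂ ε hε _
  obtain ⟨C₁, A₀, Y₀, h1, h2, h3, h⟩ := u4_q hp D A c k M
    (QuotientGroup.mk' (Nk (NR c Finset.univ) (k + 1)))
    (QuotientGroup.mk'_surjective _) (QuotientGroup.ker_mk' _) hM A₁ A₂ ε hε
  refine ⟨C₁, A₀, Y₀, h1, h2, h3, ?_⟩
  intro C₁' A₀' hC hA Y hY L Fr W Yw Zw E _ hE hW _ hB
  refine h C₁' A₀' hC hA Y hY L Fr W Zw E hE (fun φ hφ => ?_) hB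
  exact (hW _ (H77.S3.sml_surj (H77.S3.sml_surj hS
    (QuotientGroup.mk' (Nk (NR c Finset.univ) (k + 1))) (QuotientGroup.mk'_surjective _))
    (QuotientGroup.mk' _) (QuotientGroup.mk'_surjective _)) φ hφ).1

/-- U4 for all groups -/
theorem u4all {p : ℕ} (hp : p.Prime) : H35.UX.U4All p := by
  intro K _ ζ _ D P _ _ Nc c _ A Q B kw Mw hS k
  exact ⟨(k + 1) * (Nc * Nat.card P ^ 3), fun M hM => u4st hp A B c kw Mw hS k M hM⟩

/-- the goal from the input -/
theorem apu3 {p : ℕ} (hp : p.Prime) (hX : UX2 p) : H51.F3.APu3 p :=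
  H35.UX.apx hp hX (u4all hp)

end H70.UX
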