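import Pool.Agent.H70.UX.Exp

/-!
# H70-UX-ADG: the condition `Adq` depends on the labels modulo `N` only (MP_b39724_nt, UBX, U4)

* `ev_diff`, `adq_cong`: labels at the primes outside `E` changed by elements of `N` (the last layer `V` is central in `N`), new primes with characters zero on `V`.
* `xc4`: the characters of the small primes. `H4`: the sum over the `(e, α)` with `Adq`. `f4_h4`: `F4 = H4` (orthogonality).
-/

set_option autoImplicit false

open scoped NumberField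
open IsDedekindDomain
open scoped Classical

noncomputable section

namespace H70.UX

open H38.ML H63.MA H38.BB H38.BG H57.PC H57.BRA H77.WD H77.WE H77.PC3 H35.CF H35.UB H35.UX

variable {K : Type} [Field K] [NumberField K] {Ω : Type} [Field Ω] [Algebra K Ω]
  {p : ℕ} {ζ : K} {D : RD0 K p ζ} {P : Type} [Group P] {A : GS D Ω}

section cg

variable {N V : Subgroup P}

theorem tri_mul' [V.Normal] (hV : ∀ a ∈ V, ∀ b ∈ N, a * b = b * a) {a b c a' b' c' : P}
    (hc : b⁻¹ * c ∈ N) (ha' : b'⁻¹ * a' ∈ V) :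
    (a * a') * (b * b')⁻¹ * (c * c') = (a * b⁻¹ * c) * (a' * b'⁻¹ * c') := by
  obtain ⟨m, hm⟩ : ∃ m, m = b⁻¹ * c := ⟨_, rfl⟩
  obtain ⟨l, hl⟩ : ∃ l, l = a' * b'⁻¹ := ⟨_, rfl⟩
  have hl' : l ∈ V := by
    have h2 := (inferInstance : V.Normal).conj_mem _ ha' b'
    rw [hl]
    rwa [mul_inv_cancel_left] at h2
  have h1 := hV l hl' m (hm ▸ hc)
  have hc1 : c = b * m := by rw [hm, mul_inv_cancel_left]
  have ha1 : a' = l * b' := by rw [hl, inv_mul_cancel_right]
  rw [hc1, ha1]
  have e1 : a * (l * b') * (b * b')⁻¹ * (b * m * c') = a * (l * m) * c' := by group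
  have e2 : a * b⁻¹ * (b * m) * (l * b' * b'⁻¹ * c') = a * (m * l) * c' := by group
  rw [e1, e2, h1]

variable [N.Normal] [V.Normal]

/-- the difference of two evaluations depends on the labels modulo `N` only -/
theorem ev_diff (hV : ∀ a ∈ V, ∀ b ∈ N, a * b = b * a) {g g' h h' : Pl K → P}
    {α α' : Fin A.g → P} (h1 : ∀ v, g' v * (g v)⁻¹ ∈ V) (hα : ∀ i, α' i * (α i)⁻¹ ∈ V)
    (h2 : ∀ v, h v * (g v)⁻¹ ∈ N) (h3 : ∀ v, h' v = g' v * (g v)⁻¹ * h v) (x : FW A) :
    (ev A h α x)⁻¹ * ev A h' α' x = (ev A g α x)⁻¹ * ev A g' α' x := by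
  have c1 : ∀ x : FW A, (ev A g α x)⁻¹ * ev A g' α' x ∈ V := ev_cong h1 hα
  have c2 : ∀ x : FW A, (ev A g α x)⁻¹ * ev A h α x ∈ N :=
    ev_cong h2 fun i => by rw [mul_inv_cancel]; exact N.one_mem
  obtain ⟨H, hH⟩ : ∃ H : FW A →* P, ∀ x, H x = ev A g' α' x * (ev A g α x)⁻¹ * ev A h α x := by
    refine ⟨MonoidHom.mk' (fun x => ev A g' α' x * (ev A g α x)⁻¹ * ev A h α x) fun x y => ?_,
      fun x => rfl⟩
    rw [map_mul, map_mul, map_mul]
    exact tri_mul' hV (c2 x) (c1 y)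
  have e1 : H = ev A h' α' := by
    refine FreeGroup.ext_hom _ _ fun y => ?_
    rw [hH]
    unfold ev
    rw [FreeGroup.lift_apply_of, FreeGroup.lift_apply_of, FreeGroup.lift_apply_of,
      FreeGroup.lift_apply_of]
    rcases y with v | i
    · exact (h3 v).symm
    · change α' i * (α i)⁻¹ * α i = α' i
      rw [inv_mul_cancel_right]
  rw [← e1, hH]
  obtain ⟨m, hm⟩ : ∃ m, m = (ev A g α x)⁻¹ * ev A h α x := ⟨_, rfl⟩
  obtain ⟨d, hd⟩ : ∃ d, d = (ev A g α x)⁻¹ * ev A g' α' x := ⟨_, rfl⟩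
  have hm1 : ev A h α x = ev A g α x * m := by rw [hm, mul_inv_cancel_left]
  have hd1 : ev A g' α' x = ev A g α x * d := by rw [hd, mul_inv_cancel_left]
  have h4 : d * m = m * d := hV d (hd ▸ c1 x) m (hm ▸ c2 x)
  rw [hm1, hd1]
  calc (ev A g α x * m)⁻¹ * (ev A g α x * d * (ev A g α x)⁻¹ * (ev A g α x * m))
      = m⁻¹ * (d * m) := by group
    _ = (ev A g α x)⁻¹ * (ev A g α x * d) := by rw [h4]; group

/-- `Adq` depends on the labels modulo `N` only -/
theorem adq_cong (hV : ∀ a ∈ V, ∀ b ∈ N, a * b = b * a) {E : Finset (Pl K)}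
    {s s' : Finset (Pl K)} (W : Pl K → FW A) {χ χ' : Pl K → P → ZMod p} {g g' : Pl K → P}
    (e : E → P) (α : Fin A.g → P) (hg : ∀ v, v ∉ E → g' v * (g v)⁻¹ ∈ N) (hs : s ⊆ s')
    (h1 : ∀ v ∈ s, ∀ u ∈ V, χ' v u = χ v u) (h2 : ∀ v ∈ s', v ∉ s → ∀ u ∈ V, χ' v u = 0) :
    Adq A V s' W χ' g' e α ↔ Adq A V s W χ g e α := by
  unfold Adq
  refine forall_congr' fun e' => forall_congr' fun α' => forall_congr' fun he =>
    forall_congr' fun hα => ?_
  have d1 : ∀ v, ge g e' v * (ge g e v)⁻¹ ∈ V := by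
    intro v
    unfold ge
    split_ifs with h
    · exact he _
    · rw [mul_inv_cancel]
      exact V.one_mem
  have d2 : ∀ v, ge g' e v * (ge g e v)⁻¹ ∈ N := by
    intro v
    unfold ge
    split_ifs with h
    · rw [mul_inv_cancel]
      exact N.one_mem
    · exact hg v h
  have d3 : ∀ v, ge g' e' v = ge g e' v * (ge g e v)⁻¹ * ge g' e v := by
    intro v
    unfold ge
    split_ifs with h
    · rw [inv_mul_cancel_right]
    · rw [mul_inv_cancel, one_mul]
  have key : ∑ v ∈ s', χ' v ((ev A (ge g' e) α (W v))⁻¹ * ev A (ge g' e') α' (W v)) =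
      ∑ v ∈ s, χ v ((ev A (ge g e) α (W v))⁻¹ * ev A (ge g e') α' (W v)) := by
    have hm : ∀ x : FW A, (ev A (ge g e) α x)⁻¹ * ev A (ge g e') α' x ∈ V := ev_cong d1 hα
    rw [← Finset.sum_subset hs fun v hv hv' => ?_]
    · refine Finset.sum_congr rfl fun v hv => ?_
      rw [ev_diff hV d1 hα d2 d3, h1 v hv _ (hm _)]
    · rw [ev_diff hV d1 hα d2 d3]
      exact h2 v hv hv' _ (hm _)
  rw [key]

end cg

variable {Nc n : ℕ} {Λ : Type}

/-- the characters of the small primes -/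
def xc4 {N : Subgroup P} [N.Normal] (T : ℝ) (c : Pl K → Option (Le p Λ N n)) (v : Pl K) (u : P) :
    ZMod p :=
  (c v).elim 0 fun x => if T < (nm v : ℝ) then 0 else xt x.2.2 u

theorem xc4_add {N : Subgroup P} [N.Normal] (T : ℝ) (c : Pl K → Option (Le p Λ N n)) (v : Pl K)
    (u u' : P) (hu : u ∈ Nk N n) (hu' : u' ∈ Nk N n) :
    xc4 T c v (u * u') = xc4 T c v u + xc4 T c v u' := by
  unfold xc4
  cases c v with
  | none => exact (add_zero _).symm
  | some x =>
    change (if _ then (0 : ZMod p) else _) = (if _ then 0 else _) + if _ then 0 else _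
    split_ifs
    · exact (add_zero _).symm
    · exact xt_add _ _ _ hu hu'

variable [NeZero p] [Fintype P] {N : Subgroup P} [N.Normal]

/-- the sum over the `(e, α)` with `Adq` -/
def H4 (S : LS Nc P Λ) (L : LDs D Ω) (A : GS D Ω) (X : Pl K → FW A)
    (N : Subgroup P) [N.Normal] (n : ℕ) (T : ℝ) (Zw E : Finset (Pl K)) (W V : Λ → P → ℝ)
    (z : Pl K → P) (c : Pl K → Option (Le p Λ N n)) : ℂ :=
  ∑ e : E → P, ∑ α : Fin A.g → P,
    if Adq A (Nk N n) (sp (Zg D Zw E) c) X (xc4 T c)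
        (gz (fun x : Le p Λ N n => S.val x.1) T z c) e α ∧ Hs L A E N (sp (Zg D Zw E) c)
        (ev A (ge (gz (fun x : Le p Λ N n => S.val x.1) T z c) e) α) then
      om (Zg D Zw E) (fun v x => w4 N n T W V z v x
        (ev A (ge (gz (fun x : Le p Λ N n => S.val x.1) T z c) e) α (X v))) c
    else 0

/-- the local factor has the character `xc4` -/
theorem w4_eq (hn : Nk N (n + 1) = ⊥) (T : ℝ) (W V : Λ → P → ℝ)
    (hW : ∀ x y, ∀ u ∈ Nk N n, W x (y * u) = W x y) (z : Pl K → P)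
    (c : Pl K → Option (Le p Λ N n))
    (v : Pl K) (x : Le p Λ N n) (hx : c v = some x) (y u : P) (hu : u ∈ Nk N n) :
    w4 N n T W V z v x (y * u) = ep p (xc4 T c v u) * w4 N n T W V z v x y := by
  have huN : u ∈ N := nk_anti N (Nat.zero_le n) hu
  have hmk : ((y * u : P) : P ⧸ N) = (y : P ⧸ N) := by
    rw [eq_comm]
    refine QuotientGroup.eq.2 ?_
    rw [inv_mul_cancel_left]
    exact huN
  have hc : xc4 T c v u = if T < (nm v : ℝ) then 0 else xt x.2.2 u := by
    unfold xc4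
    rw [hx]
    rfl
  rw [hc]
  unfold w4
  by_cases hT : T < (nm v : ℝ)
  · rw [if_pos hT, if_pos hT, if_pos hT, ep_zero, one_mul, hmk]
    congr 2
    have h1 : (z v)⁻¹ * (y * u) * z v = (z v)⁻¹ * y * z v * ((z v)⁻¹ * u * z v) := by group
    rw [h1]
    refine hW _ _ _ ?_
    have h2 := (nk_normal N n).conj_mem u hu (z v)⁻¹
    rwa [inv_inv] at h2
  · rw [if_neg hT, if_neg hT, if_neg hT]
    split_ifs with h
    · exact wh_mul N n hn (V x.1) x.2.2 y u hu
    · rw [mul_zero]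

open scoped commutatorElement in
omit [Fintype P] [N.Normal] in
theorem nk_cen (hn : Nk N (n + 1) = ⊥) : ∀ a ∈ Nk N n, ∀ b ∈ N, a * b = b * a := by
  intro a ha b hb
  have h : ⁅a, b⁆ ∈ Nk N (n + 1) := Subgroup.commutator_mem_commutator ha hb
  rw [hn, Subgroup.mem_bot] at h
  exact commutatorElement_eq_one_iff_mul_comm.1 h

theorem f4_h4 (hp : p.Prime) (hn : Nk N (n + 1) = ⊥) (S : LS Nc P Λ) (L : LDs D Ω) (A : GS D Ω)
    (X : Pl K → FW A) (T : ℝ) (Zw E : Finset (Pl K)) (W V : Λ → P → ℝ)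
    (hW : ∀ x y, ∀ u ∈ Nk N n, W x (y * u) = W x y) (z : Pl K → P)
    (c : Pl K → Option (Le p Λ N n)) :
    F4 S L A X N n T Zw E W V z c = H4 S L A X N n T Zw E W V z c := by
  have hVN : Nk N n ≤ N := nk_anti N (Nat.zero_le n)
  have := nk_normal N n
  obtain ⟨R, hR⟩ : ∃ R : (E → P) → (Fin A.g → P) → ℂ, ∀ e α, R e α =
      if Hs L A E N (sp (Zg D Zw E) c)
        (ev A (ge (gz (fun x : Le p Λ N n => S.val x.1) T z c) e) α) then 1 else 0 :=
    ⟨_, fun _ _ => rfl⟩
  have h := ort (A := A) hp (V := Nk N n) (fun a ha b hb => nk_cen hn a ha b (hVN hb))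
    (E := E) (sp (Zg D Zw E) c) X (xc4 T c) (fun v _ u hu u' hu' => xc4_add T c v u u' hu hu')
    (fun v y => (c v).elim 1 fun x => w4 N n T W V z v x y) ?_
    (gz (fun x : Le p Λ N n => S.val x.1) T z c) R ?_
  · unfold F4 H4
    refine Eq.trans ?_ (h.trans ?_)
    · refine Finset.sum_congr rfl fun e _ => Finset.sum_congr rfl fun α _ => ?_
      rw [hR, om_sp]
      split_ifs
      · rw [one_mul]
      · rw [zero_mul]
    · refine Finset.sum_congr rfl fun e _ => Finset.sum_congr rfl fun α _ => ?_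
      rw [hR, om_sp]
      by_cases h1 : Adq A (Nk N n) (sp (Zg D Zw E) c) X (xc4 T c)
        (gz (fun x : Le p Λ N n => S.val x.1) T z c) e α
      · by_cases h2 : Hs L A E N (sp (Zg D Zw E) c)
          (ev A (ge (gz (fun x : Le p Λ N n => S.val x.1) T z c) e) α)
        · rw [if_pos h1, if_pos h2, if_pos ⟨h1, h2⟩, one_mul]
        · rw [if_pos h1, if_neg h2, if_neg fun h3 => h2 h3.2, zero_mul]
      · rw [if_neg h1, if_neg fun h3 => h1 h3.1]
  · intro v hv x u hu
    have h1 := (mem_sp.1 hv).2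
    cases h2 : c v with
    | none => exact absurd h2 h1
    | some t => exact w4_eq hn T W V hW z c v t h2 x u hu
  · intro e α d δ hd hδ
    rw [hR, hR]
    have h1 : (QuotientGroup.mk' N).comp
        (ev A (ge (gz (fun x : Le p Λ N n => S.val x.1) T z c) fun v => d v * e v)
          (fun i => δ i * α i)) = (QuotientGroup.mk' N).comp
        (ev A (ge (gz (fun x : Le p Λ N n => S.val x.1) T z c) e) α) := by
      refine MonoidHom.ext fun x => ?_
      rw [MonoidHom.comp_apply, MonoidHom.comp_apply, eq_comm]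
      refine QuotientGroup.eq.2 (hVN (ev_cong (V := Nk N n) (fun v => ?_) (fun i => ?_) x))
      · unfold ge
        split_ifs with h2
        · rw [mul_inv_cancel_right]
          exact hd _
        · rw [mul_inv_cancel]
          exact (Nk N n).one_mem
      · rw [mul_inv_cancel_right]
        exact hδ i
    have h2 : Hs L A E N (sp (Zg D Zw E) c)
        (ev A (ge (gz (fun x : Le p Λ N n => S.val x.1) T z c) fun v => d v * e v)
          (fun i => δ i * α i)) ↔ Hs L A E N (sp (Zg D Zw E) c)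
        (ev A (ge (gz (fun x : Le p Λ N n => S.val x.1) T z c) e) α) := by
      unfold Hs
      rw [h1]
    by_cases h3 : Hs L A E N (sp (Zg D Zw E) c)
        (ev A (ge (gz (fun x : Le p Λ N n => S.val x.1) T z c) e) α)
    · rw [if_pos h3, if_pos (h2.2 h3)]
    · rw [if_neg h3, if_neg fun h4 => h3 (h2.1 h4)]

end H70.UX
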