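import Pool.Agent.H70.UX.Bad4
import Pool.Agent.H35.UB.Spn

/-!
# H70-UX-ALS4: U4 for a group with `Nk N (n+1) = 1` (MP_b39724_nt, UBX)

* `lnk4`: a linked tuple of labels which occur at the large primes, for every nontrivial character.
* `u4a`: `∑_e SAx (W, V) ≤ ∑_e SAx (W, wav V) + Y (log Y)^(-A₂)`.
-/

set_option autoImplicit false

open scoped NumberField
open IsDedekindDomain
open scoped Classical

noncomputable section

namespace H70.UX

open H38.ML H63.MA H38.BB H38.BG H57.PC H57.BRA H77.WD H77.WE H77.PC3 H35.CF H35.UB H35.UX H1.BD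

section grp

variable {P : Type} [Group P] [Fintype P] {p Nc n : ℕ} [NeZero p] {Λ : Type} [Fintype Λ]
  {N : Subgroup P} [N.Normal]

theorem lnk4 (hn : Nk N (n + 1) = ⊥) {S : LS Nc P Λ} {W V : Λ → P → ℝ}
    {za : P → Equiv.Perm Λ} {b : ℝ} (hW : W4 p S N n W V za b) (M : ℕ)
    (hM : (n + 1) * Fintype.card (Le p Λ N n) ≤ M) (hne : Nonempty (Le p Λ N n))
    (ν : Le p Λ N n → ℕ) (h1 : PatN S Finset.univ M ν) (χs : Xc p N n) (hχ : χs ≠ 1) :
    (∃ x : Le p Λ N n, 0 < ν x ∧ (x.2.2 ≠ 1 ∨ ∀ y : P, (y : P ⧸ N) = x.2.1 → W x.1 y = 0)) ∨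
    ∃ l : Fin (n + 1) → Le p Λ N n, (∀ k, ∃ y : P, (y : P ⧸ N) = (l k).2.1 ∧ W (l k).1 y ≠ 0) ∧
      (∃ u : Fin (n + 1) → P,
        xt χs (brk (List.ofFn fun j => u j * S.val (l j).1 * (u j)⁻¹)) ≠ 0) ∧
      ∀ k, (Finset.univ.filter fun j => l j = l k).card ≤ ν (l k) := by
  by_cases hcon : ∃ x : Le p Λ N n, 0 < ν x ∧
      (x.2.2 ≠ 1 ∨ ∀ y : P, (y : P ⧸ N) = x.2.1 → W x.1 y = 0)
  · exact Or.inl hcon
  right
  push Not at hcon
  -- a frequent label in every class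
  have hcls : ∀ i : Fin Nc, ∃ x : Le p Λ N n, S.cls x.1 = i ∧ n + 1 ≤ ν x := by
    intro i
    by_contra hno
    push Not at hno
    have h3 := (h1 i).1 (Finset.mem_univ i)
    have h4 : ∑ x ∈ Finset.univ.filter (fun x : Le p Λ N n => S.cls x.1 = i), ν x ≤
        ∑ _x ∈ Finset.univ.filter (fun x : Le p Λ N n => S.cls x.1 = i), n :=
      Finset.sum_le_sum fun x hx => by
        have := hno x (Finset.mem_filter.1 hx).2
        omega
    rw [Finset.sum_const, smul_eq_mul] at h4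
    have h5 : (Finset.univ.filter (fun x : Le p Λ N n => S.cls x.1 = i)).card ≤
        Fintype.card (Le p Λ N n) := Finset.card_le_univ _
    have h6 : 0 < Fintype.card (Le p Λ N n) := Fintype.card_pos_iff.2 hne
    have h7 := Nat.mul_le_mul_right n h5
    have h8 : Fintype.card (Le p Λ N n) * n < (n + 1) * Fintype.card (Le p Λ N n) := by
      nlinarith
    omega
  choose xx hxx hνx using hcls
  have hok : ∀ i, ∃ y : P, (y : P ⧸ N) = (xx i).2.1 ∧ W (xx i).1 y ≠ 0 := fun i =>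
    (hcon (xx i) (by have := hνx i; omega)).2
  obtain ⟨g, hg⟩ : ∃ g : Fin Nc → P, ∀ i, g i = S.val (xx i).1 := ⟨_, fun _ => rfl⟩
  have hgN : ∀ i, g i ∈ N := fun i => by
    obtain ⟨y, -, hy⟩ := hok i
    rw [hg]
    exact (hW.wN _ ⟨y, hy⟩).1
  have hspan := hW.span (fun i => (xx i).1) fun i => ⟨hxx i, by
    obtain ⟨y, -, hy⟩ := hok i
    exact ⟨y, hy⟩⟩
  have hrange : {y | ∃ i, y = S.val (xx i).1} = Set.range g := by
    ext y
    constructor
    · rintro ⟨i, rfl⟩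
      exact ⟨i, hg i⟩
    · rintro ⟨i, rfl⟩
      exact ⟨i, hg i⟩
  rw [hrange] at hspan
  have hex : ∃ (j : Fin (n + 1) → Fin Nc) (u : Fin (n + 1) → P),
      xt χs (brk (List.ofFn fun k : Fin (n + 1) => u k.rev * g (j k.rev) * (u k.rev)⁻¹)) ≠ 0 := by
    by_contra hall
    push Not at hall
    have h2 := spn N n hn g hgN hspan (xt χs) (fun a ha c hc => xt_add χs a c ha hc) hall
    apply hχ
    refine MonoidHom.ext fun u => ?_
    have h3 := h2 u.1 u.2
    unfold xt at h3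
    rw [dif_pos u.2] at h3
    exact Multiplicative.toAdd.injective h3
  obtain ⟨j, u, hu⟩ := hex
  refine ⟨fun k => xx (j k.rev), fun k => hok _, ⟨fun k => u k.rev, ?_⟩, fun k => ?_⟩
  · simp only [← hg]
    exact hu
  · refine ((Finset.card_le_univ _).trans ?_).trans (hνx _)
    rw [Fintype.card_fin]

end grp

section sel

variable {K : Type} [Field K] [NumberField K] {P Λ : Type} [Group P] {p n m : ℕ}
  {N : Subgroup P} [N.Normal]

/-- the nontrivial characters of the small primes -/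
def Sc (Z : Finset (Pl K)) (T : ℝ) (c : Pl K → Option (Le p Λ N n)) : Set (Xc p N n) :=
  {χ | χ ≠ 1 ∧ ∃ v ∈ Z, ∃ x, c v = some x ∧ ¬ T < (nm v : ℝ) ∧ x.2.2 = χ}

theorem sc_up (Z : Finset (Pl K)) (T : ℝ) (c : Pl K → Option (Le p Λ N n))
    (q : Fin m → Pl K) (l : Fin m → Le p Λ N n)
    (hq : q ∈ H35.CF.Fr Z (fun v => T < (nm v : ℝ)) c m) : Sc Z T (up c q l) = Sc Z T c := by
  ext χ
  unfold Sc
  rw [Set.mem_ofPred_eq, Set.mem_ofPred_eq]
  refine and_congr_right fun _ => exists_congr fun v => and_congr_right fun hv =>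
    exists_congr fun x => ?_
  by_cases h : ∃ k, q k = v
  · obtain ⟨k, rfl⟩ := h
    have h1 := (mem_fr.1 hq).1 k
    exact ⟨fun h2 => absurd h1.2.1 h2.2.1, fun h2 => absurd h1.2.1 h2.2.1⟩
  · push Not at h
    rw [up_ne c q l v h]

theorem sc_tr (Z : Finset (Pl K)) (T : ℝ) (c : Pl K → Option (Le p Λ N n)) :
    ¬ Tr Z T c ↔ (Sc Z T c).Nonempty := by
  unfold Tr Sc
  constructor
  · intro h
    push Not at h
    obtain ⟨v, hv, x, hx, h1, h2⟩ := h
    exact ⟨x.2.2, h2, v, hv, x, hx, not_lt.2 h1, rfl⟩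
  · rintro ⟨χ, h1, v, hv, x, hx, h2, h3⟩ h
    exact h1 (h3 ▸ h v hv x hx h2)

/-- the choice of a character -/
def chx {α : Type} (a : α) (s : Set α) : α := if h : s.Nonempty then h.choose else a

theorem chx_mem {α : Type} (a : α) (s : Set α) (h : s.Nonempty) : chx a s ∈ s := by
  unfold chx
  rw [dif_pos h]
  exact h.choose_spec

end sel

section loc

variable {K : Type} [Field K] [NumberField K] {Ω : Type} [Field Ω] [Algebra K Ω]
  {p : ℕ} [NeZero p] {ζ : K} {D : RD0 K p ζ} {P : Type} [Group P] [Fintype P] {Nc n : ℕ}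
  {Λ : Type} {N : Subgroup P} [N.Normal]

/-- a label at a large prime on which the weight vanishes -/
theorem h4_zero {S : LS Nc P Λ} (L : LDs D Ω) (A : GS D Ω) (X : Pl K → FW A) (T : ℝ)
    (Zw E : Finset (Pl K)) (W V : Λ → P → ℝ) (z : Pl K → P) (hz : ∀ v, z v ∈ N)
    (c : Pl K → Option (Le p Λ N n)) (x : Le p Λ N n)
    (hx : 0 < ct (Zg D Zw E) (fun v => T < (nm v : ℝ)) c x)
    (hx2 : x.2.2 ≠ 1 ∨ ∀ y : P, (y : P ⧸ N) = x.2.1 → W x.1 y = 0) :
    H4 S L A X N n T Zw E W V z c = 0 := by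
  unfold ct at hx
  obtain ⟨v, hv⟩ := Finset.card_pos.1 hx
  rw [Finset.mem_filter, mem_pl] at hv
  unfold H4
  refine Finset.sum_eq_zero fun e _ => Finset.sum_eq_zero fun α _ => ?_
  split_ifs with h
  · refine Finset.prod_eq_zero hv.1.1 ?_
    rw [hv.1.2]
    simp only [Option.elim_some]
    unfold w4
    rw [if_pos hv.2]
    rcases hx2 with h2 | h2
    · exact if_neg fun h3 => h2 h3.1
    · split_ifs with h3
      · rw [h2 _ ?_, Complex.ofReal_zero]
        rw [← h3.2, eq_comm]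
        refine QuotientGroup.eq.2 ?_
        obtain ⟨y, hy⟩ : ∃ y, y = ev A (ge (gz (fun x : Le p Λ N n => S.val x.1) T z c) e) α
          (X v) := ⟨_, rfl⟩
        rw [← hy]
        have e1 : y⁻¹ * ((z v)⁻¹ * y * z v) = (y⁻¹ * (z v)⁻¹ * (y⁻¹)⁻¹) * z v := by group
        rw [e1]
        exact N.mul_mem ((inferInstance : N.Normal).conj_mem _ (N.inv_mem (hz v)) _) (hz v)
      · rfl
  · rfl

theorem hm_zero {S : LS Nc P Λ} (L : LDs D Ω) (A : GS D Ω) (X : Pl K → FW A) (T : ℝ)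
    (Zw E : Finset (Pl K)) (W V : Λ → P → ℝ)
    (c : Pl K → Option (Le p Λ N n)) (x : Le p Λ N n)
    (hx : 0 < ct (Zg D Zw E) (fun v => T < (nm v : ℝ)) c x)
    (hx2 : x.2.2 ≠ 1 ∨ ∀ y : P, (y : P ⧸ N) = x.2.1 → W x.1 y = 0) :
    Hm S L A X N n T Zw E W V c = 0 := by
  unfold Hm
  rw [Finset.sum_eq_zero, zero_div]
  intro z _
  exact h4_zero L A X T Zw E W V (zx z) (fun v => nk_anti N (Nat.zero_le _) (zx_mem z v)) c x hx hx2

theorem u4a (hp : p.Prime) (hn : Nk N (n + 1) = ⊥) (hV : ∀ u ∈ Nk N n, u ^ p = 1)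
    (D : RD0 K p ζ) (A : GS D Ω) {S : LS Nc P Λ}
    {W V : Λ → P → ℝ} {za : P → Equiv.Perm Λ} {b : ℝ} (hW : W4 p S N n W V za b) [Fintype Λ]
    (M : ℕ) (hM : (n + 1) * Fintype.card (Le p Λ N n) ≤ M) (A₁ A₂ ε : ℝ) (hε : 0 < ε) :
    ∃ C₁ A₀ Y₀ : ℝ, 2 ≤ C₁ ∧ 0 ≤ A₀ ∧ 3 ≤ Y₀ ∧ ∀ C₁' A₀' : ℝ, C₁ ≤ C₁' → A₀ ≤ A₀' →
      ∀ Y : ℝ, Y₀ ≤ Y → ∀ (L : LDs D Ω) (Fr : FR L) (X : Pl K → FW A) (Zw E : Finset (Pl K)),
      EOk A₁ Y Zw E →
      (∀ φ : Gal(Ω/K) →* P ⧸ N, Unz L Zw φ → ∀ v ∈ Zw, hat L A φ (X v) = φ (Fr.F v)) →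
      BGb Fr A X Zw E N n C₁' A₀' ε Y →
      ∑ e : E → P, SAx S L A X N Finset.univ M (T0 ε Y) Zw E (ex e) W V Y ≤
        ∑ e : E → P, SAx S L A X N Finset.univ M (T0 ε Y) Zw E (ex e) W
          (fun x => wav N n (V x)) Y + Y * Real.log Y ^ (-A₂) := by
  obtain ⟨C₁, A₀, Y₂, hC₁, hA₀, hY₂, hbad⟩ := bad4 hp hn D A hW A₁ (A₂ + 1) ε hε
  obtain ⟨H, hH⟩ : ∃ H : ℝ, H = Fintype.card (Xc p N n) *
    Fintype.card (Option (Fin (n + 1) → Le p Λ N n)) + 1 := ⟨_, rfl⟩
  refine ⟨C₁, A₀, max Y₂ (Real.exp H), hC₁, hA₀, hY₂.trans (le_max_left _ _),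
    fun C₁' A₀' hC₁' hA₀' Y hY L Fr X Zw E hE hX hB => ?_⟩
  have hYb : Y₂ ≤ Y := (le_max_left _ _).trans hY
  have hYH : Real.exp H ≤ Y := (le_max_right _ _).trans hY
  have hY0 : 0 < Y := by linarith
  have hlH : H ≤ Real.log Y := by
    rw [← Real.log_exp H]
    exact Real.log_le_log (Real.exp_pos _) hYH
  have hl0 : 0 < Real.log Y := Real.log_pos (by linarith)
  have hb1 := hbad C₁' A₀' hC₁' hA₀' Y hYb L Fr X Zw E hE hX hB
  obtain ⟨Z, hZ⟩ : ∃ Z, Z = Zg D Zw E := ⟨_, rfl⟩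
  obtain ⟨T, hT⟩ : ∃ T, T = T0 ε Y := ⟨_, rfl⟩
  rw [← hT] at hb1
  rw [← hT]
  -- the mean over the conjugations
  have hzc : (Fintype.card (Zg D Zw E → Nk N (n - 1)) : ℂ) ≠ 0 :=
    Nat.cast_ne_zero.2 Fintype.card_ne_zero
  have hzN : ∀ (z : Zg D Zw E → Nk N (n - 1)) (v : Pl K), zx z v ∈ Nk N (n - 1) := fun z v =>
    zx_mem z v
  obtain ⟨Pn, hPn⟩ : ∃ Pn : (Pl K → Option (Le p Λ N n)) → ℂ, ∀ c, Pn c =
      (if PatN S Finset.univ M (ct (Zg D Zw E) (fun v => T < (nm v : ℝ)) c) then (1 : ℂ) else 0) *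
        ((psi (nr (sp (Zg D Zw E) c) / Y) : ℝ) : ℂ) := ⟨_, fun _ => rfl⟩
  have hL : ((∑ e : E → P, SAx S L A X N Finset.univ M T Zw E (ex e) W V Y : ℝ) : ℂ) =
      ∑ c ∈ Cf (Zg D Zw E) (Le p Λ N n), Pn c * Hm S L A X N n T Zw E W V c := by
    have h1 : ∀ z : Zg D Zw E → Nk N (n - 1),
        ((∑ e : E → P, SAx S L A X N Finset.univ M T Zw E (ex e) W V Y : ℝ) : ℂ) =
        ∑ c ∈ Cf (Zg D Zw E) (Le p Λ N n), Pn c * H4 S L A X N n T Zw E W V (zx z) c := by
      intro z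
      rw [exp4 hp hn hV S L A X M T Zw E W V za b hW (zx z) (hzN z) Y]
      refine Finset.sum_congr rfl fun c _ => ?_
      rw [hPn, f4_h4 hp hn S L A X T Zw E W V hW.winv (zx z) c]
    have h2 : (Fintype.card (Zg D Zw E → Nk N (n - 1)) : ℂ) *
        ((∑ e : E → P, SAx S L A X N Finset.univ M T Zw E (ex e) W V Y : ℝ) : ℂ) =
        ∑ z : Zg D Zw E → Nk N (n - 1), ∑ c ∈ Cf (Zg D Zw E) (Le p Λ N n),
          Pn c * H4 S L A X N n T Zw E W V (zx z) c := by
      rw [← Finset.sum_congr rfl fun z _ => h1 z, Finset.sum_const, Finset.card_univ, nsmul_eq_mul]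
    rw [Finset.sum_comm] at h2
    refine mul_left_cancel₀ hzc (h2.trans ?_)
    rw [Finset.mul_sum]
    refine Finset.sum_congr rfl fun c _ => ?_
    unfold Hm
    rw [← Finset.mul_sum]
    field_simp
  have hR : ((∑ e : E → P, SAx S L A X N Finset.univ M T Zw E (ex e) W
      (fun x => wav N n (V x)) Y : ℝ) : ℂ) =
      ∑ c ∈ Cf (Zg D Zw E) (Le p Λ N n), Pn c *
        (if Tr (Zg D Zw E) T c then Hm S L A X N n T Zw E W V c else 0) := by
    have h1 : ∀ z : Zg D Zw E → Nk N (n - 1),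
        ((∑ e : E → P, SAx S L A X N Finset.univ M T Zw E (ex e) W
          (fun x => wav N n (V x)) Y : ℝ) : ℂ) =
        ∑ c ∈ Cf (Zg D Zw E) (Le p Λ N n), Pn c *
          (if Tr (Zg D Zw E) T c then H4 S L A X N n T Zw E W V (zx z) c else 0) := by
      intro z
      rw [exp4m S L A X M T Zw E W V za b hW (zx z) (hzN z) Y]
      refine Finset.sum_congr rfl fun c _ => ?_
      rw [hPn, f4_h4 hp hn S L A X T Zw E W V hW.winv (zx z) c]
    have h2 : (Fintype.card (Zg D Zw E → Nk N (n - 1)) : ℂ) *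
        ((∑ e : E → P, SAx S L A X N Finset.univ M T Zw E (ex e) W
          (fun x => wav N n (V x)) Y : ℝ) : ℂ) =
        ∑ z : Zg D Zw E → Nk N (n - 1), ∑ c ∈ Cf (Zg D Zw E) (Le p Λ N n),
          Pn c * (if Tr (Zg D Zw E) T c then H4 S L A X N n T Zw E W V (zx z) c else 0) := by
      rw [← Finset.sum_congr rfl fun z _ => h1 z, Finset.sum_const, Finset.card_univ, nsmul_eq_mul]
    rw [Finset.sum_comm] at h2
    refine mul_left_cancel₀ hzc (h2.trans ?_)
    rw [Finset.mul_sum]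
    refine Finset.sum_congr rfl fun c _ => ?_
    by_cases ht : Tr (Zg D Zw E) T c
    · simp only [if_pos ht]
      unfold Hm
      rw [← Finset.mul_sum]
      field_simp
    · simp only [if_neg ht, mul_zero, Finset.sum_const_zero]
  -- the difference
  have hdif : ((∑ e : E → P, SAx S L A X N Finset.univ M T Zw E (ex e) W V Y : ℝ) : ℂ) -
      ((∑ e : E → P, SAx S L A X N Finset.univ M T Zw E (ex e) W
        (fun x => wav N n (V x)) Y : ℝ) : ℂ) =
      ∑ χ : Xc p N n, ∑ c ∈ Cf (Zg D Zw E) (Le p Λ N n), Pn c *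
        (if ¬ Tr (Zg D Zw E) T c ∧ chx 1 (Sc (Zg D Zw E) T c) = χ then
          Hm S L A X N n T Zw E W V c else 0) := by
    rw [hL, hR, ← Finset.sum_sub_distrib, Finset.sum_comm]
    refine Finset.sum_congr rfl fun c _ => ?_
    rw [← mul_sub, ← Finset.mul_sum]
    congr 1
    by_cases ht : Tr (Zg D Zw E) T c
    · rw [if_pos ht, sub_self, Finset.sum_eq_zero]
      intro χ _
      exact if_neg fun h => h.1 ht
    · rw [if_neg ht, sub_zero, Finset.sum_eq_single (chx 1 (Sc (Zg D Zw E) T c))]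
      · rw [if_pos ⟨ht, rfl⟩]
      · intro χ _ hχ
        exact if_neg fun h => hχ h.2.symm
      · intro h
        exact absurd (Finset.mem_univ _) h
  -- one character
  have hone : ∀ χ : Xc p N n, ‖∑ c ∈ Cf (Zg D Zw E) (Le p Λ N n), Pn c *
        (if ¬ Tr (Zg D Zw E) T c ∧ chx 1 (Sc (Zg D Zw E) T c) = χ then
          Hm S L A X N n T Zw E W V c else 0)‖ ≤
      Fintype.card (Option (Fin (n + 1) → Le p Λ N n)) * (Y * Real.log Y ^ (-(A₂ + 1))) := by
    intro χ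
    have hr0 : 0 ≤ Y * Real.log Y ^ (-(A₂ + 1)) :=
      mul_nonneg hY0.le (Real.rpow_nonneg hl0.le _)
    obtain ⟨sel, hsel⟩ : ∃ sel : (Pl K → Option (Le p Λ N n)) → Prop, ∀ c, sel c ↔
        (¬ Tr (Zg D Zw E) T c ∧ chx 1 (Sc (Zg D Zw E) T c) = χ) := ⟨_, fun _ => Iff.rfl⟩
    have hselm : ∀ c, sel c → χ ∈ Sc (Zg D Zw E) T c := by
      intro c hc
      obtain ⟨h1, h2⟩ := (hsel c).1 hc
      rw [← h2]
      exact chx_mem _ _ ((sc_tr _ _ _).1 h1)
    have hgoal : ∑ c ∈ Cf (Zg D Zw E) (Le p Λ N n), Pn c *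
        (if ¬ Tr (Zg D Zw E) T c ∧ chx 1 (Sc (Zg D Zw E) T c) = χ then
          Hm S L A X N n T Zw E W V c else 0) =
        ∑ c ∈ Cf (Zg D Zw E) (Le p Λ N n), Pn c *
        (if sel c then Hm S L A X N n T Zw E W V c else 0) := by
      refine Finset.sum_congr rfl fun c _ => ?_
      by_cases h : sel c
      · rw [if_pos h, if_pos ((hsel c).1 h)]
      · rw [if_neg h, if_neg fun h1 => h ((hsel c).2 h1)]
    rw [hgoal]
    by_cases hex : ∃ c, sel c
    swap
    · push Not at hex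
      rw [Finset.sum_eq_zero, norm_zero]
      · exact mul_nonneg (Nat.cast_nonneg _) hr0
      · intro c _
        rw [if_neg (hex c), mul_zero]
    obtain ⟨c₀, hc₀⟩ := hex
    obtain ⟨hχ1, v₀, -, x₀, -⟩ := hselm c₀ hc₀
    obtain ⟨G, hG⟩ : ∃ G : (Fin (n + 1) → Le p Λ N n) → (Le p Λ N n → ℕ) → Prop,
        ∀ l ν, G l ν ↔ ((∀ k, ∃ y : P, (y : P ⧸ N) = (l k).2.1 ∧ W (l k).1 y ≠ 0) ∧
      (∃ u : Fin (n + 1) → P,
        xt χ (brk (List.ofFn fun j => u j * S.val (l j).1 * (u j)⁻¹)) ≠ 0) ∧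
      ∀ k, (Finset.univ.filter fun j => l j = l k).card ≤ ν (l k)) := ⟨_, fun _ _ => Iff.rfl⟩
    obtain ⟨cf, hcf⟩ : ∃ cf : (Le p Λ N n → ℕ) → Option (Fin (n + 1) → Le p Λ N n),
        cf = fun ν => if h : ∃ l, G l ν then some h.choose else none := ⟨_, rfl⟩
    have hcf1 : ∀ ν l, cf ν = some l → G l ν := by
      intro ν l h
      rw [hcf] at h
      beta_reduce at h
      by_cases h1 : ∃ l, G l ν
      · rw [dif_pos h1] at h
        rw [← Option.some.inj h]
        exact h1.choose_spec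
      · rw [dif_neg h1] at h
        exact absurd h (by simp)
    have hcf2 : ∀ ν, cf ν = none → ¬ ∃ l, G l ν := by
      intro ν h h1
      rw [hcf] at h
      beta_reduce at h
      rw [dif_pos h1] at h
      exact absurd h (by simp)
    obtain ⟨Φ, hΦ⟩ : ∃ Φ : Option (Fin (n + 1) → Le p Λ N n) → (Le p Λ N n → ℕ) → ℂ,
        ∀ o ν, Φ o ν = if PatN S Finset.univ M ν ∧ cf ν = o then 1 else 0 := ⟨_, fun _ _ => rfl⟩
    have hsum : ∀ ν, (if PatN S Finset.univ M ν then (1 : ℂ) else 0) = ∑ o, Φ o ν := by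
      intro ν
      rw [Finset.sum_eq_single (cf ν)]
      · rw [hΦ]
        by_cases h : PatN S Finset.univ M ν
        · rw [if_pos h, if_pos ⟨h, rfl⟩]
        · rw [if_neg h, if_neg fun h' => h h'.1]
      · intro o _ ho
        rw [hΦ]
        exact if_neg fun h => ho h.2.symm
      · intro h
        exact absurd (Finset.mem_univ _) h
    have hspl : ∑ c ∈ Cf (Zg D Zw E) (Le p Λ N n), Pn c *
        (if sel c then Hm S L A X N n T Zw E W V c else 0) =
        ∑ o, ∑ c ∈ Cf (Zg D Zw E) (Le p Λ N n),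
          Φ o (ct (Zg D Zw E) (fun v => T < (nm v : ℝ)) c) *
          ((psi (nr (sp (Zg D Zw E) c) / Y) : ℝ) : ℂ) *
          (if sel c then Hm S L A X N n T Zw E W V c else 0) := by
      rw [Finset.sum_comm]
      refine Finset.sum_congr rfl fun c _ => ?_
      rw [hPn, hsum, Finset.sum_mul, Finset.sum_mul]
    rw [hspl]
    refine (norm_sum_le _ _).trans ((Finset.sum_le_sum (g := fun _ =>
      Y * Real.log Y ^ (-(A₂ + 1))) fun o _ => ?_).trans (le_of_eq ?_))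
    · cases o with
      | none =>
        rw [Finset.sum_eq_zero, norm_zero]
        · exact hr0
        · intro c _
          rw [hΦ]
          by_cases h : PatN S Finset.univ M (ct (Zg D Zw E) (fun v => T < (nm v : ℝ)) c) ∧
            cf (ct (Zg D Zw E) (fun v => T < (nm v : ℝ)) c) = none
          · rcases lnk4 hn hW M hM ⟨x₀⟩ _ h.1 χ hχ1 with ⟨x, hx1, hx2⟩ | ⟨l, hl⟩
            · rw [hm_zero L A X T Zw E W V c x hx1 hx2, ite_self, mul_zero]
            · exact absurd ⟨l, (hG _ _).2 hl⟩ (hcf2 _ h.2)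
          · rw [if_neg h, zero_mul, zero_mul]
      | some l =>
        have hkey : ∀ ν, Φ (some l) ν ≠ 0 → G l ν := by
          intro ν hν
          rw [hΦ] at hν
          refine hcf1 ν l ?_
          by_contra h
          exact hν (if_neg fun h2 => h h2.2)
        by_cases hex : ∃ ν, Φ (some l) ν ≠ 0
        · obtain ⟨ν, hν⟩ := hex
          have hGl := (hG _ _).1 (hkey ν hν)
          refine hb1 l hGl.1 χ hGl.2.1 sel (fun c hc => (hselm c hc).2) (fun c q hq => ?_)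
            (Φ (some l)) ?_ ?_
          · rw [hsel, hsel, sc_tr, sc_tr, sc_up (Zg D Zw E) T c q l hq]
          · intro ν'
            rw [hΦ]
            split_ifs
            · rw [norm_one]
            · rw [norm_zero]
              exact zero_le_one
          · intro ν' hν'
            exact ((hG _ _).1 (hkey ν' hν')).2.2
        · push Not at hex
          rw [Finset.sum_eq_zero, norm_zero]
          · exact hr0
          · intro c _
            rw [hex, zero_mul, zero_mul]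
    · rw [Finset.sum_const, Finset.card_univ, nsmul_eq_mul]
  -- the end
  have hall : ‖((∑ e : E → P, SAx S L A X N Finset.univ M T Zw E (ex e) W V Y : ℝ) : ℂ) -
      ((∑ e : E → P, SAx S L A X N Finset.univ M T Zw E (ex e) W
        (fun x => wav N n (V x)) Y : ℝ) : ℂ)‖ ≤ Fintype.card (Xc p N n) *
      (Fintype.card (Option (Fin (n + 1) → Le p Λ N n)) * (Y * Real.log Y ^ (-(A₂ + 1)))) := by
    rw [hdif]
    refine (norm_sum_le _ _).trans ((Finset.sum_le_sum fun χ _ => hone χ).trans (le_of_eq ?_))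
    rw [Finset.sum_const, Finset.card_univ, nsmul_eq_mul]
  rw [← Complex.ofReal_sub, Complex.norm_real, Real.norm_eq_abs] at hall
  have h2 := (le_abs_self _).trans hall
  have hfin : Fintype.card (Xc p N n) *
      (Fintype.card (Option (Fin (n + 1) → Le p Λ N n)) * (Y * Real.log Y ^ (-(A₂ + 1)))) ≤
      Y * Real.log Y ^ (-A₂) := by
    have e1 : -(A₂ + 1) = -A₂ + (-1 : ℝ) := by ring
    rw [e1, Real.rpow_add hl0, Real.rpow_neg_one]
    have hr : 0 ≤ Y * Real.log Y ^ (-A₂) := mul_nonneg hY0.le (Real.rpow_nonneg hl0.le _)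
    have h5 : (Fintype.card (Xc p N n) *
      Fintype.card (Option (Fin (n + 1) → Le p Λ N n)) : ℝ) * (Real.log Y)⁻¹ ≤ 1 := by
      rw [← div_eq_mul_inv, div_le_one hl0]
      linarith
    calc _ = (Y * Real.log Y ^ (-A₂)) * ((Fintype.card (Xc p N n) *
      Fintype.card (Option (Fin (n + 1) → Le p Λ N n)) : ℝ) * (Real.log Y)⁻¹) := by ring
      _ ≤ (Y * Real.log Y ^ (-A₂)) * 1 := mul_le_mul_of_nonneg_left h5 hr
      _ = _ := mul_one _
  linarith

end loc

end H70.UX
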