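import Pool.Agent.H70.UX.Fam4
import Pool.Agent.H35.UX.Bad

/-!
# H70-UX-BAD4: U4, the part with a fixed linked tuple is small (MP_b39724_nt, UBX)

* `Hm c`: the mean of `H4 z c` over the conjugations `z`. `hm_up`: the sum over the variable primes in a box.
* `bad4`: `∑_c Φ(ct c) psi [sel c] Hm c` is small for a tuple `l` which is linked with the character `χs` of a small prime.
-/

set_option autoImplicit false

open scoped NumberField
open IsDedekindDomain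
open scoped Classical

noncomputable section

namespace H70.UX

open H38.ML H63.MA H38.BB H38.BG H57.PC H57.BRA H77.WD H77.WE H77.PC3 H35.CF H35.UB H35.UX H1.BD

section loc

variable {K : Type} [Field K] [NumberField K] {Ω : Type} [Field Ω] [Algebra K Ω]
  {p : ℕ} [NeZero p] {ζ : K} {D : RD0 K p ζ} {P : Type} [Group P] [Fintype P] {Nc n : ℕ}
  {Λ : Type} {N : Subgroup P} [N.Normal]

/-- the mean over the conjugations of the labels of the large primes -/
def Hm (S : LS Nc P Λ) (L : LDs D Ω) (A : GS D Ω) (X : Pl K → FW A)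
    (N : Subgroup P) [N.Normal] (n : ℕ) (T : ℝ) (Zw E : Finset (Pl K)) (W V : Λ → P → ℝ)
    (c : Pl K → Option (Le p Λ N n)) : ℂ :=
  (∑ z : Zg D Zw E → Nk N (n - 1), H4 S L A X N n T Zw E W V (zx z) c) /
    (Fintype.card (Zg D Zw E → Nk N (n - 1)) : ℂ)

theorem h4_b {S : LS Nc P Λ} {W V : Λ → P → ℝ}
    {za : P → Equiv.Perm Λ} {b : ℝ} (hW : W4 p S N n W V za b) (L : LDs D Ω)
    (A : GS D Ω) (X : Pl K → FW A) (T : ℝ) (Zw E : Finset (Pl K)) (z : Pl K → P)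
    (c : Pl K → Option (Le p Λ N n)) :
    ‖H4 S L A X N n T Zw E W V z c‖ ≤ (Fintype.card ((E → P) × (Fin A.g → P)) : ℝ) *
      b ^ (sp (Zg D Zw E) c).card := by
  unfold H4
  have hb : 0 ≤ b := zero_le_one.trans hW.b1
  refine (norm_sum_le _ _).trans ?_
  have h1 : ∀ e : E → P, ‖∑ α : Fin A.g → P,
    (if Adq A (Nk N n) (sp (Zg D Zw E) c) X (xc4 T c)
        (gz (fun x : Le p Λ N n => S.val x.1) T z c) e α ∧ Hs L A E N (sp (Zg D Zw E) c)
        (ev A (ge (gz (fun x : Le p Λ N n => S.val x.1) T z c) e) α) then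
      om (Zg D Zw E) (fun v x => w4 N n T W V z v x
        (ev A (ge (gz (fun x : Le p Λ N n => S.val x.1) T z c) e) α (X v))) c
    else 0)‖ ≤ (Fintype.card (Fin A.g → P) : ℝ) * b ^ (sp (Zg D Zw E) c).card := by
    intro e
    refine (norm_sum_le _ _).trans ((Finset.sum_le_sum (g := fun _ => b ^ (sp (Zg D Zw E) c).card)
      fun α _ => ?_).trans (le_of_eq ?_))
    · split_ifs
      · rw [om_norm]
        exact om_le_pow _ _ b (fun v x => ⟨norm_nonneg _, w4_b hW T z v x _⟩) c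
      · rw [norm_zero]
        positivity
    · rw [Finset.sum_const, Finset.card_univ, nsmul_eq_mul]
  refine (Finset.sum_le_sum fun e _ => h1 e).trans (le_of_eq ?_)
  rw [Finset.sum_const, Finset.card_univ, nsmul_eq_mul, Fintype.card_prod]
  push_cast
  ring

theorem hm_b {S : LS Nc P Λ} {W V : Λ → P → ℝ}
    {za : P → Equiv.Perm Λ} {b : ℝ} (hW : W4 p S N n W V za b) (L : LDs D Ω)
    (A : GS D Ω) (X : Pl K → FW A) (T : ℝ) (Zw E : Finset (Pl K))
    (c : Pl K → Option (Le p Λ N n)) :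
    ‖Hm S L A X N n T Zw E W V c‖ ≤ (Fintype.card ((E → P) × (Fin A.g → P)) : ℝ) *
      b ^ (sp (Zg D Zw E) c).card := by
  unfold Hm
  have hc : (0 : ℝ) < Fintype.card (Zg D Zw E → Nk N (n - 1)) := by
    exact_mod_cast Fintype.card_pos
  rw [norm_div, Complex.norm_natCast, div_le_iff₀ hc]
  refine (norm_sum_le _ _).trans ((Finset.sum_le_sum fun z _ => h4_b hW L A X T Zw E (zx z) c).trans
    (le_of_eq ?_))
  rw [Finset.sum_const, Finset.card_univ, nsmul_eq_mul]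
  ring

/-- the sum over the variable primes in a box -/
theorem hm_up (hn : Nk N (n + 1) = ⊥) {S : LS Nc P Λ} (L : LDs D Ω) (A : GS D Ω)
    (X : Pl K → FW A) (T : ℝ) (Zw E : Finset (Pl K)) (W V : Λ → P → ℝ) (b : ℝ) (hb : 0 < b)
    (l : Fin (n + 1) → Le p Λ N n) (hl : ∀ k, S.val (l k).1 ∈ N)
    (lo hi : Fin (n + 1) → ℝ) (hlo : ∀ k, T ≤ lo k)
    (c : Pl K → Option (Le p Λ N n)) :
    ‖∑ q ∈ (H35.CF.Fr (Zg D Zw E) (fun v => T < (nm v : ℝ)) c (n + 1)).filter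
        (fun q => ∀ k, lo k < nm (q k) ∧ (nm (q k) : ℝ) ≤ hi k),
      Hm S L A X N n T Zw E W V (up c q l)‖ ≤
      (∑ z : Zg D Zw E → Nk N (n - 1), b ^ ((sp (Zg D Zw E) c).card + (n + 1)) *
        ∑ e : E → P, ∑ α : Fin A.g → P,
        if Adq A (Nk N n) (sp (Zg D Zw E) c) X (xc4 T c)
          (gz (fun x : Le p Λ N n => S.val x.1) T (zx z) c) e α ∧ Hs L A E N (sp (Zg D Zw E) c)
          (ev A (ge (gz (fun x : Le p Λ N n => S.val x.1) T (zx z) c) e) α) then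
        ‖(bx4 S L A N n T Zw E W V b lo hi (zx z) c e α).smz X Zw (fun k => S.val (l k).1)
          (gk4 N W b l)‖ else 0) / (Fintype.card (Zg D Zw E → Nk N (n - 1)) : ℝ) := by
  have hc : (0 : ℝ) < Fintype.card (Zg D Zw E → Nk N (n - 1)) := by
    exact_mod_cast Fintype.card_pos
  have hv : (1 : ℝ) ≤ Fintype.card (Fin (n + 1) → Nk N (n - 1)) := by
    exact_mod_cast Fintype.card_pos
  have hc' : (Fintype.card (Zg D Zw E → Nk N (n - 1)) : ℂ) ≠ 0 :=
    Nat.cast_ne_zero.2 Fintype.card_ne_zero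
  have hv' : (Fintype.card (Fin (n + 1) → Nk N (n - 1)) : ℂ) ≠ 0 :=
    Nat.cast_ne_zero.2 Fintype.card_ne_zero
  have h1 : ∀ q ∈ (H35.CF.Fr (Zg D Zw E) (fun v => T < (nm v : ℝ)) c (n + 1)).filter
        (fun q => ∀ k, lo k < nm (q k) ∧ (nm (q k) : ℝ) ≤ hi k),
      Hm S L A X N n T Zw E W V (up c q l) =
        (∑ z : Zg D Zw E → Nk N (n - 1), ∑ z' : Fin (n + 1) → Nk N (n - 1),
          H4 S L A X N n T Zw E W V (zq (zx z) q fun k => z' k) (up c q l)) /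
          ((Fintype.card (Zg D Zw E → Nk N (n - 1)) : ℂ) *
            (Fintype.card (Fin (n + 1) → Nk N (n - 1)) : ℂ)) := by
    intro q hq
    rw [Finset.mem_filter] at hq
    rw [← avz q (mem_fr.1 hq.1).2 (fun k => ((mem_fr.1 hq.1).1 k).1)
      (fun z => H4 S L A X N n T Zw E W V z (up c q l))]
    unfold Hm
    have h2 : ∀ z : Zg D Zw E → Nk N (n - 1), ∑ _z' : Fin (n + 1) → Nk N (n - 1),
        H4 S L A X N n T Zw E W V (zx z) (up c q l) =
        (Fintype.card (Fin (n + 1) → Nk N (n - 1)) : ℂ) *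
          H4 S L A X N n T Zw E W V (zx z) (up c q l) := by
      intro z
      rw [Finset.sum_const, Finset.card_univ, nsmul_eq_mul]
    rw [Finset.sum_congr rfl fun z _ => h2 z, ← Finset.mul_sum]
    field_simp
  rw [Finset.sum_congr rfl h1, ← Finset.sum_div, Finset.sum_comm, norm_div, norm_mul,
    Complex.norm_natCast, Complex.norm_natCast]
  rw [Finset.sum_congr rfl fun z _ => h4_up hn S L A X T Zw E W V b hb l hl lo hi hlo (zx z) c]
  refine div_le_div₀ ?_ ?_ hc ?_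
  · refine Finset.sum_nonneg fun z _ => mul_nonneg (by positivity) ?_
    refine Finset.sum_nonneg fun e _ => Finset.sum_nonneg fun α _ => ?_
    split_ifs
    · exact norm_nonneg _
    · exact le_rfl
  · refine (norm_sum_le _ _).trans (Finset.sum_le_sum fun z _ => ?_)
    rw [norm_mul, norm_pow, Complex.norm_real, Real.norm_of_nonneg hb.le]
    refine mul_le_mul_of_nonneg_left ?_ (by positivity)
    refine (norm_sum_le _ _).trans (Finset.sum_le_sum fun e _ => ?_)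
    refine (norm_sum_le _ _).trans (Finset.sum_le_sum fun α _ => ?_)
    split_ifs
    · exact le_rfl
    · rw [norm_zero]
  · exact le_mul_of_one_le_right hc.le hv

theorem bad4 (hp : p.Prime) (hn : Nk N (n + 1) = ⊥) (D : RD0 K p ζ) (A : GS D Ω) {S : LS Nc P Λ}
    {W V : Λ → P → ℝ} {za : P → Equiv.Perm Λ} {b : ℝ} (hW : W4 p S N n W V za b) [Fintype Λ]
    (A₁ A₂ ε : ℝ) (hε : 0 < ε) :
    ∃ C₁ A₀ Y₀ : ℝ, 2 ≤ C₁ ∧ 0 ≤ A₀ ∧ 3 ≤ Y₀ ∧ ∀ C₁' A₀' : ℝ, C₁ ≤ C₁' → A₀ ≤ A₀' →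
      ∀ Y : ℝ, Y₀ ≤ Y → ∀ (L : LDs D Ω) (Fr : FR L) (X : Pl K → FW A) (Zw E : Finset (Pl K)),
      EOk A₁ Y Zw E →
      (∀ φ : Gal(Ω/K) →* P ⧸ N, Unz L Zw φ → ∀ v ∈ Zw, hat L A φ (X v) = φ (Fr.F v)) →
      BGb Fr A X Zw E N n C₁' A₀' ε Y → ∀ l : Fin (n + 1) → Le p Λ N n,
      (∀ k, ∃ y : P, (y : P ⧸ N) = (l k).2.1 ∧ W (l k).1 y ≠ 0) → ∀ χs : Xc p N n,
      (∃ u : Fin (n + 1) → P,
        xt χs (brk (List.ofFn fun j => u j * S.val (l j).1 * (u j)⁻¹)) ≠ 0) →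
      ∀ sel : (Pl K → Option (Le p Λ N n)) → Prop,
      (∀ c, sel c →
        ∃ v ∈ Zg D Zw E, ∃ x, c v = some x ∧ ¬ T0 ε Y < (nm v : ℝ) ∧ x.2.2 = χs) →
      (∀ c, ∀ q ∈ H35.CF.Fr (Zg D Zw E) (fun v => T0 ε Y < (nm v : ℝ)) c (n + 1),
        sel (up c q l) ↔ sel c) →
      ∀ Φ : (Le p Λ N n → ℕ) → ℂ, (∀ ν, ‖Φ ν‖ ≤ 1) →
        (∀ ν, Φ ν ≠ 0 → ∀ k, (Finset.univ.filter fun j => l j = l k).card ≤ ν (l k)) →
      ‖∑ c ∈ Cf (Zg D Zw E) (Le p Λ N n),
        Φ (ct (Zg D Zw E) (fun v => T0 ε Y < (nm v : ℝ)) c) *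
          ((psi (nr (sp (Zg D Zw E) c) / Y) : ℝ) : ℂ) *
          (if sel c then Hm S L A X N n (T0 ε Y) Zw E W V c else 0)‖ ≤
        Y * Real.log Y ^ (-A₂) := by
  have hb1 : 1 ≤ b := hW.b1
  have hb0 : 0 < b := by linarith
  obtain ⟨Pc, hPc⟩ : ∃ Pc : ℕ, Pc = Fintype.card P := ⟨_, rfl⟩
  have hPc1 : (1 : ℝ) ≤ Pc := by
    rw [hPc]
    exact_mod_cast Fintype.card_pos
  have hlP : 0 ≤ Real.log Pc := Real.log_nonneg hPc1
  obtain ⟨aP, haP⟩ : ∃ aP : ℝ, aP = 2 * |A₁| * Real.log Pc := ⟨_, rfl⟩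
  have haP0 : 0 ≤ aP := by
    rw [haP]
    positivity
  obtain ⟨C, A', Cb, hC, hA', hCb, hbad⟩ := H35.UX.badx K (Le p Λ N n) (n + 1) b
    (|A₂| + 1 + aP) ε (by linarith [hW.b1]) (by positivity) hε
  obtain ⟨Y₁, hY₁⟩ := H1.BD.log_rpow_le |A₁|
  have hlb : 0 ≤ Real.log b := Real.log_nonneg hb1
  obtain ⟨Ng, hNg⟩ : ∃ Ng : ℕ, Ng = Fintype.card (Fin A.g → P) := ⟨_, rfl⟩
  obtain ⟨Lc, hLc⟩ : ∃ Lc : ℕ, Lc = Fintype.card (Le p Λ N n) := ⟨_, rfl⟩
  have hNg1 : (1 : ℝ) ≤ Ng := by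
    rw [hNg]
    exact_mod_cast Fintype.card_pos
  have hLc1 : (1 : ℝ) ≤ (Lc : ℝ) + 1 := by
    have : (0 : ℝ) ≤ Lc := Nat.cast_nonneg _
    linarith
  have hlL : 0 ≤ Real.log ((Lc : ℝ) + 1) := Real.log_nonneg hLc1
  obtain ⟨H, hH⟩ : ∃ H : ℝ, H = Ng * Cb + b ^ (n + 1) * Real.exp (C * Real.log b) +
      Ng * Real.exp (C * Real.log ((Lc : ℝ) + 1)) + 3 := ⟨_, rfl⟩
  have hA₁ : 0 ≤ |A₁| := abs_nonneg _
  refine ⟨2 * C + 2 * |A₁| + C * Real.log ((Lc : ℝ) + 1) + aP + 2, A' + |A₁| + C * Real.log b + 1,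
    max (Real.exp H) Y₁, ?_, by positivity, ?_, ?_⟩
  · have : 0 ≤ C * Real.log ((Lc : ℝ) + 1) := by positivity
    linarith
  · refine le_trans ?_ (le_max_left _ _)
    have h1 := Real.add_one_le_exp H
    have h2 : 3 ≤ H := by
      rw [hH]
      have : 0 ≤ Ng * Cb + b ^ (n + 1) * Real.exp (C * Real.log b) +
        Ng * Real.exp (C * Real.log ((Lc : ℝ) + 1)) := by positivity
      linarith
    linarith
  intro C₁' A₀' hC₁' hA₀' Y hY L Fr X Zw E hE hX hB l hl χs hlk sel hsel hsup Φ hΦ1 hΦ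
  have hlN : ∀ k, S.val (l k).1 ∈ N := fun k => by
    obtain ⟨y, -, hy⟩ := hl k
    exact (hW.wN _ ⟨y, hy⟩).1
  have hYe : Real.exp H ≤ Y := (le_max_left _ _).trans hY
  have hY1 : Real.log Y ^ |A₁| ≤ Y := hY₁ Y ((le_max_right _ _).trans hY)
  have hY0 : 0 < Y := (Real.exp_pos H).trans_le hYe
  have hHl : H ≤ Real.log Y := by
    rw [Real.le_log_iff_exp_le hY0]
    exact hYe
  obtain ⟨ℓ, hℓ⟩ : ∃ ℓ, ℓ = Real.log Y := ⟨_, rfl⟩
  rw [← hℓ] at hHl hY1
  have hp1 : 0 ≤ Ng * Cb := by positivity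
  have hp2 : 0 ≤ b ^ (n + 1) * Real.exp (C * Real.log b) := by positivity
  have hp3 : 0 ≤ Ng * Real.exp (C * Real.log ((Lc : ℝ) + 1)) := by positivity
  have hl3 : 3 ≤ ℓ := by linarith
  have hq1 : Ng * Cb ≤ ℓ := by linarith
  have hq2 : b ^ (n + 1) * Real.exp (C * Real.log b) ≤ ℓ := by linarith
  have hq3 : Ng * Real.exp (C * Real.log ((Lc : ℝ) + 1)) ≤ ℓ := by linarith
  have hl0 : 0 < ℓ := by linarith
  have hl1 : 1 ≤ ℓ := by linarith
  have hY3 : 3 ≤ Y := by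
    have h1 := Real.add_one_le_exp ℓ
    rw [hℓ, Real.exp_log hY0, ← hℓ] at h1
    linarith
  have hll : 1 ≤ Real.log ℓ := by
    rw [Real.le_log_iff_exp_le hl0]
    exact (Real.exp_one_lt_d9.le.trans (by norm_num)).trans hl3
  have hCL : 0 ≤ C * Real.log ((Lc : ℝ) + 1) := by positivity
  have hnrE : nr E ≤ ℓ ^ |A₁| := by
    refine hE.2.trans ?_
    rw [← hℓ]
    exact Real.rpow_le_rpow_of_exponent_le hl1 (le_abs_self _)
  have hnrE0 : 0 < nr E := lt_of_lt_of_le one_pos (one_le_nr E)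
  have hcE : (E.card : ℝ) ≤ 2 * |A₁| * Real.log ℓ := by
    have h3 := H1.BD.card_le_nr E
    have h4 : Real.log (nr E) ≤ |A₁| * Real.log ℓ := by
      rw [← Real.log_rpow hl0]
      exact Real.log_le_log hnrE0 hnrE
    have h5 := Real.log_two_gt_d9
    have h6 : (0 : ℝ) ≤ E.card := Nat.cast_nonneg _
    nlinarith
  -- the number of the pairs
  obtain ⟨Q, hQ⟩ : ∃ Q : ℕ, Q = Fintype.card ((E → P) × (Fin A.g → P)) := ⟨_, rfl⟩
  have hQ1 : (1 : ℝ) ≤ Q := by
    rw [hQ]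
    exact_mod_cast Fintype.card_pos
  have hQle : (Q : ℝ) ≤ Ng * ℓ ^ aP := by
    have h1 : Q = Pc ^ E.card * Ng := by
      rw [hQ, Fintype.card_prod, hNg, hPc, Fintype.card_fun, Fintype.card_coe]
    rw [h1]
    push_cast
    rw [mul_comm]
    refine mul_le_mul_of_nonneg_left ?_ (by linarith)
    have h2 : (Pc : ℝ) ^ E.card = Real.exp (E.card * Real.log Pc) := by
      rw [mul_comm, Real.exp_mul, Real.exp_log (by linarith)]
      norm_cast
    rw [h2, Real.rpow_def_of_pos hl0, Real.exp_le_exp, haP]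
    have h3 := mul_le_mul_of_nonneg_right hcE hlP
    refine h3.trans (le_of_eq ?_)
    ring
  have hQ0 : (Q : ℂ) ≠ 0 := by
    have h1 : (0 : ℝ) < Q := by linarith
    exact_mod_cast h1.ne'
  -- the function
  obtain ⟨F, hF⟩ : ∃ F : (Pl K → Option (Le p Λ N n)) → ℂ, ∀ c, F c =
      (if sel c then Hm S L A X N n (T0 ε Y) Zw E W V c else 0) / (Q : ℂ) := ⟨_, fun _ => rfl⟩
  have hSE : ∑ c ∈ Cf (Zg D Zw E) (Le p Λ N n),
        Φ (ct (Zg D Zw E) (fun v => T0 ε Y < (nm v : ℝ)) c) *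
          ((psi (nr (sp (Zg D Zw E) c) / Y) : ℝ) : ℂ) *
          (if sel c then Hm S L A X N n (T0 ε Y) Zw E W V c else 0) = (Q : ℂ) *
      ∑ c ∈ Cf (Zg D Zw E) (Le p Λ N n), Φ (ct (Zg D Zw E) (fun v => T0 ε Y < (nm v : ℝ)) c) *
        ((psi (nr (sp (Zg D Zw E) c) / Y) : ℝ) : ℂ) * F c := by
    rw [Finset.mul_sum]
    refine Finset.sum_congr rfl fun c _ => ?_
    rw [hF, mul_comm (Q : ℂ), mul_assoc (_ * _), div_mul_cancel₀ _ hQ0]
  have h := hbad Y hY3 (Zg D Zw E) (fun v => T0 ε Y < (nm v : ℝ)) (fun v hv => hv) l Φ hΦ1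
    (fun ν hν k => by convert hΦ ν hν k) psi
    (fun t => by rw [abs_of_nonneg (psi_nonneg t)]; exact psi_le_one t) (fun t ht => psi_zero ht)
    psi_lip F ?_ ?_
  · rw [hSE, norm_mul, Complex.norm_natCast]
    refine (mul_le_mul_of_nonneg_left h (by linarith)).trans ?_
    rw [← hℓ]
    have h1 : ℓ ^ (-(|A₂| + 1)) * ℓ ≤ ℓ ^ (-A₂) := by
      have h2 : ℓ ^ (-(|A₂| + 1)) * ℓ = ℓ ^ (-|A₂|) := by
        rw [← Real.rpow_add_one hl0.ne']
        congr 1
        ring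
      rw [h2]
      exact Real.rpow_le_rpow_of_exponent_le hl1 (neg_le_neg (le_abs_self _))
    have h3 : ℓ ^ aP * ℓ ^ (-(|A₂| + 1 + aP)) = ℓ ^ (-(|A₂| + 1)) := by
      rw [← Real.rpow_add hl0]
      congr 1
      ring
    calc (Q : ℝ) * (Cb * Y * ℓ ^ (-(|A₂| + 1 + aP)))
        ≤ (Ng * ℓ ^ aP) * (Cb * Y * ℓ ^ (-(|A₂| + 1 + aP))) :=
          mul_le_mul_of_nonneg_right hQle (by positivity)
      _ = (Ng * Cb) * (Y * (ℓ ^ aP * ℓ ^ (-(|A₂| + 1 + aP)))) := by ring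
      _ = (Ng * Cb) * (Y * ℓ ^ (-(|A₂| + 1))) := by rw [h3]
      _ ≤ ℓ * (Y * ℓ ^ (-(|A₂| + 1))) := mul_le_mul_of_nonneg_right hq1 (by positivity)
      _ = Y * (ℓ ^ (-(|A₂| + 1)) * ℓ) := by ring
      _ ≤ Y * ℓ ^ (-A₂) := mul_le_mul_of_nonneg_left h1 hY0.le
  · intro c _
    rw [hF, norm_div, Complex.norm_natCast, div_le_iff₀ (by linarith)]
    split_ifs
    · refine (hm_b hW L A X (T0 ε Y) Zw E c).trans (le_of_eq ?_)
      rw [← hQ, mul_comm]
    · rw [norm_zero]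
      positivity
  · intro lo hi hlh
    rw [← hℓ] at hlh ⊢
    have hCC : C ≤ C₁' := by linarith
    have hpos : ∀ k, 0 < lo k := fun k => lt_of_lt_of_le (Real.exp_pos _) (hlh k).1
    have hlh' : ∀ k, T0 ε Y ≤ lo k ∧ lo k ≤ hi k ∧ hi k ≤ 2 * lo k ∧ hi k ≤ Y ^ C₁' := by
      intro k
      refine ⟨?_, (hlh k).2.1, (hlh k).2.2.1, (hlh k).2.2.2.trans ?_⟩
      · unfold T0
        rw [← hℓ]
        exact (hlh k).1
      · exact Real.rpow_le_rpow_of_exponent_le (by linarith) hCC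
    have hzc : (0 : ℝ) < Fintype.card (Zg D Zw E → Nk N (n - 1)) := by
      exact_mod_cast Fintype.card_pos
    -- the family for fixed conjugations
    obtain ⟨G, hG⟩ : ∃ G : (Zg D Zw E → Nk N (n - 1)) → (Pl K → Option (Le p Λ N n)) → ℝ,
        ∀ z c, G z c = if sel c then ∑ e : E → P, ∑ α : Fin A.g → P,
        (if Adq A (Nk N n) (sp (Zg D Zw E) c) X (xc4 (T0 ε Y) c)
          (gz (fun x : Le p Λ N n => S.val x.1) (T0 ε Y) (zx z) c) e α ∧
          Hs L A E N (sp (Zg D Zw E) c)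
          (ev A (ge (gz (fun x : Le p Λ N n => S.val x.1) (T0 ε Y) (zx z) c) e) α) then
        (nr (sp (Zg D Zw E) c ∪ E))⁻¹ * (∏ k, lo k)⁻¹ *
        ‖(bx4 S L A N n (T0 ε Y) Zw E W V b lo hi (zx z) c e α).smz X Zw
          (fun k => S.val (l k).1) (gk4 N W b l)‖ else 0) else 0 := ⟨_, fun _ _ => rfl⟩
    have hG0 : ∀ z c, 0 ≤ G z c := by
      intro z c
      rw [hG]
      split_ifs
      · refine Finset.sum_nonneg fun e _ => Finset.sum_nonneg fun α _ => ?_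
        split_ifs
        · exact mul_nonneg (mul_nonneg (inv_nonneg.2 (zero_le_one.trans (one_le_nr _)))
            (inv_nonneg.2 (Finset.prod_nonneg fun k _ => (hpos k).le))) (norm_nonneg _)
        · exact le_rfl
      · exact le_rfl
    have hfam : ∀ z : Zg D Zw E → Nk N (n - 1),
        ∑ c ∈ (Cf (Zg D Zw E) (Le p Λ N n)).filter (fun c => nr (sp (Zg D Zw E) c) ≤ Y ^ C ∧
          ((sp (Zg D Zw E) c).card : ℝ) ≤ C * (1 + Real.log ℓ)), G z c ≤ ℓ ^ (-A₀') := by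
      intro z
      have hf := bx4_fam hp hn hW L Fr A X ε Y C C₁' A₀' Zw E hE.1 hX hB l hl χs hlk sel hsel
        (zx z) (C * (1 + Real.log ℓ)) ?_ ?_ ?_ lo hi hlh' (by rw [← hℓ]; exact hl0.le)
      · rw [← hℓ] at hf
        refine le_trans (le_of_eq (Finset.sum_congr rfl fun c _ => hG z c)) hf
      · intro t ht
        have h1 : nr (t ∪ E) ≤ nr t * nr E := H63.MA.akb_nr_union t E
        refine h1.trans ?_
        have h2 : nr t * nr E ≤ Y ^ C * Y := by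
          refine mul_le_mul ht (hnrE.trans hY1) hnrE0.le (by positivity)
        refine h2.trans ?_
        rw [← Real.rpow_add_one hY0.ne']
        exact Real.rpow_le_rpow_of_exponent_le (by linarith) (by linarith)
      · intro t ht
        rw [← hℓ]
        have h1 : ((t ∪ E).card : ℝ) ≤ t.card + E.card := by
          exact_mod_cast Finset.card_union_le t E
        have h7 : 0 ≤ C * Real.log ((Lc : ℝ) + 1) * Real.log ℓ := by positivity
        have h8 : (2 * C + 2 * |A₁| + C * Real.log ((Lc : ℝ) + 1) + aP + 2) * Real.log ℓ ≤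
            C₁' * Real.log ℓ := mul_le_mul_of_nonneg_right hC₁' (by linarith)
        have h9 : 0 ≤ aP * Real.log ℓ := by positivity
        nlinarith
      · intro k hk
        rw [← hℓ, ← hQ, ← hLc]
        have h1 : (Lc : ℝ) ^ k ≤ ((Lc : ℝ) + 1) ^ k :=
          pow_le_pow_left₀ (Nat.cast_nonneg _) (by linarith) k
        have h2 := H1.BD.pow_le_ll ((Lc : ℝ) + 1) C ℓ hLc1 hl0 k hk
        calc (Q : ℝ) * (Lc : ℝ) ^ k
            ≤ (Ng * ℓ ^ aP) * (Real.exp (C * Real.log ((Lc : ℝ) + 1)) *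
                ℓ ^ (C * Real.log ((Lc : ℝ) + 1))) :=
              mul_le_mul hQle (h1.trans h2) (by positivity) (by positivity)
          _ = (Ng * Real.exp (C * Real.log ((Lc : ℝ) + 1))) *
                (ℓ ^ aP * ℓ ^ (C * Real.log ((Lc : ℝ) + 1))) := by ring
          _ ≤ ℓ * (ℓ ^ aP * ℓ ^ (C * Real.log ((Lc : ℝ) + 1))) :=
              mul_le_mul_of_nonneg_right hq3 (by positivity)
          _ = ℓ ^ (aP + C * Real.log ((Lc : ℝ) + 1) + 1) := by
              rw [← Real.rpow_add hl0, Real.rpow_add_one hl0.ne', mul_comm]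
          _ ≤ ℓ ^ C₁' := Real.rpow_le_rpow_of_exponent_le hl1 (by linarith)
    have hK : ∀ c ∈ (Cf (Zg D Zw E) (Le p Λ N n)).filter
        (fun c => nr (sp (Zg D Zw E) c) ≤ Y ^ C ∧
          ((sp (Zg D Zw E) c).card : ℝ) ≤ C * (1 + Real.log ℓ)),
        (nr (sp (Zg D Zw E) c))⁻¹ * (∏ k, lo k)⁻¹ *
        ‖∑ q ∈ (H35.CF.Fr (Zg D Zw E) (fun v => T0 ε Y < (nm v : ℝ)) c (n + 1)).filter
          (fun q => ∀ k, lo k < nm (q k) ∧ (nm (q k) : ℝ) ≤ hi k), F (up c q l)‖ ≤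
        (ℓ ^ |A₁| * (b ^ (n + 1) * (Real.exp (C * Real.log b) * ℓ ^ (C * Real.log b)))) *
        ((∑ z : Zg D Zw E → Nk N (n - 1), G z c) /
          (Fintype.card (Zg D Zw E → Nk N (n - 1)) : ℝ)) := by
      intro c hc
      rw [Finset.mem_filter] at hc
      have hdis : Disjoint (sp (Zg D Zw E) c) E := by
        rw [Finset.disjoint_left]
        intro v h1 h2
        exact (zg_E (mem_sp.1 h1).1).2 h2
      have h4 : (nr (sp (Zg D Zw E) c))⁻¹ ≤ ℓ ^ |A₁| * (nr (sp (Zg D Zw E) c ∪ E))⁻¹ := by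
        rw [nr_union hdis, mul_inv]
        have h5 : 0 < nr (sp (Zg D Zw E) c) := lt_of_lt_of_le one_pos (one_le_nr _)
        calc (nr (sp (Zg D Zw E) c))⁻¹
            = nr E * ((nr (sp (Zg D Zw E) c))⁻¹ * (nr E)⁻¹) := by field_simp
          _ ≤ ℓ ^ |A₁| * ((nr (sp (Zg D Zw E) c))⁻¹ * (nr E)⁻¹) :=
            mul_le_mul_of_nonneg_right hnrE (by positivity)
      have hpl : 0 ≤ (∏ k, lo k)⁻¹ := inv_nonneg.2 (Finset.prod_nonneg fun k _ => (hpos k).le)
      have hn0 : 0 ≤ (nr (sp (Zg D Zw E) c ∪ E))⁻¹ :=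
        inv_nonneg.2 (zero_le_one.trans (one_le_nr _))
      have hGs : 0 ≤ (∑ z : Zg D Zw E → Nk N (n - 1), G z c) /
          (Fintype.card (Zg D Zw E → Nk N (n - 1)) : ℝ) :=
        div_nonneg (Finset.sum_nonneg fun z _ => hG0 z c) hzc.le
      by_cases hs : sel c
      · have h1 := hm_up hn L A X (T0 ε Y) Zw E W V b hb0 l hlN lo hi
          (fun k => (hlh' k).1) c (S := S)
        have h2 : ‖∑ q ∈ (H35.CF.Fr (Zg D Zw E) (fun v => T0 ε Y < (nm v : ℝ)) c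
            (n + 1)).filter (fun q => ∀ k, lo k < nm (q k) ∧ (nm (q k) : ℝ) ≤ hi k),
            F (up c q l)‖ ≤
            ‖∑ q ∈ (H35.CF.Fr (Zg D Zw E) (fun v => T0 ε Y < (nm v : ℝ)) c
            (n + 1)).filter (fun q => ∀ k, lo k < nm (q k) ∧ (nm (q k) : ℝ) ≤ hi k),
            Hm S L A X N n (T0 ε Y) Zw E W V (up c q l)‖ := by
          have e1 : ∀ q ∈ (H35.CF.Fr (Zg D Zw E) (fun v => T0 ε Y < (nm v : ℝ)) c
            (n + 1)).filter (fun q => ∀ k, lo k < nm (q k) ∧ (nm (q k) : ℝ) ≤ hi k),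
            F (up c q l) = Hm S L A X N n (T0 ε Y) Zw E W V (up c q l) / (Q : ℂ) := by
            intro q hq
            rw [Finset.mem_filter] at hq
            rw [hF, if_pos ((hsup c q hq.1).2 hs)]
          rw [Finset.sum_congr rfl e1, ← Finset.sum_div, norm_div, Complex.norm_natCast]
          exact div_le_self (norm_nonneg _) hQ1
        have h3 : b ^ ((sp (Zg D Zw E) c).card + (n + 1)) ≤
            b ^ (n + 1) * (Real.exp (C * Real.log b) * ℓ ^ (C * Real.log b)) := by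
          rw [pow_add, mul_comm]
          exact mul_le_mul_of_nonneg_left (H1.BD.pow_le_ll b C ℓ hb1 hl0 _ hc.2.2) (by positivity)
        have hbp : 0 ≤ b ^ ((sp (Zg D Zw E) c).card + (n + 1)) := by positivity
        refine (mul_le_mul (mul_le_mul_of_nonneg_right h4 hpl) (h2.trans h1) (norm_nonneg _)
          (mul_nonneg (mul_nonneg (by positivity) hn0) hpl)).trans ?_
        rw [mul_div_assoc', mul_div_assoc']
        refine div_le_div_of_nonneg_right ?_ hzc.le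
        rw [Finset.mul_sum, Finset.mul_sum]
        refine Finset.sum_le_sum fun z _ => ?_
        rw [hG, if_pos hs]
        have e2 : ∑ e : E → P, ∑ α : Fin A.g → P,
            (if Adq A (Nk N n) (sp (Zg D Zw E) c) X (xc4 (T0 ε Y) c)
              (gz (fun x : Le p Λ N n => S.val x.1) (T0 ε Y) (zx z) c) e α ∧
              Hs L A E N (sp (Zg D Zw E) c)
              (ev A (ge (gz (fun x : Le p Λ N n => S.val x.1) (T0 ε Y) (zx z) c) e) α) then
            (nr (sp (Zg D Zw E) c ∪ E))⁻¹ * (∏ k, lo k)⁻¹ *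
            ‖(bx4 S L A N n (T0 ε Y) Zw E W V b lo hi (zx z) c e α).smz X Zw
              (fun k => S.val (l k).1) (gk4 N W b l)‖ else 0) =
            ((nr (sp (Zg D Zw E) c ∪ E))⁻¹ * (∏ k, lo k)⁻¹) * ∑ e : E → P,
              ∑ α : Fin A.g → P,
            (if Adq A (Nk N n) (sp (Zg D Zw E) c) X (xc4 (T0 ε Y) c)
              (gz (fun x : Le p Λ N n => S.val x.1) (T0 ε Y) (zx z) c) e α ∧
              Hs L A E N (sp (Zg D Zw E) c)
              (ev A (ge (gz (fun x : Le p Λ N n => S.val x.1) (T0 ε Y) (zx z) c) e) α) then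
            ‖(bx4 S L A N n (T0 ε Y) Zw E W V b lo hi (zx z) c e α).smz X Zw
              (fun k => S.val (l k).1) (gk4 N W b l)‖ else 0) := by
          rw [Finset.mul_sum]
          refine Finset.sum_congr rfl fun e _ => ?_
          rw [Finset.mul_sum]
          refine Finset.sum_congr rfl fun α _ => ?_
          rw [mul_ite, mul_zero]
        rw [e2]
        obtain ⟨Sz, hSz⟩ : ∃ Sz : ℝ, Sz = ∑ e : E → P,
              ∑ α : Fin A.g → P,
            (if Adq A (Nk N n) (sp (Zg D Zw E) c) X (xc4 (T0 ε Y) c)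
              (gz (fun x : Le p Λ N n => S.val x.1) (T0 ε Y) (zx z) c) e α ∧
              Hs L A E N (sp (Zg D Zw E) c)
              (ev A (ge (gz (fun x : Le p Λ N n => S.val x.1) (T0 ε Y) (zx z) c) e) α) then
            ‖(bx4 S L A N n (T0 ε Y) Zw E W V b lo hi (zx z) c e α).smz X Zw
              (fun k => S.val (l k).1) (gk4 N W b l)‖ else 0) := ⟨_, rfl⟩
        have hSz0 : 0 ≤ Sz := by
          rw [hSz]
          refine Finset.sum_nonneg fun e _ => Finset.sum_nonneg fun α _ => ?_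
          split_ifs
          · exact norm_nonneg _
          · exact le_rfl
        rw [← hSz]
        calc ℓ ^ |A₁| * (nr (sp (Zg D Zw E) c ∪ E))⁻¹ * (∏ k, lo k)⁻¹ *
              (b ^ ((sp (Zg D Zw E) c).card + (n + 1)) * Sz)
            = (ℓ ^ |A₁| * ((nr (sp (Zg D Zw E) c ∪ E))⁻¹ * (∏ k, lo k)⁻¹ * Sz)) *
              b ^ ((sp (Zg D Zw E) c).card + (n + 1)) := by ring
          _ ≤ (ℓ ^ |A₁| * ((nr (sp (Zg D Zw E) c ∪ E))⁻¹ * (∏ k, lo k)⁻¹ * Sz)) *
              (b ^ (n + 1) * (Real.exp (C * Real.log b) * ℓ ^ (C * Real.log b))) :=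
              mul_le_mul_of_nonneg_left h3
                (mul_nonneg (by positivity) (mul_nonneg (mul_nonneg hn0 hpl) hSz0))
          _ = _ := by ring
      · have h1 : ∑ q ∈ (H35.CF.Fr (Zg D Zw E) (fun v => T0 ε Y < (nm v : ℝ)) c
            (n + 1)).filter (fun q => ∀ k, lo k < nm (q k) ∧ (nm (q k) : ℝ) ≤ hi k),
            F (up c q l) = 0 := by
          refine Finset.sum_eq_zero fun q hq => ?_
          rw [Finset.mem_filter] at hq
          rw [hF, if_neg fun h => hs ((hsup c q hq.1).1 h), zero_div]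
        rw [h1, norm_zero, mul_zero]
        exact mul_nonneg (by positivity) hGs
    refine (Finset.sum_le_sum hK).trans ?_
    rw [← Finset.mul_sum, ← Finset.sum_div, Finset.sum_comm]
    have h6 : (∑ z : Zg D Zw E → Nk N (n - 1),
        ∑ c ∈ (Cf (Zg D Zw E) (Le p Λ N n)).filter (fun c => nr (sp (Zg D Zw E) c) ≤ Y ^ C ∧
          ((sp (Zg D Zw E) c).card : ℝ) ≤ C * (1 + Real.log ℓ)), G z c) /
        (Fintype.card (Zg D Zw E → Nk N (n - 1)) : ℝ) ≤ ℓ ^ (-A₀') := by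
      rw [div_le_iff₀ hzc]
      refine (Finset.sum_le_sum fun z _ => hfam z).trans (le_of_eq ?_)
      rw [Finset.sum_const, Finset.card_univ, nsmul_eq_mul, mul_comm]
    have h5 : ℓ ^ (-A₀') ≤ ℓ ^ (-(A' + |A₁| + C * Real.log b + 1)) :=
      Real.rpow_le_rpow_of_exponent_le hl1 (neg_le_neg hA₀')
    refine (mul_le_mul_of_nonneg_left (h6.trans h5) (by positivity)).trans ?_
    calc (ℓ ^ |A₁| * (b ^ (n + 1) * (Real.exp (C * Real.log b) * ℓ ^ (C * Real.log b)))) *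
          ℓ ^ (-(A' + |A₁| + C * Real.log b + 1))
        = (b ^ (n + 1) * Real.exp (C * Real.log b)) *
          (ℓ ^ |A₁| * ℓ ^ (C * Real.log b) * ℓ ^ (-(A' + |A₁| + C * Real.log b + 1))) := by ring
      _ ≤ ℓ * (ℓ ^ |A₁| * ℓ ^ (C * Real.log b) * ℓ ^ (-(A' + |A₁| + C * Real.log b + 1))) :=
          mul_le_mul_of_nonneg_right hq2 (by positivity)
      _ = ℓ ^ (-A') := by
          rw [← Real.rpow_add hl0, ← Real.rpow_add hl0, mul_comm, ← Real.rpow_add_one hl0.ne']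
          congr 1
          ring

end loc

end H70.UX
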