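import Pool.Agent.H70.UX.Adg
import Pool.Agent.H35.UX.Ub

/-!
# H70-UX-BX4: the boxes of a configuration in U4 (MP_b39724_nt, UBX)

* `zq z q z'`: the conjugations with `z' k` at `q k`. `ge_up`, `hs4_up`, `adq4_up`: insertion of the variable primes.
* `bx4`: the box of a configuration, `gk4` the functions of the variable primes. `bx4_sum`: the sum over the variable primes is `Bs.sm`. `h4_up`: with the sum over the conjugations
  of the labels of the variable primes: `Bs.smz`.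
* `avz`: insertion of the sum over the conjugations at the variable primes in the mean over all conjugations.
-/

set_option autoImplicit false

open scoped NumberField
open IsDedekindDomain
open scoped Classical

noncomputable section

namespace H70.UX

open H38.ML H63.MA H38.BB H38.BG H57.PC H57.BRA H77.WD H77.WE H77.PC3 H35.CF H35.UB H35.UX H1.BD

section gen

variable {K : Type} [Field K] [NumberField K] {P Λ : Type} [Group P] {m : ℕ}

/-- change of the conjugations at the variable primes -/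
def zq (z : Pl K → P) (q : Fin m → Pl K) (z' : Fin m → P) (v : Pl K) : P :=
  if h : ∃ k, q k = v then z' h.choose else z v

omit [Group P] in
theorem zq_of (z : Pl K → P) (q : Fin m → Pl K) (z' : Fin m → P) (hq : Function.Injective q)
    (k : Fin m) : zq z q z' (q k) = z' k := by
  have h : ∃ j, q j = q k := ⟨k, rfl⟩
  unfold zq
  rw [dif_pos h, hq h.choose_spec]

omit [Group P] in
theorem zq_ne (z : Pl K → P) (q : Fin m → Pl K) (z' : Fin m → P) (v : Pl K)
    (h : ∀ k, q k ≠ v) : zq z q z' v = z v := by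
  unfold zq
  rw [dif_neg]
  push Not
  exact h

/-- the values as labels -/
def mz (val : Λ → P) (T : ℝ) (z : Pl K → P) (c : Pl K → Option Λ) (v : Pl K) : Option P :=
  (c v).map fun x => if T < (nm v : ℝ) then z v * val x * (z v)⁻¹ else val x

theorem lab_mz {E : Finset (Pl K)} (e : E → P) (val : Λ → P) (T : ℝ) (z : Pl K → P)
    (c : Pl K → Option Λ) :
    lab E (ex e) (fun x : P => x) (mz val T z c) = ge (gz val T z c) e := by
  rw [lab_ge]
  congr 1
  funext v
  unfold mz gz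
  cases c v <;> rfl

theorem sp_mz (Z : Finset (Pl K)) (val : Λ → P) (T : ℝ) (z : Pl K → P)
    (c : Pl K → Option Λ) : sp Z (mz val T z c) = sp Z c := by
  ext v
  rw [mem_sp, mem_sp]
  unfold mz
  rw [Ne, Ne, Option.map_eq_none_iff]

theorem mz_up (val : Λ → P) (T : ℝ) (z : Pl K → P) (z' : Fin m → P)
    (Z : Finset (Pl K)) (c : Pl K → Option Λ) (q : Fin m → Pl K) (l : Fin m → Λ)
    (hq : q ∈ H35.CF.Fr Z (fun v => T < (nm v : ℝ)) c m) :
    mz val T (zq z q z') (up c q l) =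
      up (mz val T z c) q fun k => z' k * val (l k) * (z' k)⁻¹ := by
  funext v
  by_cases h : ∃ k, q k = v
  · obtain ⟨k, rfl⟩ := h
    rw [up_of _ q _ (mem_fr.1 hq).2 k]
    unfold mz
    rw [up_of c q l (mem_fr.1 hq).2 k, zq_of z q z' (mem_fr.1 hq).2 k]
    change some (if _ then _ else _) = _
    rw [if_pos ((mem_fr.1 hq).1 k).2.1]
  · push Not at h
    rw [up_ne _ q _ v h]
    unfold mz
    rw [up_ne c q l v h, zq_ne z q z' v h]

theorem fr_mz (val : Λ → P) (T : ℝ) (z : Pl K → P) (Z : Finset (Pl K))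
    (c : Pl K → Option Λ) (q : Fin m → Pl K)
    (hq : q ∈ H35.CF.Fr Z (fun v => T < (nm v : ℝ)) c m) :
    q ∈ H35.CF.Fr Z (fun v => T < (nm v : ℝ)) (mz val T z c) m := by
  rw [mem_fr] at hq ⊢
  refine ⟨fun k => ⟨(hq.1 k).1, (hq.1 k).2.1, ?_⟩, hq.2⟩
  unfold mz
  rw [(hq.1 k).2.2]
  rfl

theorem ge_up {E : Finset (Pl K)} (e : E → P) (val : Λ → P) (T : ℝ) (z : Pl K → P)
    (z' : Fin m → P) (Z : Finset (Pl K)) (c : Pl K → Option Λ) (q : Fin m → Pl K) (l : Fin m → Λ)
    (hq : q ∈ H35.CF.Fr Z (fun v => T < (nm v : ℝ)) c m) (hE : ∀ k, q k ∉ E) (v : Pl K) :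
    ge (gz val T (zq z q z') (up c q l)) e v =
      if h : ∃ k, q k = v then z' h.choose * val (l h.choose) * (z' h.choose)⁻¹
      else ge (gz val T z c) e v := by
  rw [← lab_mz, mz_up val T z z' Z c q l hq, lab_up E _ _ _ q _ hE, lab_mz]

end gen

section hs

variable {K : Type} [Field K] [NumberField K] {Ω : Type} [Field Ω] [Algebra K Ω]
  {p : ℕ} {ζ : K} {D : RD0 K p ζ} {P : Type} [Group P] {Λ : Type} {m n : ℕ}

theorem hs4_up (L : LDs D Ω) (A : GS D Ω) {E : Finset (Pl K)} (e : E → P) (val : Λ → P)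
    (N : Subgroup P) [N.Normal] (T : ℝ) (z : Pl K → P) (z' : Fin m → P) (Z : Finset (Pl K))
    (c : Pl K → Option Λ) (q : Fin m → Pl K) (l : Fin m → Λ)
    (hq : q ∈ H35.CF.Fr Z (fun v => T < (nm v : ℝ)) c m) (hE : ∀ k, q k ∉ E)
    (hN : ∀ k, z' k * val (l k) * (z' k)⁻¹ ∈ N) (α : Fin A.g → P) :
    Hs L A E N (sp Z (up c q l)) (ev A (ge (gz val T (zq z q z') (up c q l)) e) α) ↔
      Hs L A E N (sp Z c) (ev A (ge (gz val T z c) e) α) := by
  have h := hs_up L A E (ex e) (fun x : P => x) N Z (fun v => T < (nm v : ℝ)) (mz val T z c) q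
    (fun k => z' k * val (l k) * (z' k)⁻¹) (fr_mz val T z Z c q hq) hE hN α
  rw [lab_mz, sp_mz, ← mz_up val T z z' Z c q l hq, lab_mz, sp_mz] at h
  exact h

theorem adq4_up {N : Subgroup P} [N.Normal] (hn : Nk N (n + 1) = ⊥) (A : GS D Ω)
    {E : Finset (Pl K)} (e : E → P)
    (val : Le p Λ N n → P) (X : Pl K → FW A) (T : ℝ) (z : Pl K → P) (z' : Fin m → P)
    (Z : Finset (Pl K)) (c : Pl K → Option (Le p Λ N n)) (q : Fin m → Pl K)
    (l : Fin m → Le p Λ N n)
    (hq : q ∈ H35.CF.Fr Z (fun v => T < (nm v : ℝ)) c m) (hE : ∀ k, q k ∉ E)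
    (hN : ∀ k, z' k * val (l k) * (z' k)⁻¹ ∈ N) (α : Fin A.g → P) :
    Adq A (Nk N n) (sp Z (up c q l)) X (xc4 T (up c q l)) (gz val T (zq z q z') (up c q l)) e α ↔
      Adq A (Nk N n) (sp Z c) X (xc4 T c) (gz val T z c) e α := by
  have := nk_normal N n
  obtain ⟨h1, h2⟩ := sp_up Z _ c q l hq
  refine adq_cong (nk_cen hn) X e α (fun v hv => ?_) ?_ (fun v hv u _ => ?_) fun v hv hv' u _ => ?_
  · have h3 := ge_up e val T z z' Z c q l hq hE v
    unfold ge at h3
    rw [dif_neg hv, dif_neg hv] at h3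
    rw [h3]
    split_ifs with h
    · obtain ⟨k, hk⟩ := h
      have h4 : gz val T z c v = 1 := by
        unfold gz
        rw [← hk, ((mem_fr.1 hq).1 k).2.2]
        rfl
      rw [h4, inv_one, mul_one]
      exact hN _
    · rw [mul_inv_cancel]
      exact N.one_mem
  · rw [h1]
    exact Finset.subset_union_left
  · unfold xc4
    rw [up_ne c q l v]
    rintro k rfl
    exact (mem_sp.1 hv).2 ((mem_fr.1 hq).1 k).2.2
  · rw [h1, Finset.mem_union, Finset.mem_image] at hv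
    rcases hv with hv | ⟨k, -, rfl⟩
    · exact absurd hv hv'
    · unfold xc4
      rw [up_of c q l (mem_fr.1 hq).2 k]
      change (if _ then (0 : ZMod p) else _) = 0
      exact if_pos ((mem_fr.1 hq).1 k).2.1

end hs

section av

variable {K : Type} [Field K] [NumberField K] {P : Type} [Group P] {m : ℕ}

/-- extension by `1` -/
def zx {Z : Finset (Pl K)} {V : Subgroup P} (z : Z → V) (v : Pl K) : P :=
  if h : v ∈ Z then (z ⟨v, h⟩ : P) else 1

theorem zx_mem {Z : Finset (Pl K)} {V : Subgroup P} (z : Z → V) (v : Pl K) : zx z v ∈ V := by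
  unfold zx
  split_ifs
  · exact (z _).2
  · exact V.one_mem

/-- change at the variable primes -/
private def upd {Z : Finset (Pl K)} {V : Subgroup P} (q : Fin m → Pl K) (z : Z → V)
    (z' : Fin m → V) (v : Z) : V := if h : ∃ k, q k = v then z' h.choose else z v

theorem avz {R : Type} [AddCommMonoid R] {Z : Finset (Pl K)} {V : Subgroup P} [Fintype V]
    (q : Fin m → Pl K) (hq : Function.Injective q) (hZ : ∀ k, q k ∈ Z) (f : (Pl K → P) → R) :
    ∑ z : Z → V, ∑ _z' : Fin m → V, f (zx z) =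
      ∑ z : Z → V, ∑ z' : Fin m → V, f (zq (zx z) q fun k => z' k) := by
  have hinv : Function.Involutive (fun x : (Z → V) × (Fin m → V) =>
      (upd q x.1 x.2, fun k => x.1 ⟨q k, hZ k⟩)) := by
    rintro ⟨z, z'⟩
    refine Prod.ext ?_ ?_
    · funext v
      change upd q (upd q z z') (fun k => z ⟨q k, hZ k⟩) v = z v
      unfold upd
      by_cases h : ∃ k, q k = v
      · rw [dif_pos h]
        exact congrArg z (Subtype.ext h.choose_spec)
      · rw [dif_neg h, dif_neg h]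
    · funext k
      change upd q z z' ⟨q k, hZ k⟩ = z' k
      unfold upd
      have h : ∃ j, q j = q k := ⟨k, rfl⟩
      rw [dif_pos h, hq h.choose_spec]
  rw [← Fintype.sum_prod_type' (f := fun z (_ : Fin m → V) => f (zx z)),
    ← Fintype.sum_prod_type' (f := fun (z : Z → V) (z' : Fin m → V) =>
      f (zq (zx z) q fun k => z' k))]
  rw [← Equiv.sum_comp hinv.toPerm]
  refine Finset.sum_congr rfl fun x _ => ?_
  change f (zx (upd q x.1 x.2)) = _
  congr 1
  funext v
  unfold zx zq upd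
  beta_reduce
  by_cases hv : v ∈ Z
  · rw [dif_pos hv]
    by_cases h : ∃ k, q k = v
    · rw [dif_pos h, dif_pos h]
    · rw [dif_neg h, dif_neg h, dif_pos hv]
  · rw [dif_neg hv, dif_neg, dif_neg hv]
    rintro ⟨k, hk⟩
    exact hv (hk ▸ hZ k)

theorem pi_sub {R : Type} [AddCommMonoid R] [Fintype P] (V : Subgroup P) (f : (Fin m → P) → R) :
    ∑ z ∈ Fintype.piFinset (fun _ : Fin m => (Finset.univ.filter fun x : P => x ∈ V)), f z =
      ∑ z : Fin m → V, f fun k => z k := by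
  refine Finset.sum_bij' (fun z hz k => ⟨z k, (Finset.mem_filter.1
    (Fintype.mem_piFinset.1 hz k)).2⟩) (fun z _ k => (z k : P)) ?_ ?_ ?_ ?_ ?_
  · intro z _
    exact Finset.mem_univ _
  · intro z _
    rw [Fintype.mem_piFinset]
    intro k
    exact Finset.mem_filter.2 ⟨Finset.mem_univ _, (z k).2⟩
  · intro z _
    rfl
  · intro z _
    rfl
  · intro z _
    rfl

end av

section box

variable {K : Type} [Field K] [NumberField K] {Ω : Type} [Field Ω] [Algebra K Ω]
  {p : ℕ} [NeZero p] {ζ : K} {D : RD0 K p ζ} {P : Type} [Group P] [Fintype P] {Nc n : ℕ}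
  {Λ : Type} {N' : Subgroup P} [N'.Normal]

/-- the box of a configuration -/
def bx4 (S : LS Nc P Λ) (L : LDs D Ω) (A : GS D Ω) (N : Subgroup P) [N.Normal] (n : ℕ)
    (T : ℝ) (Zw E : Finset (Pl K)) (W V : Λ → P → ℝ) (b : ℝ) (lo hi : Fin (n + 1) → ℝ)
    (z : Pl K → P) (c : Pl K → Option (Le p Λ N n)) (e : E → P) (α : Fin A.g → P) :
    Bs A P N n where
  s := sp (Zg D Zw E) c ∪ E
  g := ge (gz (fun x => S.val x.1) T z c) e
  α := α
  φ := if h : Hs L A E N (sp (Zg D Zw E) c) (ev A (ge (gz (fun x => S.val x.1) T z c) e) α) then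
    h.choose else 1
  G := fun v y => if v ∈ E then 1 else (c v).elim 1 fun x => w4 N n T W V z v x y / b
  χ := fun v u => if v ∈ E then 0 else xc4 T c v u
  lo := lo
  hi := hi

/-- the functions of the variable primes -/
def gk4 (N : Subgroup P) [N.Normal] (W : Λ → P → ℝ) (b : ℝ) (l : Fin (n + 1) → Le p Λ N n)
    (k : Fin (n + 1)) (y : P) : ℂ :=
  if (l k).2.2 = 1 ∧ (y : P ⧸ N) = (l k).2.1 then (W (l k).1 y : ℂ) / b else 0

theorem bx4_set (S : LS Nc P Λ) (L : LDs D Ω) (A : GS D Ω) (N : Subgroup P) [N.Normal]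
    (T : ℝ) (Zw E : Finset (Pl K)) (W V : Λ → P → ℝ) (b : ℝ) (lo hi : Fin (n + 1) → ℝ)
    (hlo : ∀ k, T ≤ lo k) (z : Pl K → P) (c : Pl K → Option (Le p Λ N n)) (e : E → P)
    (α : Fin A.g → P) :
    (H35.CF.Fr (Zg D Zw E) (fun v => T < (nm v : ℝ)) c (n + 1)).filter
        (fun q => ∀ k, lo k < nm (q k) ∧ (nm (q k) : ℝ) ≤ hi k) =
      (bx4 S L A N n T Zw E W V b lo hi z c e α).bx Zw := by
  ext q
  unfold Bs.bx bx4
  dsimp only
  rw [Finset.mem_filter, mem_fr, Finset.mem_filter, Fintype.mem_piFinset]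
  constructor
  · rintro ⟨⟨h1, h2⟩, h3⟩
    refine ⟨fun k => ?_, h2⟩
    obtain ⟨h4, h5, h6⟩ := h1 k
    unfold Zg at h4
    rw [Finset.mem_filter, Finset.mem_sdiff] at h4
    rw [Finset.mem_filter]
    refine ⟨h4.1.1, h4.2, fun h7 => ?_, (h3 k).1, (h3 k).2⟩
    rw [Finset.mem_union, mem_sp] at h7
    rcases h7 with h7 | h7
    · exact h7.2 h6
    · exact h4.1.2 h7
  · rintro ⟨h1, h2⟩
    refine ⟨⟨fun k => ?_, h2⟩, fun k => ?_⟩
    · have h3 := h1 k
      rw [Finset.mem_filter] at h3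
      obtain ⟨h4, h5, h6, h7, h8⟩ := h3
      rw [Finset.mem_union, mem_sp] at h6
      push Not at h6
      have h9 : q k ∈ Zg D Zw E := by
        unfold Zg
        rw [Finset.mem_filter, Finset.mem_sdiff]
        exact ⟨⟨h4, h6.2⟩, h5⟩
      exact ⟨h9, (hlo k).trans_lt h7, h6.1 h9⟩
    · have h3 := h1 k
      rw [Finset.mem_filter] at h3
      exact h3.2.2.2

omit [NeZero p] in
theorem fr_nE {T : ℝ} {Zw E : Finset (Pl K)} {c : Pl K → Option Λ} {m : ℕ} {q : Fin m → Pl K}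
    (hq : q ∈ H35.CF.Fr (Zg D Zw E) (fun v => T < (nm v : ℝ)) c m) (k : Fin m) : q k ∉ E := by
  have h4 := ((mem_fr.1 hq).1 k).1
  unfold Zg at h4
  rw [Finset.mem_filter, Finset.mem_sdiff] at h4
  exact h4.1.2

theorem bx4_th (S : LS Nc P Λ) (L : LDs D Ω) (A : GS D Ω) (N : Subgroup P) [N.Normal]
    (T : ℝ) (Zw E : Finset (Pl K)) (W V : Λ → P → ℝ) (b : ℝ) (lo hi : Fin (n + 1) → ℝ)
    (z : Pl K → P) (c : Pl K → Option (Le p Λ N n)) (e : E → P)
    (α : Fin A.g → P) (l : Fin (n + 1) → Le p Λ N n) (q : Fin (n + 1) → Pl K)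
    (hq : q ∈ H35.CF.Fr (Zg D Zw E) (fun v => T < (nm v : ℝ)) c (n + 1))
    (z' : Fin (n + 1) → P) :
    (bx4 S L A N n T Zw E W V b lo hi z c e α).th
        (fun k => z' k * S.val (l k).1 * (z' k)⁻¹) q =
      ev A (ge (gz (fun x : Le p Λ N n => S.val x.1) T (zq z q z') (up c q l)) e) α := by
  unfold Bs.th bx4
  dsimp only
  congr 1
  funext v
  rw [ge_up e _ T z z' _ c q l hq (fr_nE hq)]

theorem bx4_sum (S : LS Nc P Λ) (L : LDs D Ω) (A : GS D Ω) (X : Pl K → FW A) (N : Subgroup P)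
    [N.Normal] (T : ℝ) (Zw E : Finset (Pl K)) (W V : Λ → P → ℝ) (b : ℝ) (hb : 0 < b)
    (l : Fin (n + 1) → Le p Λ N n) (lo hi : Fin (n + 1) → ℝ) (hlo : ∀ k, T ≤ lo k)
    (z : Pl K → P) (c : Pl K → Option (Le p Λ N n)) (e : E → P) (α : Fin A.g → P)
    (z' : Fin (n + 1) → P) (hz' : ∀ k, z' k ∈ N) :
    ∑ q ∈ (H35.CF.Fr (Zg D Zw E) (fun v => T < (nm v : ℝ)) c (n + 1)).filter
        (fun q => ∀ k, lo k < nm (q k) ∧ (nm (q k) : ℝ) ≤ hi k),
      om (Zg D Zw E) (fun v x => w4 N n T W V (zq z q z') v x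
        (ev A (ge (gz (fun x : Le p Λ N n => S.val x.1) T (zq z q z') (up c q l)) e) α (X v)))
        (up c q l) =
      (b : ℂ) ^ ((sp (Zg D Zw E) c).card + (n + 1)) *
        (bx4 S L A N n T Zw E W V b lo hi z c e α).sm X Zw
          (fun k => z' k * S.val (l k).1 * (z' k)⁻¹)
          fun k x => gk4 N W b l k ((z' k)⁻¹ * x * z' k) := by
  have hb' : (b : ℂ) ≠ 0 := by exact_mod_cast hb.ne'
  unfold Bs.sm
  rw [← bx4_set S L A N T Zw E W V b lo hi hlo z c e α, Finset.mul_sum]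
  refine Finset.sum_congr rfl fun q hq => ?_
  rw [Finset.mem_filter] at hq
  obtain ⟨hq1, hq2⟩ := hq
  rw [bx4_th S L A N T Zw E W V b lo hi z c e α l q hq1 z', om_up _ _ c q l hq1]
  obtain ⟨θ, hθ⟩ : ∃ θ, θ = ev A (ge (gz (fun x : Le p Λ N n => S.val x.1) T (zq z q z')
    (up c q l)) e) α := ⟨_, rfl⟩
  rw [← hθ]
  have hdis : Disjoint (sp (Zg D Zw E) c) E := by
    rw [Finset.disjoint_left]
    intro v h1 h2
    rw [mem_sp] at h1
    unfold Zg at h1
    rw [Finset.mem_filter, Finset.mem_sdiff] at h1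
    exact h1.1.1.2 h2
  have h1 : ∏ v ∈ (bx4 S L A N n T Zw E W V b lo hi z c e α).s,
      (bx4 S L A N n T Zw E W V b lo hi z c e α).G v (θ (X v)) =
      (∏ v ∈ sp (Zg D Zw E) c, (c v).elim 1 fun x => w4 N n T W V (zq z q z') v x
        (θ (X v))) / (b : ℂ) ^ (sp (Zg D Zw E) c).card := by
    unfold bx4
    dsimp only
    rw [Finset.prod_union hdis, ← Finset.prod_const, ← Finset.prod_div_distrib]
    have h2 : ∏ v ∈ E, (if v ∈ E then (1 : ℂ) else (c v).elim 1 fun x =>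
        w4 N n T W V z v x (θ (X v)) / b) = 1 := Finset.prod_eq_one fun v hv => if_pos hv
    rw [h2, mul_one]
    refine Finset.prod_congr rfl fun v hv => ?_
    have h3 : v ∉ E := fun h => Finset.disjoint_left.1 hdis hv h
    rw [if_neg h3]
    have h4 := (mem_sp.1 hv).2
    have h5 : zq z q z' v = z v := zq_ne z q z' v fun k hk => h4 (by
      rw [← hk]
      exact ((mem_fr.1 hq1).1 k).2.2)
    cases h6 : c v with
    | none => exact absurd h6 h4
    | some x =>
      simp only [Option.elim_some]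
      unfold w4
      rw [h5]
  have h2 : ∏ k, gk4 N W b l k ((z' k)⁻¹ * θ (X (q k)) * z' k) =
      (∏ k, w4 N n T W V (zq z q z') (q k) (l k) (θ (X (q k)))) / (b : ℂ) ^ (n + 1) := by
    rw [show (b : ℂ) ^ (n + 1) = ∏ _k : Fin (n + 1), (b : ℂ) by
      rw [Finset.prod_const, Finset.card_univ, Fintype.card_fin], ← Finset.prod_div_distrib]
    refine Finset.prod_congr rfl fun k _ => ?_
    have h3 : (((z' k)⁻¹ * θ (X (q k)) * z' k : P) : P ⧸ N) = (θ (X (q k)) : P ⧸ N) := by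
      rw [eq_comm]
      refine QuotientGroup.eq.2 ?_
      have e1 : (θ (X (q k)))⁻¹ * ((z' k)⁻¹ * θ (X (q k)) * z' k) =
          ((θ (X (q k)))⁻¹ * (z' k)⁻¹ * ((θ (X (q k)))⁻¹)⁻¹) * z' k := by group
      rw [e1]
      exact N.mul_mem ((inferInstance : N.Normal).conj_mem _ (N.inv_mem (hz' k)) _) (hz' k)
    unfold gk4 w4
    rw [h3, if_pos ((hlo k).trans_lt (hq2 k).1), zq_of z q z' (mem_fr.1 hq1).2 k]
    split_ifs
    · rfl
    · rw [zero_div]
  rw [h1, h2, pow_add]
  field_simp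

/-- the sum over the variable primes and the conjugations of their labels -/
theorem h4_up (hn : Nk N' (n + 1) = ⊥) (S : LS Nc P Λ) (L : LDs D Ω) (A : GS D Ω)
    (X : Pl K → FW A)
    (T : ℝ) (Zw E : Finset (Pl K)) (W V : Λ → P → ℝ) (b : ℝ) (hb : 0 < b)
    (l : Fin (n + 1) → Le p Λ N' n) (hl : ∀ k, S.val (l k).1 ∈ N')
    (lo hi : Fin (n + 1) → ℝ) (hlo : ∀ k, T ≤ lo k)
    (z : Pl K → P) (c : Pl K → Option (Le p Λ N' n)) :
    ∑ q ∈ (H35.CF.Fr (Zg D Zw E) (fun v => T < (nm v : ℝ)) c (n + 1)).filter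
        (fun q => ∀ k, lo k < nm (q k) ∧ (nm (q k) : ℝ) ≤ hi k),
      ∑ z' : Fin (n + 1) → Nk N' (n - 1),
        H4 S L A X N' n T Zw E W V (zq z q fun k => z' k) (up c q l) =
      (b : ℂ) ^ ((sp (Zg D Zw E) c).card + (n + 1)) * ∑ e : E → P, ∑ α : Fin A.g → P,
        if Adq A (Nk N' n) (sp (Zg D Zw E) c) X (xc4 T c)
          (gz (fun x : Le p Λ N' n => S.val x.1) T z c) e α ∧ Hs L A E N' (sp (Zg D Zw E) c)
          (ev A (ge (gz (fun x : Le p Λ N' n => S.val x.1) T z c) e) α) then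
        (bx4 S L A N' n T Zw E W V b lo hi z c e α).smz X Zw (fun k => S.val (l k).1)
          (gk4 N' W b l) else 0 := by
  have hzN : ∀ (z' : Fin (n + 1) → Nk N' (n - 1)) (k : Fin (n + 1)), (z' k : P) ∈ N' := fun z' k =>
    nk_anti N' (Nat.zero_le _) (z' k).2
  have hcj : ∀ (z' : Fin (n + 1) → Nk N' (n - 1)) (k : Fin (n + 1)),
      (z' k : P) * S.val (l k).1 * (z' k : P)⁻¹ ∈ N' := fun z' k =>
    (inferInstance : N'.Normal).conj_mem _ (hl k) _
  have h1 : ∀ q ∈ (H35.CF.Fr (Zg D Zw E) (fun v => T < (nm v : ℝ)) c (n + 1)).filter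
        (fun q => ∀ k, lo k < nm (q k) ∧ (nm (q k) : ℝ) ≤ hi k),
      ∀ z' : Fin (n + 1) → Nk N' (n - 1),
      H4 S L A X N' n T Zw E W V (zq z q fun k => z' k) (up c q l) =
        ∑ e : E → P, ∑ α : Fin A.g → P,
        if Adq A (Nk N' n) (sp (Zg D Zw E) c) X (xc4 T c)
          (gz (fun x : Le p Λ N' n => S.val x.1) T z c) e α ∧ Hs L A E N' (sp (Zg D Zw E) c)
          (ev A (ge (gz (fun x : Le p Λ N' n => S.val x.1) T z c) e) α) then
        om (Zg D Zw E) (fun v x => w4 N' n T W V (zq z q fun k => z' k) v x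
          (ev A (ge (gz (fun x : Le p Λ N' n => S.val x.1) T (zq z q fun k => z' k)
            (up c q l)) e) α (X v))) (up c q l) else 0 := by
    intro q hq z'
    rw [Finset.mem_filter] at hq
    unfold H4
    refine Finset.sum_congr rfl fun e _ => Finset.sum_congr rfl fun α _ => ?_
    have e1 := adq4_up hn A e (fun x : Le p Λ N' n => S.val x.1) X T z (fun k => (z' k : P)) _ c
      q l hq.1 (fr_nE hq.1) (hcj z') α
    have e2 := hs4_up L A e (fun x : Le p Λ N' n => S.val x.1) N' T z (fun k => (z' k : P)) _ c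
      q l hq.1 (fr_nE hq.1) (hcj z') α
    by_cases h : Adq A (Nk N' n) (sp (Zg D Zw E) c) X (xc4 T c)
          (gz (fun x : Le p Λ N' n => S.val x.1) T z c) e α ∧ Hs L A E N' (sp (Zg D Zw E) c)
          (ev A (ge (gz (fun x : Le p Λ N' n => S.val x.1) T z c) e) α)
    · rw [if_pos h, if_pos ⟨e1.2 h.1, e2.2 h.2⟩]
    · rw [if_neg h, if_neg fun h' => h ⟨e1.1 h'.1, e2.1 h'.2⟩]
  rw [Finset.sum_congr rfl fun q hq => Finset.sum_congr rfl fun z' _ => h1 q hq z']
  rw [Finset.sum_comm]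
  have h2 : ∀ z' : Fin (n + 1) → Nk N' (n - 1),
      ∑ q ∈ (H35.CF.Fr (Zg D Zw E) (fun v => T < (nm v : ℝ)) c (n + 1)).filter
        (fun q => ∀ k, lo k < nm (q k) ∧ (nm (q k) : ℝ) ≤ hi k),
        ∑ e : E → P, ∑ α : Fin A.g → P,
        (if Adq A (Nk N' n) (sp (Zg D Zw E) c) X (xc4 T c)
          (gz (fun x : Le p Λ N' n => S.val x.1) T z c) e α ∧ Hs L A E N' (sp (Zg D Zw E) c)
          (ev A (ge (gz (fun x : Le p Λ N' n => S.val x.1) T z c) e) α) then
        om (Zg D Zw E) (fun v x => w4 N' n T W V (zq z q fun k => z' k) v x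
          (ev A (ge (gz (fun x : Le p Λ N' n => S.val x.1) T (zq z q fun k => z' k)
            (up c q l)) e) α (X v))) (up c q l) else 0) =
      ∑ e : E → P, ∑ α : Fin A.g → P,
        if Adq A (Nk N' n) (sp (Zg D Zw E) c) X (xc4 T c)
          (gz (fun x : Le p Λ N' n => S.val x.1) T z c) e α ∧ Hs L A E N' (sp (Zg D Zw E) c)
          (ev A (ge (gz (fun x : Le p Λ N' n => S.val x.1) T z c) e) α) then
        (b : ℂ) ^ ((sp (Zg D Zw E) c).card + (n + 1)) *
          (bx4 S L A N' n T Zw E W V b lo hi z c e α).sm X Zw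
            (fun k => (z' k : P) * S.val (l k).1 * (z' k : P)⁻¹)
            (fun k x => gk4 N' W b l k ((z' k : P)⁻¹ * x * z' k)) else 0 := by
    intro z'
    rw [Finset.sum_comm]
    refine Finset.sum_congr rfl fun e _ => ?_
    rw [Finset.sum_comm]
    refine Finset.sum_congr rfl fun α _ => ?_
    split_ifs with h
    · exact bx4_sum S L A X N' T Zw E W V b hb l lo hi hlo z c e α (fun k => z' k) (hzN z')
    · exact Finset.sum_const_zero
  rw [Finset.sum_congr rfl fun z' _ => h2 z', Finset.sum_comm, Finset.mul_sum]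
  refine Finset.sum_congr rfl fun e _ => ?_
  rw [Finset.sum_comm, Finset.mul_sum]
  refine Finset.sum_congr rfl fun α _ => ?_
  split_ifs with h
  · unfold Bs.smz
    rw [pi_sub, Finset.mul_sum]
  · rw [Finset.sum_const_zero, mul_zero]

end box

end H70.UX
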