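import Pool.Agent.H70.UX.Lbl

/-!
# H70-UX-EXP: U4, the expansion (MP_b39724_nt, UBX)

* `exp4`: `∑_e SAx (W, V) = ∑_c [pattern] psi F4 c z` for every `z` with values in `Nk N (n-1)`.
* `exp4m`: the same for `(W, wav V)` and the configurations with trivial characters at the small primes.
-/

set_option autoImplicit false

open scoped NumberField
open IsDedekindDomain
open scoped Classical

noncomputable section

namespace H70.UX

open H38.ML H63.MA H38.BB H38.BG H57.PC H57.BRA H77.WD H77.WE H77.PC3 H35.CF H35.UB H35.UX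

variable {K : Type} [Field K] [NumberField K] {Ω : Type} [Field Ω] [Algebra K Ω]
  {p : ℕ} {ζ : K} {D : RD0 K p ζ} {P : Type} [Group P] {Nc n : ℕ} {Λ : Type}
  [NeZero p] [Fintype P] [Fintype Λ] {N : Subgroup P} [N.Normal]

/-- the general expansion -/
theorem exp_gen (S : LS Nc P Λ) (L : LDs D Ω) (A : GS D Ω) (X : Pl K → FW A) (M : ℕ) (T : ℝ)
    (Zw E : Finset (Pl K)) (z : Pl K → P) (w : Pl K → Le p Λ N n → P → ℂ)
    (r : Pl K → Λ → P → ℝ)
    (h : ∀ v x y, ∑ t ∈ Finset.univ.filter (fun t : Le p Λ N n => t.1 = x), w v t y = (r v x y : ℂ))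
    (Y : ℝ) :
    ((∑ f ∈ Cf (Zg D Zw E) Λ, ∑ e : E → P, ∑ α : Fin A.g → P,
      (if Pat S.cls Finset.univ (Zg D Zw E) T M f ∧
        Hs L A E N (sp (Zg D Zw E) f) (ev A (ge (gz S.val T z f) e) α) then
      psi (nc (Zg D Zw E) f / Y) * om (Zg D Zw E) (fun v x => r v x
        (ev A (ge (gz S.val T z f) e) α (X v))) f else 0) : ℝ) : ℂ) =
    ∑ c ∈ Cf (Zg D Zw E) (Le p Λ N n),
      (if PatN S Finset.univ M (ct (Zg D Zw E) (fun v => T < (nm v : ℝ)) c) then (1 : ℂ) else 0) *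
        ((psi (nr (sp (Zg D Zw E) c) / Y) : ℝ) : ℂ) *
        ∑ e : E → P, ∑ α : Fin A.g → P,
          if Hs L A E N (sp (Zg D Zw E) c)
            (ev A (ge (gz (fun x : Le p Λ N n => S.val x.1) T z c) e) α) then
            om (Zg D Zw E) (fun v x => w v x
              (ev A (ge (gz (fun x : Le p Λ N n => S.val x.1) T z c) e) α (X v))) c
          else 0 := by
  have hcomm : ∀ {R : Type} [AddCommMonoid R] (s : Finset (Pl K → Option Λ))
      (F : (Pl K → Option Λ) → (E → P) → (Fin A.g → P) → R),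
      ∑ f ∈ s, ∑ e, ∑ α, F f e α = ∑ e, ∑ α, ∑ f ∈ s, F f e α := by
    intro R _ s F
    rw [Finset.sum_comm]
    exact Finset.sum_congr rfl fun e _ => Finset.sum_comm
  have hcomm' : ∀ {R : Type} [AddCommMonoid R] (s : Finset (Pl K → Option (Le p Λ N n)))
      (F : (Pl K → Option (Le p Λ N n)) → (E → P) → (Fin A.g → P) → R),
      ∑ f ∈ s, ∑ e, ∑ α, F f e α = ∑ e, ∑ α, ∑ f ∈ s, F f e α := by
    intro R _ s F
    rw [Finset.sum_comm]
    exact Finset.sum_congr rfl fun e _ => Finset.sum_comm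
  rw [hcomm]
  simp only [Finset.mul_sum]
  rw [hcomm', Complex.ofReal_sum]
  refine Finset.sum_congr rfl fun e _ => ?_
  rw [Complex.ofReal_sum]
  refine Finset.sum_congr rfl fun α _ => ?_
  rw [Complex.ofReal_sum]
  have h1 := cf_fib (Zg D Zw E) (Prod.fst : Le p Λ N n → Λ)
    (fun c => if Pat S.cls Finset.univ (Zg D Zw E) T M c ∧
        Hs L A E N (sp (Zg D Zw E) c) (ev A (ge (gz S.val T z c) e) α) then
        (psi (nc (Zg D Zw E) c / Y) : ℂ) else 0)
    (fun c v x => w v x (ev A (ge (gz S.val T z c) e) α (X v)))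
  have h2 : ∀ c ∈ Cf (Zg D Zw E) Λ, ((if Pat S.cls Finset.univ (Zg D Zw E) T M c ∧
        Hs L A E N (sp (Zg D Zw E) c) (ev A (ge (gz S.val T z c) e) α) then
      psi (nc (Zg D Zw E) c / Y) * om (Zg D Zw E) (fun v x => r v x
        (ev A (ge (gz S.val T z c) e) α (X v))) c
    else 0 : ℝ) : ℂ) = (if Pat S.cls Finset.univ (Zg D Zw E) T M c ∧
        Hs L A E N (sp (Zg D Zw E) c) (ev A (ge (gz S.val T z c) e) α) then
        (psi (nc (Zg D Zw E) c / Y) : ℂ) else 0) *
      om (Zg D Zw E) (fun v y => ∑ x ∈ Finset.univ.filter (fun x : Le p Λ N n => x.1 = y),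
        w v x (ev A (ge (gz S.val T z c) e) α (X v))) c := by
    intro c _
    simp only [h]
    rw [← om_cast]
    split_ifs with h
    · rw [Complex.ofReal_mul]
    · rw [Complex.ofReal_zero, zero_mul]
  rw [Finset.sum_congr rfl h2]
  refine Eq.trans h1.symm (Finset.sum_congr rfl fun f _ => ?_)
  have hg : gz S.val T z (mp Prod.fst f) = gz (fun x : Le p Λ N n => S.val x.1) T z f := by
    funext v
    unfold gz mp
    cases f v <;> rfl
  rw [hg, sp_mp]
  beta_reduce
  have h3 : PatN S Finset.univ M (ct (Zg D Zw E) (fun v => T < (nm v : ℝ)) f) ↔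
      Pat S.cls Finset.univ (Zg D Zw E) T M (mp Prod.fst f) := by
    unfold PatN Pat
    simp only [cn_ct]
  have h4 : nc (Zg D Zw E) (mp Prod.fst f) = nr (sp (Zg D Zw E) f) := by
    unfold nc
    rw [sp_mp]
  rw [h4]
  by_cases hH : Hs L A E N (sp (Zg D Zw E) f)
      (ev A (ge (gz (fun x : Le p Λ N n => S.val x.1) T z f) e) α)
  · rw [if_pos hH]
    by_cases hP : Pat S.cls Finset.univ (Zg D Zw E) T M (mp Prod.fst f)
    · rw [if_pos ⟨hP, hH⟩, if_pos (h3.2 hP), one_mul]
    · rw [if_neg fun h => hP h.1, if_neg fun h => hP (h3.1 h), zero_mul, zero_mul, zero_mul]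
  · rw [if_neg hH, if_neg fun h => hH h.2, zero_mul, mul_zero]

/-- relabelling of the sums -/
theorem sax_rel (S : LS Nc P Λ) (L : LDs D Ω) (A : GS D Ω) (X : Pl K → FW A) (M : ℕ) (T : ℝ)
    (Zw E : Finset (Pl K)) (W V V' : Λ → P → ℝ) (za : P → Equiv.Perm Λ) (b : ℝ)
    (hW : W4 p S N n W V za b) (z : Pl K → P) (hz : ∀ v, z v ∈ Nk N (n - 1)) (Y : ℝ) :
    ∑ e : E → P, SAx S L A X N Finset.univ M T Zw E (ex e) W V' Y =
      ∑ f ∈ Cf (Zg D Zw E) Λ, ∑ e : E → P, ∑ α : Fin A.g → P,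
      (if Pat S.cls Finset.univ (Zg D Zw E) T M f ∧
        Hs L A E N (sp (Zg D Zw E) f) (ev A (ge (gz S.val T z f) e) α) then
      psi (nc (Zg D Zw E) f / Y) * om (Zg D Zw E) (fun v x => if T < (nm v : ℝ) then
        W x ((z v)⁻¹ * ev A (ge (gz S.val T z f) e) α (X v) * z v) else
        V' x (ev A (ge (gz S.val T z f) e) α (X v))) f else 0) := by
  unfold SAx
  rw [Finset.sum_comm]
  rw [cf_za (Zg D Zw E) fun v => if T < (nm v : ℝ) then za (z v) else Equiv.refl Λ]
  refine Finset.sum_congr rfl fun f _ => Finset.sum_congr rfl fun e _ =>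
    Finset.sum_congr rfl fun α _ => ?_
  obtain ⟨f', hf'⟩ : ∃ f' : Pl K → Option Λ, f' = fun v => (f v).map
    ((if T < (nm v : ℝ) then za (z v) else Equiv.refl Λ : Equiv.Perm Λ)) := ⟨_, rfl⟩
  have e1 : lab E (ex e) S.val f' = ge (gz S.val T z f) e := by
    rw [lab_ge]
    congr 1
    funext v
    rw [hf']
    unfold gz
    beta_reduce
    cases f v with
    | none => rfl
    | some x =>
      change S.val _ = if _ then _ else _
      by_cases h : T < (nm v : ℝ)
      · rw [if_pos h, if_pos h]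
        exact (hW.wz _ (hz v) x).1
      · rw [if_neg h, if_neg h]
        rfl
  have e2 : sp (Zg D Zw E) f' = sp (Zg D Zw E) f := by
    ext v
    rw [mem_sp, mem_sp, hf']
    beta_reduce
    rw [Ne, Ne, Option.map_eq_none_iff]
  have e3 : ∀ i, cn S.cls (Zg D Zw E) T f' i = cn S.cls (Zg D Zw E) T f i := by
    intro i
    unfold cn
    congr 1
    refine Finset.filter_congr fun v _ => ?_
    have : (f' v).map S.cls = (f v).map S.cls := by
      rw [hf']
      beta_reduce
      cases f v with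
      | none => rfl
      | some x =>
        change some (S.cls _) = some (S.cls x)
        by_cases h : T < (nm v : ℝ)
        · rw [if_pos h]
          exact congrArg some (hW.wz _ (hz v) x).2.1
        · rw [if_neg h]
          rfl
    rw [this]
  have e4 : Pat S.cls Finset.univ (Zg D Zw E) T M f' ↔
      Pat S.cls Finset.univ (Zg D Zw E) T M f := by
    unfold Pat
    simp only [e3]
  have e5 : ∀ y : Pl K → P, om (Zg D Zw E) (fun v x => if RL S.cls Finset.univ T v x then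
      W x (y v) else V' x (y v)) f' = om (Zg D Zw E) (fun v x => if T < (nm v : ℝ) then
        W x ((z v)⁻¹ * y v * z v) else V' x (y v)) f := by
    intro y
    unfold om
    refine Finset.prod_congr rfl fun v _ => ?_
    rw [hf']
    beta_reduce
    cases f v with
    | none => rfl
    | some x =>
      change (if RL S.cls Finset.univ T v _ then W _ (y v) else V' _ (y v)) = if _ then _ else _
      unfold RL
      by_cases h : T < (nm v : ℝ)
      · rw [if_pos ⟨Finset.mem_univ _, h⟩, if_pos h, if_pos h]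
        exact (hW.wz _ (hz v) x).2.2 _
      · rw [if_neg (fun h' => h h'.2), if_neg h, if_neg h]
        rfl
  have e6 : nc (Zg D Zw E) f' = nc (Zg D Zw E) f := by
    unfold nc
    rw [e2]
  rw [← hf', e1, e2, e6]
  rw [e5 fun v => ev A (ge (gz S.val T z f) e) α (X v)]
  by_cases h : Pat S.cls Finset.univ (Zg D Zw E) T M f ∧
      Hs L A E N (sp (Zg D Zw E) f) (ev A (ge (gz S.val T z f) e) α)
  · rw [if_pos h, if_pos ⟨e4.2 h.1, h.2⟩]
  · rw [if_neg h, if_neg fun h' => h ⟨e4.1 h'.1, h'.2⟩]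

theorem exp4 (hp : p.Prime) (hn : Nk N (n + 1) = ⊥) (hV : ∀ u ∈ Nk N n, u ^ p = 1)
    (S : LS Nc P Λ) (L : LDs D Ω) (A : GS D Ω) (X : Pl K → FW A) (M : ℕ) (T : ℝ)
    (Zw E : Finset (Pl K)) (W V : Λ → P → ℝ) (za : P → Equiv.Perm Λ) (b : ℝ)
    (hW : W4 p S N n W V za b) (z : Pl K → P) (hz : ∀ v, z v ∈ Nk N (n - 1)) (Y : ℝ) :
    ((∑ e : E → P, SAx S L A X N Finset.univ M T Zw E (ex e) W V Y : ℝ) : ℂ) =
      ∑ c ∈ Cf (Zg D Zw E) (Le p Λ N n),
      (if PatN S Finset.univ M (ct (Zg D Zw E) (fun v => T < (nm v : ℝ)) c) then (1 : ℂ) else 0) *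
        ((psi (nr (sp (Zg D Zw E) c) / Y) : ℝ) : ℂ) * F4 S L A X N n T Zw E W V z c := by
  rw [sax_rel S L A X M T Zw E W V V za b hW z hz Y]
  exact exp_gen S L A X M T Zw E z (w4 N n T W V z) _
    (fun v x y => w4_sum hp hn hV T W V z v x y) Y

theorem om_tr (Z : Finset (Pl K)) (T : ℝ) (w : Pl K → Le p Λ N n → ℂ)
    (c : Pl K → Option (Le p Λ N n)) :
    om Z (fun v t => if ¬ T < (nm v : ℝ) ∧ t.2.2 ≠ 1 then 0 else w v t) c =
      if Tr Z T c then om Z w c else 0 := by
  by_cases h : Tr Z T c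
  · rw [if_pos h]
    unfold om
    refine Finset.prod_congr rfl fun v hv => ?_
    cases hc : c v with
    | none => rfl
    | some x =>
      change (if _ then (0 : ℂ) else _) = _
      rw [if_neg fun h' => h'.2 (h v hv x hc h'.1)]
      rfl
  · rw [if_neg h]
    unfold Tr at h
    push Not at h
    obtain ⟨v, hv, x, hx, h1, h2⟩ := h
    unfold om
    refine Finset.prod_eq_zero hv ?_
    rw [hx]
    change (if _ then (0 : ℂ) else _) = 0
    exact if_pos ⟨not_lt.2 h1, h2⟩

theorem exp4m (S : LS Nc P Λ) (L : LDs D Ω) (A : GS D Ω) (X : Pl K → FW A) (M : ℕ) (T : ℝ)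
    (Zw E : Finset (Pl K)) (W V : Λ → P → ℝ) (za : P → Equiv.Perm Λ) (b : ℝ)
    (hW : W4 p S N n W V za b) (z : Pl K → P) (hz : ∀ v, z v ∈ Nk N (n - 1)) (Y : ℝ) :
    ((∑ e : E → P, SAx S L A X N Finset.univ M T Zw E (ex e) W (fun x => wav N n (V x)) Y : ℝ) :
      ℂ) = ∑ c ∈ Cf (Zg D Zw E) (Le p Λ N n),
      (if PatN S Finset.univ M (ct (Zg D Zw E) (fun v => T < (nm v : ℝ)) c) then (1 : ℂ) else 0) *
        ((psi (nr (sp (Zg D Zw E) c) / Y) : ℝ) : ℂ) *
        (if Tr (Zg D Zw E) T c then F4 S L A X N n T Zw E W V z c else 0) := by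
  rw [sax_rel S L A X M T Zw E W V (fun x => wav N n (V x)) za b hW z hz Y]
  rw [exp_gen S L A X M T Zw E z
    (fun v t y => if ¬ T < (nm v : ℝ) ∧ t.2.2 ≠ 1 then 0 else w4 N n T W V z v t y) _
    (fun v x y => w4_sum1 T W V z v x y) Y]
  refine Finset.sum_congr rfl fun c _ => ?_
  congr 1
  unfold F4
  by_cases h : Tr (Zg D Zw E) T c
  · rw [if_pos h]
    refine Finset.sum_congr rfl fun e _ => Finset.sum_congr rfl fun α _ => ?_
    rw [om_tr (Zg D Zw E) T (fun v t => w4 N n T W V z v t _) c, if_pos h]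
  · rw [if_neg h]
    refine Finset.sum_eq_zero fun e _ => Finset.sum_eq_zero fun α _ => ?_
    rw [om_tr (Zg D Zw E) T (fun v t => w4 N n T W V z v t _) c, if_neg h, ite_self]

end H70.UX
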