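import Pool.Agent.H70.UX.Bx4

/-!
# H70-UX-FAM4: the box inequality BG for the family of all configurations in U4 (MP_b39724_nt, UBX)

* `smz_ne`: if the sum over the box of a configuration does not vanish, then all its labels are in `N` and the characters are invariant under the Frobenius elements.
* `bx4_fam`: the box inequality for all configurations, for fixed conjugations `z`.
-/

set_option autoImplicit false

open scoped NumberField
open IsDedekindDomain
open scoped Classical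

noncomputable section

namespace H70.UX

open H38.ML H63.MA H38.BB H38.BG H57.PC H57.BRA H77.WD H77.WE H77.PC3 H35.CF H35.UB H35.UX H1.BD

section loc

variable {K : Type} [Field K] [NumberField K] {Ω : Type} [Field Ω] [Algebra K Ω]
  {p : ℕ} [NeZero p] {ζ : K} {D : RD0 K p ζ} {P : Type} [Group P] [Fintype P] {Nc n : ℕ}
  {Λ : Type} {N : Subgroup P} [N.Normal]

omit [N.Normal] in
theorem wav_b (V : P → ℝ) (b : ℝ) (hV : ∀ y, V y ≤ b) (y : P) : wav N n V y ≤ b := by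
  unfold wav
  have hc : (0 : ℝ) < Nat.card (Nk N n) := by exact_mod_cast Nat.card_pos
  rw [div_le_iff₀ hc]
  refine (Finset.sum_le_sum fun u _ => hV _).trans (le_of_eq ?_)
  rw [Finset.sum_const, Finset.card_univ, nsmul_eq_mul, Nat.card_eq_fintype_card, mul_comm]

theorem w4_b {S : LS Nc P Λ} {W V : Λ → P → ℝ} {za : P → Equiv.Perm Λ} {b : ℝ}
    (hW : W4 p S N n W V za b) (T : ℝ) (z : Pl K → P) (v : Pl K) (x : Le p Λ N n) (y : P) :
    ‖w4 N n T W V z v x y‖ ≤ b := by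
  have hb : 0 ≤ b := zero_le_one.trans hW.b1
  unfold w4
  split_ifs
  · rw [Complex.norm_real, Real.norm_of_nonneg (hW.w0 _ _).1]
    exact (hW.w0 _ _).2
  · rw [norm_zero]
    exact hb
  · exact (wh_le N n _ (fun y => (hW.v0 _ _).1) _ _).trans (wav_b _ b (fun y => (hW.v0 _ _).2) y)
  · rw [norm_zero]
    exact hb

omit [NeZero p] [Fintype P] in
/-- the values of the words at the box are those of the honest homomorphism modulo `N` -/
theorem th_mk {A' : GS D Ω} (X : Bs A' P N n) (g : Fin (n + 1) → P) (hg : ∀ k, g k ∈ N)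
    (q : Fin (n + 1) → Pl K) (hq : ∀ k, X.g (q k) ∈ N) (x : FW A') :
    ((X.th g q x : P) : P ⧸ N) = (ev A' X.g X.α x : P ⧸ N) := by
  have h := ev_quo A' N (fun v => if h : ∃ k, q k = v then g h.choose else X.g v) X.g X.α
    fun v => ?_
  · exact DFunLike.congr_fun h x
  · split_ifs with h
    · rw [(QuotientGroup.eq_one_iff _).2 (hg _), eq_comm, QuotientGroup.eq_one_iff,
        ← h.choose_spec]
      exact hq _
    · rfl

/-- a box whose sum does not vanish -/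
theorem smz_ne (hp : p.Prime) (hn : Nk N (n + 1) = ⊥) {S : LS Nc P Λ} {W V : Λ → P → ℝ}
    {za : P → Equiv.Perm Λ} {b : ℝ} (hW : W4 p S N n W V za b) (L : LDs D Ω) (A : GS D Ω)
    (X : Pl K → FW A) (T : ℝ) (Zw E : Finset (Pl K)) [Fintype Λ]
    (l : Fin (n + 1) → Le p Λ N n) (hl : ∀ k, S.val (l k).1 ∈ N) (lo hi : Fin (n + 1) → ℝ)
    (z : Pl K → P) (c : Pl K → Option (Le p Λ N n))
    (hc : c ∈ Cf (Zg D Zw E) (Le p Λ N n)) (e : E → P) (α : Fin A.g → P)
    (Gk : Fin (n + 1) → P → ℂ)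
    (h : (bx4 S L A N n T Zw E W V b lo hi z c e α).smz X Zw (fun k => S.val (l k).1) Gk ≠ 0)
    (v : Pl K) (x : Le p Λ N n) (hv : v ∈ sp (Zg D Zw E) c) (hx : c v = some x) :
    S.val x.1 ∈ N ∧ (¬ T < (nm v : ℝ) → ∀ y : P, (y : P ⧸ N) =
      (ev A (ge (gz (fun x : Le p Λ N n => S.val x.1) T z c) e) α (X v) : P ⧸ N) →
        ∀ u ∈ Nk N n, xt x.2.2 (y * u * y⁻¹) = xt x.2.2 u) := by
  unfold Bs.smz at h
  obtain ⟨z', hz', h1⟩ := Finset.exists_ne_zero_of_sum_ne_zero h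
  unfold Bs.sm at h1
  obtain ⟨q, hq, h2⟩ := Finset.exists_ne_zero_of_sum_ne_zero h1
  have h3 := Finset.prod_ne_zero_iff.1 (left_ne_zero_of_mul h2) v (Finset.mem_union_left _ hv)
  have hvZ := (mem_sp.1 hv).1
  have hvE : v ∉ E := by
    unfold Zg at hvZ
    rw [Finset.mem_filter, Finset.mem_sdiff] at hvZ
    exact hvZ.1.2
  obtain ⟨θ, hθ⟩ : ∃ θ, θ = (bx4 S L A N n T Zw E W V b lo hi z c e α).th
    (fun k => z' k * S.val (l k).1 * (z' k)⁻¹) q := ⟨_, rfl⟩
  rw [← hθ] at h3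
  have h4 : w4 N n T W V z v x (θ (X v)) ≠ 0 := by
    intro h4
    apply h3
    change (if v ∈ E then (1 : ℂ) else (c v).elim 1 fun x =>
      w4 N n T W V z v x (θ (X v)) / b) = 0
    rw [if_neg hvE, hx]
    change w4 N n T W V z v x (θ (X v)) / b = 0
    rw [h4, zero_div]
  have h5 : ((θ (X v) : P) : P ⧸ N) =
      (ev A (ge (gz (fun x : Le p Λ N n => S.val x.1) T z c) e) α (X v) : P ⧸ N) := by
    rw [hθ]
    refine th_mk _ _ (fun k => (inferInstance : N.Normal).conj_mem _ (hl k) _) q (fun k => ?_) _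
    change ge (gz (fun x : Le p Λ N n => S.val x.1) T z c) e (q k) ∈ N
    unfold Bs.bx at hq
    rw [Finset.mem_filter, Fintype.mem_piFinset] at hq
    have h6 := (Finset.mem_filter.1 (hq.1 k)).2.2.1
    change q k ∉ sp (Zg D Zw E) c ∪ E at h6
    rw [Finset.mem_union] at h6
    push Not at h6
    have h7 : c (q k) = none := by
      by_contra h8
      by_cases h9 : q k ∈ Zg D Zw E
      · exact h6.1 (mem_sp.2 ⟨h9, h8⟩)
      · exact h8 (mem_cf.1 hc _ h9)
    unfold ge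
    rw [dif_neg h6.2]
    unfold gz
    rw [h7]
    exact N.one_mem
  unfold w4 at h4
  by_cases hT : T < (nm v : ℝ)
  · rw [if_pos hT] at h4
    refine ⟨(hW.wN x.1 ⟨(z v)⁻¹ * θ (X v) * z v, fun h6 => h4 ?_⟩).1, fun h6 => absurd hT h6⟩
    rw [h6, Complex.ofReal_zero, ite_self]
  · rw [if_neg hT] at h4
    have h6 : Wh N n (V x.1) x.2.2 (θ (X v)) ≠ 0 := fun h7 => h4 (by rw [h7, ite_self])
    refine ⟨?_, fun _ y hy => ?_⟩
    · refine hW.vN x.1 ?_
      by_contra h7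
      push Not at h7
      apply h6
      unfold Wh
      rw [Finset.sum_eq_zero, zero_div]
      intro u _
      rw [h7, Complex.ofReal_zero, mul_zero]
    · refine wh_fix hp N n hn (V x.1) (fun z hz y => hW.vinv x.1 z hz y) x.2.2 (θ (X v)) h6 y ?_
      rw [h5]
      exact hy

omit [NeZero p] in
theorem zg_E {Zw E : Finset (Pl K)} {v : Pl K} (hv : v ∈ Zg D Zw E) : v ∈ Zw ∧ v ∉ E := by
  unfold Zg at hv
  rw [Finset.mem_filter, Finset.mem_sdiff] at hv
  exact hv.1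

/-- the conditions on the characters of a box whose sum does not vanish -/
theorem bx4_ch (hp : p.Prime) (hn : Nk N (n + 1) = ⊥) {S : LS Nc P Λ} {W V : Λ → P → ℝ}
    {za : P → Equiv.Perm Λ} {b : ℝ} (hW : W4 p S N n W V za b) (L : LDs D Ω) (Fr : FR L)
    (A : GS D Ω) (X : Pl K → FW A) (T : ℝ) (Zw E : Finset (Pl K)) (hE : E ⊆ Zw)
    (hX : ∀ φ : Gal(Ω/K) →* P ⧸ N, Unz L Zw φ → ∀ v ∈ Zw, hat L A φ (X v) = φ (Fr.F v))
    [Fintype Λ] (l : Fin (n + 1) → Le p Λ N n) (hl : ∀ k, S.val (l k).1 ∈ N)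
    (lo hi : Fin (n + 1) → ℝ) (z : Pl K → P) (c : Pl K → Option (Le p Λ N n))
    (hc : c ∈ Cf (Zg D Zw E) (Le p Λ N n)) (e : E → P) (α : Fin A.g → P)
    (Gk : Fin (n + 1) → P → ℂ)
    (hHs : Hs L A E N (sp (Zg D Zw E) c)
      (ev A (ge (gz (fun x : Le p Λ N n => S.val x.1) T z c) e) α))
    (h : (bx4 S L A N n T Zw E W V b lo hi z c e α).smz X Zw (fun k => S.val (l k).1) Gk ≠ 0) :
    (bx4 S L A N n T Zw E W V b lo hi z c e α).ch Fr E := by
  have hφ : (bx4 S L A N n T Zw E W V b lo hi z c e α).φ = hHs.choose := dif_pos hHs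
  have hkey := smz_ne hp hn hW L A X T Zw E l hl lo hi z c hc e α Gk h
  have hmem : ∀ v ∈ (bx4 S L A N n T Zw E W V b lo hi z c e α).s, v ∉ E →
      v ∈ sp (Zg D Zw E) c ∧ ∃ x, c v = some x := by
    intro v hv hvE
    have h1 : v ∈ sp (Zg D Zw E) c := (Finset.mem_union.1 hv).resolve_right hvE
    refine ⟨h1, ?_⟩
    exact Option.ne_none_iff_exists'.1 (mem_sp.1 h1).2
  refine ⟨?_, ?_, ?_, ?_, ?_⟩
  · intro v hv hvE
    obtain ⟨h1, x, hx⟩ := hmem v hv hvE
    have h2 := (hkey v x h1 hx).1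
    change ge (gz (fun x : Le p Λ N n => S.val x.1) T z c) e v ∈ N
    unfold ge
    rw [dif_neg hvE]
    unfold gz
    rw [hx]
    change (if _ then _ else _) ∈ N
    split_ifs
    · exact (inferInstance : N.Normal).conj_mem _ h2 _
    · exact h2
  · intro v _ u hu u' hu'
    change (if v ∈ E then (0 : ZMod p) else xc4 T c v (u * u')) =
      (if v ∈ E then 0 else xc4 T c v u) + if v ∈ E then 0 else xc4 T c v u'
    split_ifs
    · rw [add_zero]
    · exact xc4_add T c v u u' hu hu'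
  · intro v hv x hx u hu
    change (if v ∈ E then (0 : ZMod p) else xc4 T c v (x * u * x⁻¹)) =
      if v ∈ E then 0 else xc4 T c v u
    by_cases hvE : v ∈ E
    · rw [if_pos hvE, if_pos hvE]
    · rw [if_neg hvE, if_neg hvE]
      obtain ⟨h1, t, ht⟩ := hmem v hv hvE
      have h2 := (hkey v t h1 ht).2
      have h3 : ∀ w, xc4 T c v w = if T < (nm v : ℝ) then 0 else xt t.2.2 w := by
        intro w
        unfold xc4
        rw [ht]
        rfl
      rw [h3, h3]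
      by_cases hT : T < (nm v : ℝ)
      · rw [if_pos hT, if_pos hT]
      · rw [if_neg hT, if_neg hT]
        refine h2 hT x ?_ u hu
        rw [hx, hφ]
        have h4 := hHs.choose_spec
        have h5 : Unz L Zw hHs.choose := by
          have h6 := (h4.1.mono (Finset.Subset.refl E) (Finset.Subset.refl _)).unz
          refine ⟨h6.1, fun w hw hw' => h6.2 w hw fun h7 => hw' ?_⟩
          rcases Finset.mem_union.1 h7 with h8 | h8
          · exact hE h8
          · exact (zg_E (mem_sp.1 h8).1).1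
        rw [← hX _ h5 v (zg_E (mem_sp.1 h1).1).1, h4.2.2]
        rfl
  · intro v hvE u _
    exact if_pos hvE
  · intro v hv x u hu
    change (if v ∈ E then (1 : ℂ) else (c v).elim 1 fun t => w4 N n T W V z v t (x * u) / b) =
      ep p (if v ∈ E then 0 else xc4 T c v u) *
        if v ∈ E then (1 : ℂ) else (c v).elim 1 fun t => w4 N n T W V z v t x / b
    by_cases hvE : v ∈ E
    · rw [if_pos hvE, if_pos hvE, if_pos hvE, ep_zero, one_mul]
    · rw [if_neg hvE, if_neg hvE, if_neg hvE]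
      obtain ⟨h1, t, ht⟩ := hmem v hv hvE
      have h2 := w4_eq hn T W V hW.winv z c v t ht x u hu
      rw [ht]
      simp only [Option.elim_some]
      rw [h2, mul_div_assoc]

/-- the box inequality for the family of all configurations -/
theorem bx4_fam (hp : p.Prime) (hn : Nk N (n + 1) = ⊥) {S : LS Nc P Λ} {W V : Λ → P → ℝ}
    {za : P → Equiv.Perm Λ} {b : ℝ} (hW : W4 p S N n W V za b) (L : LDs D Ω) (Fr : FR L)
    (A : GS D Ω) (X : Pl K → FW A) (ε Y C C₁ A₀ : ℝ) (Zw E : Finset (Pl K)) (hE : E ⊆ Zw)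
    (hX : ∀ φ : Gal(Ω/K) →* P ⧸ N, Unz L Zw φ → ∀ v ∈ Zw, hat L A φ (X v) = φ (Fr.F v))
    (hB : BGb Fr A X Zw E N n C₁ A₀ ε Y)
    [Fintype Λ] (l : Fin (n + 1) → Le p Λ N n)
    (hl : ∀ k, ∃ y : P, (y : P ⧸ N) = (l k).2.1 ∧ W (l k).1 y ≠ 0) (χs : Xc p N n)
    (hlk : ∃ u : Fin (n + 1) → P,
      xt χs (brk (List.ofFn fun j => u j * S.val (l j).1 * (u j)⁻¹)) ≠ 0)
    (sel : (Pl K → Option (Le p Λ N n)) → Prop)
    (hsel : ∀ c, sel c → ∃ v ∈ Zg D Zw E, ∃ x, c v = some x ∧ ¬ T0 ε Y < (nm v : ℝ) ∧ x.2.2 = χs)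
    (z : Pl K → P) (B : ℝ)
    (hnr : ∀ t : Finset (Pl K), nr t ≤ Y ^ C → nr (t ∪ E) ≤ Y ^ C₁)
    (hcd : ∀ t : Finset (Pl K), (t.card : ℝ) ≤ B →
      ((t ∪ E).card : ℝ) ≤ C₁ * Real.log (Real.log Y))
    (hct : ∀ k : ℕ, (k : ℝ) ≤ B →
      (Fintype.card ((E → P) × (Fin A.g → P)) : ℝ) *
        (Fintype.card (Le p Λ N n) : ℝ) ^ k ≤ Real.log Y ^ C₁)
    (lo hi : Fin (n + 1) → ℝ)
    (hlh : ∀ k, T0 ε Y ≤ lo k ∧ lo k ≤ hi k ∧ hi k ≤ 2 * lo k ∧ hi k ≤ Y ^ C₁)
    (hlY : 0 ≤ Real.log Y) :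
    ∑ c ∈ (Cf (Zg D Zw E) (Le p Λ N n)).filter (fun c => nr (sp (Zg D Zw E) c) ≤ Y ^ C ∧
        ((sp (Zg D Zw E) c).card : ℝ) ≤ B), (if sel c then
      ∑ e : E → P, ∑ α : Fin A.g → P, (if Adq A (Nk N n) (sp (Zg D Zw E) c) X (xc4 (T0 ε Y) c)
          (gz (fun x : Le p Λ N n => S.val x.1) (T0 ε Y) z c) e α ∧
          Hs L A E N (sp (Zg D Zw E) c)
          (ev A (ge (gz (fun x : Le p Λ N n => S.val x.1) (T0 ε Y) z c) e) α) then
        (nr (sp (Zg D Zw E) c ∪ E))⁻¹ * (∏ k, lo k)⁻¹ *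
        ‖(bx4 S L A N n (T0 ε Y) Zw E W V b lo hi z c e α).smz X Zw (fun k => S.val (l k).1)
          (gk4 N W b l)‖ else 0) else 0) ≤ Real.log Y ^ (-A₀) := by
  have hb0 : 0 < b := lt_of_lt_of_le one_pos hW.b1
  have hlN : ∀ k, S.val (l k).1 ∈ N := fun k => by
    obtain ⟨y, -, hy⟩ := hl k
    exact (hW.wN _ ⟨y, hy⟩).1
  have hdis : ∀ c : Pl K → Option (Le p Λ N n), Disjoint (sp (Zg D Zw E) c) E := by
    intro c
    rw [Finset.disjoint_left]
    intro v h1 h2
    exact (zg_E (mem_sp.1 h1).1).2 h2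
  obtain ⟨I, hI⟩ : ∃ I, I = (((Cf (Zg D Zw E) (Le p Λ N n)).filter
      (fun c => nr (sp (Zg D Zw E) c) ≤ Y ^ C ∧ ((sp (Zg D Zw E) c).card : ℝ) ≤ B)) ×ˢ
      (Finset.univ : Finset ((E → P) × (Fin A.g → P)))).filter (fun i => (sel i.1 ∧
        (Adq A (Nk N n) (sp (Zg D Zw E) i.1) X (xc4 (T0 ε Y) i.1)
          (gz (fun x : Le p Λ N n => S.val x.1) (T0 ε Y) z i.1) i.2.1 i.2.2 ∧
          Hs L A E N (sp (Zg D Zw E) i.1)
          (ev A (ge (gz (fun x : Le p Λ N n => S.val x.1) (T0 ε Y) z i.1) i.2.1) i.2.2))) ∧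
        (bx4 S L A N n (T0 ε Y) Zw E W V b lo hi z i.1 i.2.1 i.2.2).smz X Zw
          (fun k => S.val (l k).1) (gk4 N W b l) ≠ 0) := ⟨_, rfl⟩
  have hmI : ∀ i ∈ I, (i.1 ∈ Cf (Zg D Zw E) (Le p Λ N n) ∧ nr (sp (Zg D Zw E) i.1) ≤ Y ^ C ∧
      ((sp (Zg D Zw E) i.1).card : ℝ) ≤ B) ∧ (sel i.1 ∧
        (Adq A (Nk N n) (sp (Zg D Zw E) i.1) X (xc4 (T0 ε Y) i.1)
          (gz (fun x : Le p Λ N n => S.val x.1) (T0 ε Y) z i.1) i.2.1 i.2.2 ∧
          Hs L A E N (sp (Zg D Zw E) i.1)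
          (ev A (ge (gz (fun x : Le p Λ N n => S.val x.1) (T0 ε Y) z i.1) i.2.1) i.2.2))) ∧
        (bx4 S L A N n (T0 ε Y) Zw E W V b lo hi z i.1 i.2.1 i.2.2).smz X Zw
          (fun k => S.val (l k).1) (gk4 N W b l) ≠ 0 := by
    intro i hm
    rw [hI, Finset.mem_filter, Finset.mem_product, Finset.mem_filter] at hm
    exact ⟨hm.1.1, hm.2.1, hm.2.2⟩
  have h := hB (fun k => S.val (l k).1) (fun k => (l k).2.1) ?_ (gk4 N W b l) ?_ ?_ ?_ _ I
    (fun i => bx4 S L A N n (T0 ε Y) Zw E W V b lo hi z i.1 i.2.1 i.2.2) ?_ ?_ ?_ ?_ ?_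
  · refine le_trans (le_of_eq ?_) h
    have e1 : ∀ c : Pl K → Option (Le p Λ N n), (if sel c then
      ∑ e : E → P, ∑ α : Fin A.g → P, (if Adq A (Nk N n) (sp (Zg D Zw E) c) X (xc4 (T0 ε Y) c)
          (gz (fun x : Le p Λ N n => S.val x.1) (T0 ε Y) z c) e α ∧
          Hs L A E N (sp (Zg D Zw E) c)
          (ev A (ge (gz (fun x : Le p Λ N n => S.val x.1) (T0 ε Y) z c) e) α) then
        (nr (sp (Zg D Zw E) c ∪ E))⁻¹ * (∏ k, lo k)⁻¹ *
        ‖(bx4 S L A N n (T0 ε Y) Zw E W V b lo hi z c e α).smz X Zw (fun k => S.val (l k).1)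
          (gk4 N W b l)‖ else 0) else 0) =
        ∑ x : (E → P) × (Fin A.g → P), if (sel c ∧
        (Adq A (Nk N n) (sp (Zg D Zw E) c) X (xc4 (T0 ε Y) c)
          (gz (fun x : Le p Λ N n => S.val x.1) (T0 ε Y) z c) x.1 x.2 ∧
          Hs L A E N (sp (Zg D Zw E) c)
          (ev A (ge (gz (fun x : Le p Λ N n => S.val x.1) (T0 ε Y) z c) x.1) x.2))) ∧
        (bx4 S L A N n (T0 ε Y) Zw E W V b lo hi z c x.1 x.2).smz X Zw
          (fun k => S.val (l k).1) (gk4 N W b l) ≠ 0 then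
        (nr (sp (Zg D Zw E) c ∪ E))⁻¹ * (∏ k, lo k)⁻¹ *
        ‖(bx4 S L A N n (T0 ε Y) Zw E W V b lo hi z c x.1 x.2).smz X Zw (fun k => S.val (l k).1)
          (gk4 N W b l)‖ else 0 := by
      intro c
      rw [Fintype.sum_prod_type]
      by_cases hs : sel c
      · rw [if_pos hs]
        refine Finset.sum_congr rfl fun e _ => Finset.sum_congr rfl fun α _ => ?_
        by_cases h1 : Adq A (Nk N n) (sp (Zg D Zw E) c) X (xc4 (T0 ε Y) c)
          (gz (fun x : Le p Λ N n => S.val x.1) (T0 ε Y) z c) e α ∧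
          Hs L A E N (sp (Zg D Zw E) c)
          (ev A (ge (gz (fun x : Le p Λ N n => S.val x.1) (T0 ε Y) z c) e) α)
        · by_cases h2 : (bx4 S L A N n (T0 ε Y) Zw E W V b lo hi z c e α).smz X Zw
              (fun k => S.val (l k).1) (gk4 N W b l) = 0
          · rw [if_pos h1, if_neg fun h3 => h3.2 h2, h2, norm_zero, mul_zero]
          · rw [if_pos h1, if_pos ⟨⟨hs, h1⟩, h2⟩]
        · rw [if_neg h1, if_neg fun h3 => h1 h3.1.2]
      · rw [if_neg hs, eq_comm]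
        refine Finset.sum_eq_zero fun e _ => Finset.sum_eq_zero fun α _ => ?_
        exact if_neg fun h3 => hs h3.1.1
    rw [Finset.sum_congr rfl fun c _ => e1 c, ← Finset.sum_product', hI, Finset.sum_filter]
    rfl
  · intro k
    obtain ⟨y, hy1, hy2⟩ := hl k
    obtain ⟨h1, h2⟩ := hW.wN _ ⟨y, hy2⟩
    refine ⟨h1, h2, fun x hx => ?_⟩
    have h3 := hW.wfix _ _ hy2
    have h4 : y⁻¹ * x ∈ N := QuotientGroup.eq.1 (hy1.trans hx.symm)
    have h5 : x * S.val (l k).1 * x⁻¹ * (S.val (l k).1)⁻¹ =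
        (y * ((y⁻¹ * x) * S.val (l k).1 * (y⁻¹ * x)⁻¹ * (S.val (l k).1)⁻¹) * y⁻¹) *
          (y * S.val (l k).1 * y⁻¹ * (S.val (l k).1)⁻¹) := by group
    rw [h5]
    refine (Nk N 1).mul_mem ((nk_normal N 1).conj_mem _ ?_ _) h3
    exact Subgroup.commutator_mem_commutator h4 h1
  · intro k x
    unfold gk4
    split_ifs
    · rw [norm_div, Complex.norm_real, Complex.norm_real, Real.norm_of_nonneg (hW.w0 _ _).1,
        Real.norm_of_nonneg hb0.le, div_le_one hb0]
      exact (hW.w0 _ _).2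
    · rw [norm_zero]
      exact zero_le_one
  · intro k x hx
    unfold gk4 at hx
    by_contra h1
    exact hx (if_neg fun h2 => h1 h2.2)
  · intro k x u hu
    have huN : u ∈ N := nk_anti N (Nat.zero_le n) hu
    have hmk : ((x * u : P) : P ⧸ N) = (x : P ⧸ N) := by
      rw [eq_comm]
      refine QuotientGroup.eq.2 ?_
      rw [inv_mul_cancel_left]
      exact huN
    unfold gk4
    rw [hmk, hW.winv _ _ u hu]
  · intro i hm
    obtain ⟨⟨h1, h2, h3⟩, -⟩ := hmI i hm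
    refine ⟨Finset.subset_union_right, Finset.union_subset ?_ hE, hnr _ h2, hcd _ h3⟩
    intro v hv
    exact (zg_E (mem_sp.1 hv).1).1
  · intro i hm
    obtain ⟨⟨h1, h2, h3⟩, ⟨-, -, h5⟩, -⟩ := hmI i hm
    have hφ : (bx4 S L A N n (T0 ε Y) Zw E W V b lo hi z i.1 i.2.1 i.2.2).φ = h5.choose :=
      dif_pos h5
    refine ⟨?_, ?_, ?_, ?_, ?_⟩
    · intro v hv
      change ge (gz (fun x : Le p Λ N n => S.val x.1) (T0 ε Y) z i.1) i.2.1 v = 1
      have hv' : v ∉ sp (Zg D Zw E) i.1 ∧ v ∉ E := by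
        constructor
        · exact fun h6 => hv (Finset.mem_union_left _ h6)
        · exact fun h6 => hv (Finset.mem_union_right _ h6)
      have h6 : i.1 v = none := by
        by_contra h7
        by_cases h8 : v ∈ Zg D Zw E
        · exact hv'.1 (mem_sp.2 ⟨h8, h7⟩)
        · exact h7 (mem_cf.1 h1 v h8)
      unfold ge
      rw [dif_neg hv'.2]
      unfold gz
      rw [h6]
      rfl
    · rw [hφ]
      exact h5.choose_spec.1.mono (Finset.Subset.refl E) Finset.subset_union_left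
    · rw [hφ]
      exact h5.choose_spec.2.1
    · rw [hφ]
      exact h5.choose_spec.2.2
    · intro v x
      change ‖(if v ∈ E then (1 : ℂ) else (i.1 v).elim 1 fun t =>
        w4 N n (T0 ε Y) W V z v t x / b)‖ ≤ 1
      split_ifs with h6
      · exact norm_one.le
      · cases h7 : i.1 v with
        | none => exact norm_one.le
        | some t =>
          simp only [Option.elim_some]
          rw [norm_div, Complex.norm_real, Real.norm_of_nonneg hb0.le, div_le_one hb0]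
          exact w4_b hW _ z v t x
  · intro i hm
    obtain ⟨⟨h1, h2, h3⟩, ⟨h4, h5, h6⟩, h7⟩ := hmI i hm
    refine ⟨bx4_ch hp hn hW L Fr A X (T0 ε Y) Zw E hE hX l hlN lo hi z i.1 h1 i.2.1 i.2.2 _ h6
      h7, ?_, ?_⟩
    · refine adq_ad _ X (gz (fun x : Le p Λ N n => S.val x.1) (T0 ε Y) z i.1) i.2.1 rfl ?_
      have := nk_normal N n
      refine (adq_cong (N := N) (nk_cen hn) X i.2.1 i.2.2 (fun v _ => ?_)
        Finset.subset_union_left (fun v hv u _ => ?_) fun v hv hv' u _ => ?_).2 h5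
      · rw [mul_inv_cancel]
        exact N.one_mem
      · change (if v ∈ E then (0 : ZMod p) else _) = _
        rw [if_neg]
        exact (zg_E (mem_sp.1 hv).1).2
      · change (if v ∈ E then (0 : ZMod p) else _) = _
        rw [if_pos]
        exact (Finset.mem_union.1 hv).resolve_left hv'
    · obtain ⟨v, hv, x, hx, hT, hχ⟩ := hsel _ h4
      obtain ⟨u, hu⟩ := hlk
      refine ⟨v, Finset.mem_union_left _ (mem_sp.2 ⟨hv, by rw [hx]; exact Option.some_ne_none _⟩),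
        u, ?_⟩
      change (if v ∈ E then (0 : ZMod p) else xc4 (T0 ε Y) i.1 v _) ≠ 0
      rw [if_neg (zg_E hv).2]
      unfold xc4
      rw [hx]
      simp only [Option.elim_some]
      rw [if_neg hT, hχ]
      exact hu
  · intro i hm k
    exact hlh k
  · intro m
    have h1 : I.filter (fun i =>
        (bx4 S L A N n (T0 ε Y) Zw E W V b lo hi z i.1 i.2.1 i.2.2).s = m) ⊆
        ((Cf (Zg D Zw E) (Le p Λ N n)).filter fun c => sp (Zg D Zw E) c = m \ E) ×ˢ
          (Finset.univ : Finset ((E → P) × (Fin A.g → P))) := by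
      intro i hm
      rw [Finset.mem_filter] at hm
      rw [Finset.mem_product, Finset.mem_filter]
      refine ⟨⟨(hmI i hm.1).1.1, ?_⟩, Finset.mem_univ _⟩
      have h2 : sp (Zg D Zw E) i.1 ∪ E = m := hm.2
      rw [← h2, Finset.union_sdiff_cancel_right (hdis i.1)]
    rcases (I.filter (fun i =>
      (bx4 S L A N n (T0 ε Y) Zw E W V b lo hi z i.1 i.2.1 i.2.2).s = m)).eq_empty_or_nonempty
      with h2 | h2
    · rw [h2, Finset.card_empty, Nat.cast_zero]
      exact Real.rpow_nonneg hlY _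
    · obtain ⟨i, hm⟩ := h2
      have h3 := (Finset.mem_filter.1 (Finset.mem_product.1 (h1 hm)).1).2
      have h4 : ((m \ E).card : ℝ) ≤ B := by
        rw [← h3]
        exact (hmI i (Finset.mem_filter.1 hm).1).1.2.2
      refine le_trans ?_ (hct _ h4)
      have h5 := (Finset.card_le_card h1).trans (le_of_eq (Finset.card_product _ _))
      rw [Finset.card_univ] at h5
      have h6 := h5.trans (Nat.mul_le_mul_right _ (cnt_sp (Zg D Zw E) (m \ E)))
      rw [mul_comm] at h6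
      exact_mod_cast h6

end loc

end H70.UX
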