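import Pool.Agent.H70.UX.Ort
import Pool.Agent.H35.UX.Ext

/-!
# H70-UX-LBL: U4 (the small primes), labels, weights and the expansion (MP_b39724_nt, UBX)

`P` with `Nk N (n+1) = 1`, labels `Λ` with values `S.val`, `za z` the conjugation of the labels by `z ∈ Nk N (n-1)`.
* `W4`: the conditions on the weights `W` (large primes, invariant under `Nk N n`) and `V` (small primes).
* `gz S T z c v`: the value of the label at `v`, conjugated by `z v` at the large primes. `w4`: the weight of the label `(x, q, χ)`. `F4 c z`: the sum over `(e, α)`.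
* `exp4`: `∑_e SAx (W, V) = ∑_c [pattern] psi F4 c z` for every `z` with values in `Nk N (n-1)`. `exp4m`: the same for `wav V` and the configurations with trivial characters.
-/

set_option autoImplicit false

open scoped NumberField
open IsDedekindDomain
open scoped Classical

noncomputable section

namespace H70.UX

open H38.ML H63.MA H38.BB H38.BG H57.PC H57.BRA H77.WD H77.WE H77.PC3 H35.CF H35.UB H35.UX

section grp

variable {P Λ : Type} [Group P] {Nc : ℕ}

/-- the conditions on labels and weights -/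
structure W4 (p : ℕ) (S : LS Nc P Λ) (N : Subgroup P) [N.Normal] (n : ℕ) (W V : Λ → P → ℝ)
    (za : P → Equiv.Perm Λ) (b : ℝ) : Prop where
  b1 : 1 ≤ b
  w0 : ∀ x y, 0 ≤ W x y ∧ W x y ≤ b
  v0 : ∀ x y, 0 ≤ V x y ∧ V x y ≤ b
  wN : ∀ x, (∃ y, W x y ≠ 0) → S.val x ∈ N ∧ S.val x ^ p = 1
  vN : ∀ x, (∃ y, V x y ≠ 0) → S.val x ∈ N
  winv : ∀ x y, ∀ u ∈ Nk N n, W x (y * u) = W x y
  vinv : ∀ x, ∀ z ∈ Nk N n, ∀ y, V x (z * y * z⁻¹) = V x y
  wfix : ∀ x y, W x y ≠ 0 → y * S.val x * y⁻¹ * (S.val x)⁻¹ ∈ Nk N 1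
  wz : ∀ z ∈ Nk N (n - 1), ∀ x, S.val (za z x) = z * S.val x * z⁻¹ ∧
    S.cls (za z x) = S.cls x ∧ ∀ y, W (za z x) y = W x (z⁻¹ * y * z)
  span : ∀ s : Fin Nc → Λ, (∀ i, S.cls (s i) = i ∧ ∃ y, W (s i) y ≠ 0) →
    N ≤ Subgroup.normalClosure {y | ∃ i, y = S.val (s i)} ⊔ Nk N 1

end grp

section loc

variable {K : Type} [Field K] [NumberField K] {Ω : Type} [Field Ω] [Algebra K Ω]
  {p : ℕ} {ζ : K} {D : RD0 K p ζ} {P : Type} [Group P] {Nc n : ℕ} {Λ : Type}

/-- the labels at the exceptional primes as a function -/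
def ex {E : Finset (Pl K)} (e : E → P) (v : Pl K) : P := if h : v ∈ E then e ⟨v, h⟩ else 1

/-- the value of the label at `v` -/
def gz (val : Λ → P) (T : ℝ) (z : Pl K → P) (c : Pl K → Option Λ) (v : Pl K) : P :=
  (c v).elim 1 fun x => if T < (nm v : ℝ) then z v * val x * (z v)⁻¹ else val x

theorem lab_ge {E : Finset (Pl K)} (e : E → P) (val : Λ → P) (f : Pl K → Option Λ) :
    lab E (ex e) val f = ge (fun v => (f v).elim 1 val) e := by
  funext v
  unfold lab ge ex
  by_cases h : v ∈ E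
  · rw [if_pos h, dif_pos h, dif_pos h]
  · rw [if_neg h, dif_neg h]

/-- the weight of an extended label -/
def w4 [NeZero p] [Fintype P] (N : Subgroup P) [N.Normal] (n : ℕ) (T : ℝ) (W V : Λ → P → ℝ)
    (z : Pl K → P) (v : Pl K) (x : Le p Λ N n) (y : P) : ℂ :=
  if T < (nm v : ℝ) then
    (if x.2.2 = 1 ∧ (y : P ⧸ N) = x.2.1 then (W x.1 ((z v)⁻¹ * y * z v) : ℂ) else 0)
  else if x.2.1 = 1 then Wh N n (V x.1) x.2.2 y else 0

/-- the sum over `(e, α)` for a configuration of extended labels -/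
def F4 [NeZero p] [Fintype P] (S : LS Nc P Λ) (L : LDs D Ω) (A : GS D Ω) (X : Pl K → FW A)
    (N : Subgroup P) [N.Normal] (n : ℕ) (T : ℝ) (Zw E : Finset (Pl K)) (W V : Λ → P → ℝ)
    (z : Pl K → P) (c : Pl K → Option (Le p Λ N n)) : ℂ :=
  ∑ e : E → P, ∑ α : Fin A.g → P,
    if Hs L A E N (sp (Zg D Zw E) c)
        (ev A (ge (gz (fun x : Le p Λ N n => S.val x.1) T z c) e) α) then
      om (Zg D Zw E) (fun v x => w4 N n T W V z v x
        (ev A (ge (gz (fun x : Le p Λ N n => S.val x.1) T z c) e) α (X v))) c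
    else 0

section rel

variable [Fintype Λ]

/-- relabelling at the large primes -/
theorem cf_za {R : Type} [AddCommMonoid R] (Z : Finset (Pl K)) (σ : Pl K → Equiv.Perm Λ)
    (F : (Pl K → Option Λ) → R) :
    ∑ f ∈ Cf Z Λ, F f = ∑ f ∈ Cf Z Λ, F (fun v => (f v).map (σ v)) := by
  refine (Finset.sum_nbij' (fun f v => (f v).map (σ v)) (fun f v => (f v).map (σ v).symm) ?_ ?_ ?_
    ?_ ?_).symm
  · intro f hf
    rw [mem_cf] at hf ⊢
    intro v hv
    rw [hf v hv]
    rfl
  · intro f hf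
    rw [mem_cf] at hf ⊢
    intro v hv
    rw [hf v hv]
    rfl
  · intro f _
    funext v
    rw [Option.map_map]
    have : ((σ v).symm ∘ (σ v)) = id := by
      funext x
      exact (σ v).symm_apply_apply x
    rw [this, Option.map_id]
    rfl
  · intro f _
    funext v
    rw [Option.map_map]
    have : ((σ v) ∘ (σ v).symm) = id := by
      funext x
      exact (σ v).apply_symm_apply x
    rw [this, Option.map_id]
    rfl
  · intro f _
    rfl

end rel

variable [NeZero p] [Fintype P] [Fintype Λ] {N : Subgroup P} [N.Normal]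

theorem w4_sum (hp : p.Prime) (hn : Nk N (n + 1) = ⊥) (hV : ∀ u ∈ Nk N n, u ^ p = 1) (T : ℝ)
    (W V : Λ → P → ℝ) (z : Pl K → P) (v : Pl K) (x : Λ) (y : P) :
    ∑ t ∈ Finset.univ.filter (fun t : Le p Λ N n => t.1 = x), w4 N n T W V z v t y =
      ((if T < (nm v : ℝ) then W x ((z v)⁻¹ * y * z v) else V x y : ℝ) : ℂ) := by
  have h1 : ∀ g : Le p Λ N n → ℂ, ∑ t ∈ Finset.univ.filter (fun t : Le p Λ N n => t.1 = x), g t =
      ∑ t : (P ⧸ N) × Xc p N n, g (x, t) := by
    intro g
    rw [Finset.sum_filter, Fintype.sum_prod_type]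
    rw [Finset.sum_eq_single x]
    · refine Finset.sum_congr rfl fun x _ => ?_
      rw [if_pos rfl]
    · intro z _ hz
      refine Finset.sum_eq_zero fun x _ => ?_
      rw [if_neg hz]
    · intro h
      exact absurd (Finset.mem_univ _) h
  rw [h1]
  unfold w4
  by_cases hR : T < (nm v : ℝ)
  · simp only [if_pos hR]
    rw [Finset.sum_eq_single ((y : P ⧸ N), (1 : Xc p N n))]
    · rw [if_pos ⟨rfl, rfl⟩]
    · intro t _ ht
      exact if_neg fun h => ht (Prod.ext h.2.symm h.1)
    · intro h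
      exact absurd (Finset.mem_univ _) h
  · simp only [if_neg hR]
    rw [Fintype.sum_prod_type, Finset.sum_eq_single (1 : P ⧸ N)]
    · simp only [if_true]
      exact wh_sum hp N n hn hV (V x) y
    · intro q _ hq
      exact Finset.sum_eq_zero fun x _ => if_neg hq
    · intro h
      exact absurd (Finset.mem_univ _) h

/-- the small characters are trivial -/
def Tr {N : Subgroup P} [N.Normal] (Z : Finset (Pl K)) (T : ℝ)
    (c : Pl K → Option (Le p Λ N n)) : Prop :=
  ∀ v ∈ Z, ∀ x, c v = some x → ¬ T < (nm v : ℝ) → x.2.2 = 1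

theorem w4_sum1 (T : ℝ) (W V : Λ → P → ℝ) (z : Pl K → P) (v : Pl K) (x : Λ) (y : P) :
    ∑ t ∈ Finset.univ.filter (fun t : Le p Λ N n => t.1 = x),
      (if ¬ T < (nm v : ℝ) ∧ t.2.2 ≠ 1 then 0 else w4 N n T W V z v t y) =
      ((if T < (nm v : ℝ) then W x ((z v)⁻¹ * y * z v) else wav N n (V x) y : ℝ) : ℂ) := by
  have h1 : ∀ g : Le p Λ N n → ℂ, ∑ t ∈ Finset.univ.filter (fun t : Le p Λ N n => t.1 = x), g t =
      ∑ t : (P ⧸ N) × Xc p N n, g (x, t) := by
    intro g
    rw [Finset.sum_filter, Fintype.sum_prod_type]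
    rw [Finset.sum_eq_single x]
    · refine Finset.sum_congr rfl fun x _ => ?_
      rw [if_pos rfl]
    · intro z _ hz
      refine Finset.sum_eq_zero fun x _ => ?_
      rw [if_neg hz]
    · intro h
      exact absurd (Finset.mem_univ _) h
  rw [h1]
  unfold w4
  by_cases hR : T < (nm v : ℝ)
  · simp only [hR, not_true_eq_false, false_and, if_false, if_true]
    rw [Finset.sum_eq_single ((y : P ⧸ N), (1 : Xc p N n))]
    · rw [if_pos ⟨rfl, rfl⟩]
    · intro t _ ht
      exact if_neg fun h => ht (Prod.ext h.2.symm h.1)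
    · intro h
      exact absurd (Finset.mem_univ _) h
  · simp only [hR, not_false_eq_true, true_and, if_false]
    rw [Finset.sum_eq_single ((1 : P ⧸ N), (1 : Xc p N n))]
    · rw [if_neg (fun h => h rfl), if_pos rfl]
      unfold Wh wav
      have h2 : ∀ u : Nk N n, ep p (-(Multiplicative.toAdd ((1 : Xc p N n) u))) * (V x (y * u) : ℂ) =
          ((V x (y * u) : ℝ) : ℂ) := by
        intro u
        rw [MonoidHom.one_apply, toAdd_one, neg_zero, ep_zero, one_mul]
      rw [Finset.sum_congr rfl fun u _ => h2 u]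
      push_cast
      rfl
    · intro t _ ht
      by_cases h2 : t.2 = 1
      · rw [if_neg (not_not.2 h2)]
        exact if_neg fun h => ht (Prod.ext h h2)
      · rw [if_pos h2]
    · intro h
      exact absurd (Finset.mem_univ _) h

end loc

end H70.UX
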