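import Pool.Agent.H70.UX.Box

/-!
# H70-UX-ORT: the orthogonality step of U4 (MP_b39724_nt, UBX)

`V` an abelian normal subgroup of `P` (the last layer), `e : E → P` the labels at the exceptional primes, `α` the values at the `a_i`. If the summand is the product of a
`V`-invariant function of `(e, α)` and of functions `G v` of the values of the words `W v` with characters `χ v` on `V`, then in the sum over all `(e, α)` only those remain for
which the characters are orthogonal to all virtual crossed homs (`Adq`).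
* `ort`: this statement. `adq_ad`: `Adq` gives `Bs.ad`.
-/

set_option autoImplicit false

open scoped NumberField
open IsDedekindDomain
open scoped Classical

noncomputable section

namespace H70.UX

open H38.ML H63.MA H38.BB H38.BG H57.PC H57.BRA H77.WD H77.WE H77.PC3 H35.CF H35.UB

section chr

/-- orthogonality for an additive function on a finite group -/
theorem ort_sum {p : ℕ} (hp : p.Prime) {T : Type} [Group T] [Fintype T] (Λ : T → ZMod p)
    (hΛ : ∀ a b, Λ (a * b) = Λ a + Λ b) :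
    ∑ d : T, ep p (Λ d) = if ∀ d, Λ d = 0 then (Fintype.card T : ℂ) else 0 := by
  split_ifs with h
  · rw [Finset.sum_congr rfl fun d _ => by rw [h d, ep_zero], Finset.sum_const, Finset.card_univ,
      nsmul_eq_mul, mul_one]
  · push Not at h
    obtain ⟨d₀, hd₀⟩ := h
    have h1 : ∑ d : T, ep p (Λ d) = ep p (Λ d₀) * ∑ d : T, ep p (Λ d) := by
      rw [Finset.mul_sum]
      refine (Fintype.sum_equiv (Equiv.mulLeft d₀) _ _ fun d => ?_).symm
      rw [Equiv.coe_mulLeft, hΛ, ep_add hp]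
    have h2 : (ep p (Λ d₀) - 1) * ∑ d : T, ep p (Λ d) = 0 := by
      rw [sub_mul, one_mul, ← h1, sub_self]
    refine (mul_eq_zero.1 h2).resolve_left (sub_ne_zero.2 fun h3 => hd₀ ?_)
    exact (ep_eq_one hp _).1 h3

end chr

variable {K : Type} [Field K] [NumberField K] {Ω : Type} [Field Ω] [Algebra K Ω]
  {p : ℕ} {ζ : K} {D : RD0 K p ζ} {P : Type} [Group P] {A : GS D Ω}

/-- the labels with the values `e` on `E` -/
def ge {E : Finset (Pl K)} (g : Pl K → P) (e : E → P) (v : Pl K) : P :=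
  if h : v ∈ E then e ⟨v, h⟩ else g v

/-- the characters are orthogonal to the virtual crossed homs -/
def Adq (A : GS D Ω) (V : Subgroup P) {E : Finset (Pl K)} (s : Finset (Pl K)) (W : Pl K → FW A)
    (χ : Pl K → P → ZMod p) (g : Pl K → P) (e : E → P) (α : Fin A.g → P) : Prop :=
  ∀ (e' : E → P) (α' : Fin A.g → P), (∀ v, e' v * (e v)⁻¹ ∈ V) → (∀ i, α' i * (α i)⁻¹ ∈ V) →
    ∑ v ∈ s, χ v ((ev A (ge g e) α (W v))⁻¹ * ev A (ge g e') α' (W v)) = 0

section cr

variable {V : Subgroup P} [V.Normal]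

theorem ev_cong {g g' : Pl K → P} {α α' : Fin A.g → P} (hg : ∀ v, g' v * (g v)⁻¹ ∈ V)
    (hα : ∀ i, α' i * (α i)⁻¹ ∈ V) (x : FW A) : (ev A g α x)⁻¹ * ev A g' α' x ∈ V := by
  have h1 : (QuotientGroup.mk' V).comp (ev A g α) = (QuotientGroup.mk' V).comp (ev A g' α') := by
    refine FreeGroup.ext_hom _ _ fun y => ?_
    unfold ev
    rw [MonoidHom.comp_apply, MonoidHom.comp_apply, FreeGroup.lift_apply_of,
      FreeGroup.lift_apply_of, QuotientGroup.mk'_apply, QuotientGroup.mk'_apply]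
    refine QuotientGroup.eq.2 ?_
    have hn : ∀ a b : P, b * a⁻¹ ∈ V → a⁻¹ * b ∈ V := fun a b h => by
      have h2 := (inferInstance : V.Normal).conj_mem _ h a⁻¹
      rwa [inv_inv, mul_assoc, inv_mul_cancel_right] at h2
    rcases y with v | i
    · exact hn _ _ (hg v)
    · exact hn _ _ (hα i)
  have h2 := DFunLike.congr_fun h1 x
  rw [MonoidHom.comp_apply, MonoidHom.comp_apply, QuotientGroup.mk'_apply,
    QuotientGroup.mk'_apply] at h2
  exact QuotientGroup.eq.1 h2

/-- `a b⁻¹ c` is multiplicative on triples which are congruent modulo an abelian normal subgroup -/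
theorem tri_mul (hV : ∀ a ∈ V, ∀ b ∈ V, a * b = b * a) {a b c a' b' c' : P}
    (hc : b⁻¹ * c ∈ V) (ha' : b'⁻¹ * a' ∈ V) :
    (a * a') * (b * b')⁻¹ * (c * c') = (a * b⁻¹ * c) * (a' * b'⁻¹ * c') := by
  obtain ⟨m, hm⟩ : ∃ m, m = b⁻¹ * c := ⟨_, rfl⟩
  obtain ⟨l, hl⟩ : ∃ l, l = a' * b'⁻¹ := ⟨_, rfl⟩
  have hl' : l ∈ V := by
    have h2 := (inferInstance : V.Normal).conj_mem _ ha' b'
    rw [hl]
    rwa [mul_inv_cancel_left] at h2
  have h1 := hV l hl' m (hm ▸ hc)
  have hc1 : c = b * m := by rw [hm, mul_inv_cancel_left]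
  have ha1 : a' = l * b' := by rw [hl, inv_mul_cancel_right]
  rw [hc1, ha1]
  have e1 : a * (l * b') * (b * b')⁻¹ * (b * m * c') = a * (l * m) * c' := by group
  have e2 : a * b⁻¹ * (b * m) * (l * b' * b'⁻¹ * c') = a * (m * l) * c' := by group
  rw [e1, e2, h1]

theorem ev_mul (hV : ∀ a ∈ V, ∀ b ∈ V, a * b = b * a) {g : Pl K → P} {α : Fin A.g → P}
    (d d' : Pl K → P) (δ δ' : Fin A.g → P) (hd : ∀ v, d v ∈ V) (hd' : ∀ v, d' v ∈ V)
    (hδ : ∀ i, δ i ∈ V) (hδ' : ∀ i, δ' i ∈ V) (x : FW A) :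
    (ev A g α x)⁻¹ * ev A (fun v => d v * d' v * g v) (fun i => δ i * δ' i * α i) x =
      ((ev A g α x)⁻¹ * ev A (fun v => d v * g v) (fun i => δ i * α i) x) *
        ((ev A g α x)⁻¹ * ev A (fun v => d' v * g v) (fun i => δ' i * α i) x) := by
  have c1 : ∀ x : FW A, (ev A g α x)⁻¹ * ev A (fun v => d v * g v) (fun i => δ i * α i) x ∈ V :=
    ev_cong (fun v => by rw [mul_inv_cancel_right]; exact hd v)
      fun i => by rw [mul_inv_cancel_right]; exact hδ i
  have c2 : ∀ x : FW A, (ev A g α x)⁻¹ * ev A (fun v => d' v * g v) (fun i => δ' i * α i) x ∈ V :=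
    ev_cong (fun v => by rw [mul_inv_cancel_right]; exact hd' v)
      fun i => by rw [mul_inv_cancel_right]; exact hδ' i
  obtain ⟨H, hH⟩ : ∃ H : FW A →* P, ∀ x, H x =
      ev A (fun v => d v * g v) (fun i => δ i * α i) x * (ev A g α x)⁻¹ *
        ev A (fun v => d' v * g v) (fun i => δ' i * α i) x := by
    refine ⟨MonoidHom.mk' (fun x => ev A (fun v => d v * g v) (fun i => δ i * α i) x *
      (ev A g α x)⁻¹ * ev A (fun v => d' v * g v) (fun i => δ' i * α i) x) fun x y => ?_,
      fun x => rfl⟩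
    rw [map_mul, map_mul, map_mul]
    exact tri_mul hV (c2 x) (c1 y)
  have h1 : H = ev A (fun v => d v * d' v * g v) (fun i => δ i * δ' i * α i) := by
    refine FreeGroup.ext_hom _ _ fun y => ?_
    rw [hH]
    unfold ev
    rw [FreeGroup.lift_apply_of, FreeGroup.lift_apply_of, FreeGroup.lift_apply_of,
      FreeGroup.lift_apply_of]
    rcases y with v | i
    · change d v * g v * (g v)⁻¹ * (d' v * g v) = d v * d' v * g v
      group
    · change δ i * α i * (α i)⁻¹ * (δ' i * α i) = δ i * δ' i * α i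
      group
  rw [← h1, hH]
  group

theorem ort [Fintype P] (hp : p.Prime) (hV : ∀ a ∈ V, ∀ b ∈ V, a * b = b * a)
    {E : Finset (Pl K)} (s : Finset (Pl K)) (W : Pl K → FW A) (χ : Pl K → P → ZMod p)
    (hχ : ∀ v ∈ s, ∀ u ∈ V, ∀ u' ∈ V, χ v (u * u') = χ v u + χ v u') (G : Pl K → P → ℂ)
    (hG : ∀ v ∈ s, ∀ x, ∀ u ∈ V, G v (x * u) = ep p (χ v u) * G v x) (g : Pl K → P)
    (R : (E → P) → (Fin A.g → P) → ℂ)
    (hR : ∀ e α (d : E → P) (δ : Fin A.g → P), (∀ v, d v ∈ V) → (∀ i, δ i ∈ V) →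
      R (fun v => d v * e v) (fun i => δ i * α i) = R e α) :
    ∑ e : E → P, ∑ α : Fin A.g → P, R e α * ∏ v ∈ s, G v (ev A (ge g e) α (W v)) =
      ∑ e : E → P, ∑ α : Fin A.g → P, if Adq A V s W χ g e α then
        R e α * ∏ v ∈ s, G v (ev A (ge g e) α (W v)) else 0 := by
  obtain ⟨F, hF⟩ : ∃ F : (E → P) × (Fin A.g → P) → ℂ, ∀ x, F x =
      R x.1 x.2 * ∏ v ∈ s, G v (ev A (ge g x.1) x.2 (W v)) := ⟨_, fun _ => rfl⟩
  -- the additive function
  obtain ⟨Λ, hΛ⟩ : ∃ Λ : (E → P) × (Fin A.g → P) → (E → V) × (Fin A.g → V) → ZMod p,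
      ∀ x d, Λ x d = ∑ v ∈ s, χ v ((ev A (ge g x.1) x.2 (W v))⁻¹ *
        ev A (ge g fun v => (d.1 v : P) * x.1 v) (fun i => (d.2 i : P) * x.2 i) (W v)) :=
    ⟨_, fun _ _ => rfl⟩
  have hge : ∀ (e d : E → P) (v : Pl K), ge g (fun v => d v * e v) v =
      (if h : v ∈ E then d ⟨v, h⟩ else 1) * ge g e v := by
    intro e d v
    unfold ge
    split_ifs with h
    · rfl
    · rw [one_mul]
  have hm : ∀ (d : E → V) (v : Pl K), (if h : v ∈ E then (d ⟨v, h⟩ : P) else 1) ∈ V := by
    intro d v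
    split_ifs with h
    · exact (d ⟨v, h⟩).2
    · exact V.one_mem
  have hge2 : ∀ (e : E → P) (d : E → V), ge g (fun v => (d v : P) * e v) =
      fun v => (if h : v ∈ E then (d ⟨v, h⟩ : P) else 1) * ge g e v := fun e d =>
    funext fun v => hge e (fun v => (d v : P)) v
  have hVm : ∀ (x : (E → P) × (Fin A.g → P)) (d : (E → V) × (Fin A.g → V)) (w : FW A),
      (ev A (ge g x.1) x.2 w)⁻¹ *
        ev A (ge g fun v => (d.1 v : P) * x.1 v) (fun i => (d.2 i : P) * x.2 i) w ∈ V := by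
    intro x d w
    rw [hge2]
    refine ev_cong (fun v => ?_) (fun i => ?_) w
    · rw [mul_inv_cancel_right]
      exact hm _ _
    · rw [mul_inv_cancel_right]
      exact (d.2 i).2
  have hadd : ∀ x a b, Λ x (a * b) = Λ x a + Λ x b := by
    intro x a b
    rw [hΛ, hΛ, hΛ, ← Finset.sum_add_distrib]
    refine Finset.sum_congr rfl fun v hv => ?_
    rw [← hχ v hv _ (hVm x a _) _ (hVm x b _)]
    congr 1
    have h1 := ev_mul (A := A) hV (g := ge g x.1) (α := x.2)
      (fun v => if h : v ∈ E then (a.1 ⟨v, h⟩ : P) else 1)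
      (fun v => if h : v ∈ E then (b.1 ⟨v, h⟩ : P) else 1) (fun i => (a.2 i : P))
      (fun i => (b.2 i : P)) (hm _) (hm _) (fun i => (a.2 i).2) (fun i => (b.2 i).2) (W v)
    rw [hge2 x.1 a.1, hge2 x.1 b.1, hge2 x.1 (a * b).1, ← h1]
    congr 1
    have e1 : (fun v : Pl K => (if h : v ∈ E then ((a * b).1 ⟨v, h⟩ : P) else 1) * ge g x.1 v) =
        fun v => ((if h : v ∈ E then (a.1 ⟨v, h⟩ : P) else 1) *
          if h : v ∈ E then (b.1 ⟨v, h⟩ : P) else 1) * ge g x.1 v := by
      funext w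
      split_ifs with h
      · rfl
      · simp
    rw [e1]
    rfl
  have hact : ∀ x (d : (E → V) × (Fin A.g → V)),
      F ((fun v => (d.1 v : P) * x.1 v), (fun i => (d.2 i : P) * x.2 i)) = F x * ep p (Λ x d) := by
    intro x d
    rw [hF, hF, hR _ _ _ _ (fun v => (d.1 v).2) fun i => (d.2 i).2, hΛ]
    have h1 : ∀ t : Finset (Pl K), t ⊆ s →
        ∏ v ∈ t, G v (ev A (ge g fun v => (d.1 v : P) * x.1 v) (fun i => (d.2 i : P) * x.2 i)
          (W v)) = (∏ v ∈ t, G v (ev A (ge g x.1) x.2 (W v))) *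
            ep p (∑ v ∈ t, χ v ((ev A (ge g x.1) x.2 (W v))⁻¹ *
              ev A (ge g fun v => (d.1 v : P) * x.1 v) (fun i => (d.2 i : P) * x.2 i) (W v))) := by
      intro t
      induction t using Finset.induction_on with
      | empty => intro _; rw [Finset.prod_empty, Finset.prod_empty, Finset.sum_empty, ep_zero, mul_one]
      | insert a t ha ih =>
        intro hs
        rw [Finset.prod_insert ha, Finset.prod_insert ha, Finset.sum_insert ha, ep_add hp,
          ih fun y hy => hs (Finset.mem_insert_of_mem hy)]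
        have h2 := hG a (hs (Finset.mem_insert_self a t)) (ev A (ge g x.1) x.2 (W a)) _ (hVm x d (W a))
        rw [mul_inv_cancel_left] at h2
        rw [h2]
        ring
    rw [h1 s (Finset.Subset.refl s)]
    ring
  have hsum : ∀ d : (E → V) × (Fin A.g → V), ∑ x : (E → P) × (Fin A.g → P), F x =
      ∑ x : (E → P) × (Fin A.g → P), F x * ep p (Λ x d) := by
    intro d
    rw [← Finset.sum_congr rfl fun x _ => hact x d]
    refine (Fintype.sum_equiv ((Equiv.mulLeft fun v : E => (d.1 v : P)).prodCongr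
      (Equiv.mulLeft fun i : Fin A.g => (d.2 i : P))) _ _ fun x => ?_).symm
    rfl
  have hAd : ∀ x : (E → P) × (Fin A.g → P), Adq A V s W χ g x.1 x.2 ↔ ∀ d, Λ x d = 0 := by
    intro x
    constructor
    · intro h d
      rw [hΛ]
      exact h _ _ (fun v => by rw [mul_inv_cancel_right]; exact (d.1 v).2)
        fun i => by rw [mul_inv_cancel_right]; exact (d.2 i).2
    · intro h e' α' he hα
      have h1 := h (fun v => ⟨e' v * (x.1 v)⁻¹, he v⟩, fun i => ⟨α' i * (x.2 i)⁻¹, hα i⟩)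
      rw [hΛ] at h1
      simp only [inv_mul_cancel_right] at h1
      exact h1
  have hT : (Fintype.card ((E → V) × (Fin A.g → V)) : ℂ) ≠ 0 :=
    Nat.cast_ne_zero.2 Fintype.card_ne_zero
  have key : (Fintype.card ((E → V) × (Fin A.g → V)) : ℂ) * ∑ x : (E → P) × (Fin A.g → P), F x =
      (Fintype.card ((E → V) × (Fin A.g → V)) : ℂ) * ∑ x : (E → P) × (Fin A.g → P),
        if Adq A V s W χ g x.1 x.2 then F x else 0 := by
    calc (Fintype.card ((E → V) × (Fin A.g → V)) : ℂ) * ∑ x : (E → P) × (Fin A.g → P), F x =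
        ∑ d : (E → V) × (Fin A.g → V), ∑ x : (E → P) × (Fin A.g → P), F x * ep p (Λ x d) := by
          rw [← Finset.sum_congr rfl fun d _ => hsum d, Finset.sum_const, Finset.card_univ,
            nsmul_eq_mul]
      _ = ∑ x : (E → P) × (Fin A.g → P), F x * ∑ d : (E → V) × (Fin A.g → V), ep p (Λ x d) := by
          rw [Finset.sum_comm]
          exact Finset.sum_congr rfl fun x _ => (Finset.mul_sum _ _ _).symm
      _ = _ := by
          rw [Finset.mul_sum]
          refine Finset.sum_congr rfl fun x _ => ?_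
          rw [ort_sum hp (Λ x) (hadd x)]
          by_cases h : Adq A V s W χ g x.1 x.2
          · rw [if_pos h, if_pos ((hAd x).1 h), mul_comm]
          · rw [if_neg h, if_neg fun h1 => h ((hAd x).2 h1), mul_zero, mul_zero]
  have h3 := mul_left_cancel₀ hT key
  rw [← Fintype.sum_prod_type' (f := fun e α => R e α * ∏ v ∈ s, G v (ev A (ge g e) α (W v))),
    ← Fintype.sum_prod_type' (f := fun e α => if Adq A V s W χ g e α then
        R e α * ∏ v ∈ s, G v (ev A (ge g e) α (W v)) else 0)]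
  rw [← Finset.sum_congr rfl fun x _ => hF x, h3]
  exact Finset.sum_congr rfl fun x _ => by rw [hF]

end cr

/-- `Adq` gives (AD) -/
theorem adq_ad {N : Subgroup P} [N.Normal] {n : ℕ} (X : Bs A P N n) (W : Pl K → FW A)
    {E : Finset (Pl K)} (g : Pl K → P) (e : E → P) (hg : X.g = ge g e)
    (h : Adq A (Nk N n) X.s W X.χ g e X.α) : X.ad W E := by
  intro g' α' h1 h2 h3
  have h4 := h (fun v => g' v) α' (fun v => ?_) h3
  · have h5 : g' = ge g (fun v : E => g' v) := by
      funext v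
      unfold ge
      split_ifs with hv
      · rfl
      · rw [h1 v hv, hg]
        unfold ge
        rw [dif_neg hv]
    rw [← h5, ← hg] at h4
    exact h4
  · have h6 := h2 v
    rw [hg] at h6
    unfold ge at h6
    rwa [dif_pos v.2] at h6

end H70.UX
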