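import Pool.Agent.H48.UX.Rid

/-!
# H70-UX-PHA: the relation (R) in the Heisenberg group for an honest dual part, MP_b39724_nt, UBX

`Φ : Γ → Hs p V Q` honest with `b = 0`, `z = 0`, dual part `χ v` at `t_v`, `0` at the `a_i`, `b_i` and at the Frobenius elements of `E`. `θ` the homomorphism of `FW A` with
`t_v ↦ (dE v, χ v, 0) φ t_v`, `a_i ↦ (0, 0, 0) φ a_i`, `dE v = 0` outside `Z` and on `E`.
* `phf_abs`: `∑ χ v (b (θ (X v))) = ∑ (Φ F_v).k (φ F_v • dE v)`.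
-/

set_option autoImplicit false
set_option linter.dupNamespace false

open scoped NumberField commutatorElement
open IsDedekindDomain
open scoped Classical

noncomputable section

namespace H70.UX

open H63.MA H38.BB H38.BG H57.PC H57.BRA H57.GP H77.WD Pool.Agent.H19.NF
  Pool.Agent.H19.AB Pool.Agent.H19.A2 H77.WE Pool.Agent.H19 H77.S3 H48.UX

variable {K : Type} [Field K] [NumberField K] {Ω : Type} [Field Ω] [Algebra K Ω]
  {p : ℕ} {ζ : K} {V Q : Type} [AddCommGroup V] [Group Q] [DistribMulAction Q V]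

/-- the commutator with `(d, χ, 0) 1`, `χ` invariant -/
theorem com_d (d : V) (χ : V →+ ZMod p) (y : Hs p V Q) (h : tw y.g χ = χ) :
    ⁅(⟨d, χ, 0, 1⟩ : Hs p V Q), y⁆ = ⟨d - y.g • d, 0, χ y.b - y.k (y.g • d), 1⟩ := by
  rw [commutatorElement_def, mul_inv_eq_iff_eq_mul, mul_inv_eq_iff_eq_mul]
  apply Hs.ext
  · rw [mul_b, mul_b, mul_b, mul_g]
    simp
    abel
  · rw [mul_k, mul_k, mul_k, mul_g]
    show χ + tw 1 y.k = 0 + tw 1 y.k + tw (1 * y.g) χ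
    rw [one_mul, h, tw_one, zero_add, add_comm]
  · rw [mul_z, mul_z, mul_z, mul_k, mul_g]
    show 0 + y.z + χ ((1 : Q) • y.b) = χ y.b - y.k (y.g • d) + y.z +
      (0 : V →+ ZMod p) ((1 : Q) • y.b) + 0 + (0 + tw (1 : Q) y.k) (((1 : Q) * y.g) • d)
    rw [one_mul, one_smul, tw_one, zero_add, zero_add, AddMonoidHom.zero_apply]
    ring
  · rw [mul_g, mul_g, mul_g]
    simp

variable {D : RD0 K p ζ} {L : LDs D Ω} {A : GS D Ω}

theorem phf_abs {k M : ℕ} {Q' : DP K Ω} {Fr : FR L} {B : SD D Q' A} {Z : Finset (Pl K)}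
    (hZ : ∀ v ∈ Z, v ∉ D.S0) {l : List (Pl K)} (hl : l.Nodup)
    (hlZ : ∀ v, v ∈ l ↔ v ∈ Z ∨ v ∈ D.S0) {X : Pl K → FW A} {Y : Fin A.g → FW A}
    (hR : Rel k M L Fr A B Z l X Y) [Finite (Hs p V Q)] (hS : Sml p k M (Hs p V Q))
    {φ : Gal(Ω/K) →* Q} {E : Finset (Pl K)}
    (hφ1 : ∀ v ∈ Z, v ∉ E → φ (L.t v) = 1) {χ : Pl K → V →+ ZMod p}
    (hχ0 : ∀ v, v ∉ Z ∨ v ∈ E → χ v = 0)
    (hχ1 : ∀ v ∈ Z, v ∉ E → tw (φ (Fr.F v)) (χ v) = χ v)
    {kp : Gal(Ω/K) → V →+ ZMod p} (Φ : Gal(Ω/K) →* Hs p V Q) (hΦ : Unz L Z Φ)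
    (hΦk : ∀ σ, Φ σ = ⟨0, kp σ, 0, φ σ⟩)
    (hkt : ∀ v ∈ Z, kp (L.t v) = χ v) (hka : ∀ i, kp (A.a i) = 0) (hkb : ∀ i, kp (B.b i) = 0)
    (hkE : ∀ v ∈ E, kp (Fr.F v) = 0) {dE : Pl K → V}
    (hdE : ∀ v, v ∉ Z ∨ v ∈ E → dE v = 0) :
    ∑ v ∈ Z, χ v (th L A φ χ dE 0 (X v)).b = ∑ v ∈ Z, kp (Fr.F v) (φ (Fr.F v) • dE v) := by
  set θ : FW A →* Hs p V Q := th L A φ χ dE 0 with hθ
  obtain ⟨hX, hY, hW, hR'⟩ := hR
  have hg : ∀ σ, (Φ σ).g = φ σ := fun σ => by rw [hΦk]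
  have hk : ∀ σ, (Φ σ).k = kp σ := fun σ => by rw [hΦk]
  -- the virtual `k` is the honest one
  have hrk : ∀ w, rk (θ w) = hat L A Φ w := by
    intro w
    rw [hθ, rk_th]
    have h : th L A φ χ 0 0 = hat L A Φ := by
      refine FreeGroup.ext_hom _ _ fun x => ?_
      rcases x with v | i
      · rw [th_inl, hat_inl, hΦk]
        by_cases hv : v ∈ Z
        · rw [hkt v hv]
          rfl
        · rw [hχ0 v (Or.inl hv)]
          have h1 : Φ (L.t v) = 1 := by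
            by_cases hv0 : v ∈ D.S0
            · rw [t_S0 L hv0, map_one]
            · exact hΦ.2 v hv0 hv
          have h2 : φ (L.t v) = 1 := by rw [← hg, h1, one_g]
          have h3 : kp (L.t v) = 0 := by rw [← hk, h1, one_k]
          rw [h2, h3]
          rfl
      · rw [th_inr, hat_inr, hΦk, hka]
        rfl
    exact DFunLike.congr_fun h w
  have hwk : ∀ w, (θ w).k = (hat L A Φ w).k := fun w => by
    rw [← hrk]
    rfl
  have hwg : ∀ w, (θ w).g = (hat L A Φ w).g := fun w => by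
    rw [← hrk]
    rfl
  have hFk : ∀ v ∈ Z, (θ (X v)).k = kp (Fr.F v) := fun v hv => by
    rw [hwk, (hW _ hS Φ hΦ).1 v hv, hk]
  have hFg : ∀ v ∈ Z, (θ (X v)).g = φ (Fr.F v) := fun v hv => by
    rw [hwg, (hW _ hS Φ hΦ).1 v hv, hg]
  have hYk : ∀ i, (θ (Y i)).k = 0 := fun i => by
    rw [hwk, (hW _ hS Φ hΦ).2 i, hk, hkb]
  have hone : ∀ v, v ∉ Z → θ (FreeGroup.of (Sum.inl v)) = 1 := by
    intro v hv
    have h1 : Φ (L.t v) = 1 := by
      by_cases hv0 : v ∈ D.S0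
      · rw [t_S0 L hv0, map_one]
      · exact hΦ.2 v hv0 hv
    rw [hθ, th_inl, ← hg, h1, hdE v (Or.inl hv), hχ0 v (Or.inl hv)]
    rfl
  have hrel := hR' (Hs p V Q) hS θ hone
  have hU : ∀ g : Q, ∀ u ∈ (⊤ : AddSubgroup V), g • u ∈ (⊤ : AddSubgroup V) := fun _ _ _ =>
    AddSubgroup.mem_top _
  have hfx : ∀ b : V, Fu Q ⊤ b := fun _ _ => AddSubgroup.mem_top _
  have hM1 : ∀ x : Hs p V Q, x.k = 0 → M1 ⊤ x := fun x hx => ⟨hfx _, fun u _ => by
    rw [hx]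
    rfl⟩
  -- the values at the places
  set F : Pl K → Hs p V Q := fun v => wrd B (fun v => θ (FreeGroup.of (Sum.inl v)))
    (fun v => θ (X v)) (fun i => θ (FreeGroup.of (Sum.inr i))) (fun i => θ (Y i)) v with hF
  have hZv : ∀ v ∈ Z, M2 ⊤ (F v) ∧ (F v).z = χ v (θ (X v)).b -
      kp (Fr.F v) (φ (Fr.F v) • dE v) := by
    intro v hv
    have h1 : F v = ⁅θ (FreeGroup.of (Sum.inl v)), θ (X v)⁆ := if_neg (hZ v hv)
    rw [h1]
    by_cases hvE : v ∈ E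
    · have h2 : (θ (FreeGroup.of (Sum.inl v))).k = 0 := by
        rw [hθ, th_inl, hχ0 v (Or.inr hvE)]
      have h3 : (θ (X v)).k = 0 := by
        rw [hFk v hv, hkE v hvE]
      have h4 := com_m1 (hM1 _ h2) (hM1 _ h3)
      refine ⟨h4.1, ?_⟩
      rw [h4.2, h2, h3, hχ0 v (Or.inr hvE), hkE v hvE]
      rfl
    · have h2 : θ (FreeGroup.of (Sum.inl v)) = ⟨dE v, χ v, 0, 1⟩ := by
        rw [hθ, th_inl, hφ1 v hv hvE]
      rw [h2, com_d _ _ _ (by
        rw [hFg v hv]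
        exact hχ1 v hv hvE), hFk v hv, hFg v hv]
      exact ⟨⟨AddSubgroup.mem_top _, fun _ _ => rfl⟩, rfl⟩
  have hSv : ∀ v ∈ D.S0, M2 ⊤ (F v) ∧ (F v).z = 0 := by
    intro v hv
    have h1 : F v = blk B.pl v (fun i => θ (FreeGroup.of (Sum.inr i))) (fun i => θ (Y i)) :=
      if_pos hv
    have ha : ∀ i, (θ (FreeGroup.of (Sum.inr i))).k = 0 := fun i => by rw [hθ, th_inr]
    have h2 := blk_m2 hU B.pl v (fun i => θ (FreeGroup.of (Sum.inr i))) (fun i => θ (Y i))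
      (fun i => hM1 _ (ha i)) fun i => hM1 _ (hYk i)
    rw [h1]
    refine ⟨h2.1, ?_⟩
    rw [h2.2]
    refine Finset.sum_eq_zero fun i _ => ?_
    rw [hYk, ha]
    simp
  have hall : ∀ v ∈ l, M2 ⊤ (F v) := by
    intro v hv
    rcases (hlZ v).1 hv with h | h
    · exact (hZv v h).1
    · exact (hSv v h).1
  have h1 := (m2_list hU F l hall).2
  have h2 : (l.map F).prod = 1 := hrel
  rw [h2, one_z, ← List.sum_toFinset _ hl] at h1
  have h3 : l.toFinset = Z ∪ D.S0 := by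
    ext v
    rw [List.mem_toFinset, Finset.mem_union]
    exact hlZ v
  have h4 : Disjoint Z D.S0 := Finset.disjoint_left.2 fun v hv => hZ v hv
  rw [h3, Finset.sum_union h4, Finset.sum_congr rfl fun v hv => (hZv v hv).2,
    Finset.sum_congr rfl fun v hv => (hSv v hv).2, Finset.sum_sub_distrib,
    Finset.sum_const_zero, add_zero] at h1
  linear_combination -h1

end H70.UX
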