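import Pool.Agent.H70.UX.Pha
import Pool.Agent.H48.UX.Php
import Pool.Agent.H70.UX.Ort

/-!
# H70-UX-PHF: THE PHASE FORMULA of a box (MP_b39724_nt, UBX)

`X` the data of a box, `kp` the honest crossed homomorphism of its characters (`Kp`), labels `g k ∈ N` of the variable primes `q k`, `d k ∈ Nk N n`.
* `th_dg`: the value of a word for the labels `d k * g k` is `u` times its value for `g k`, `u ∈ Nk N n`.
* `phf`: the product over the fixed primes changes by `ep (∑ k, kp (F_{q k}) (x k * d k * (x k)⁻¹))`, `x k` the value of the word at `q k`.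
* `th_hat`: the value of a word is over the value of the honest reduction.
-/

set_option autoImplicit false
set_option linter.dupNamespace false

open scoped NumberField commutatorElement
open IsDedekindDomain
open scoped Classical

noncomputable section

namespace H70.UX

open H38.ML H63.MA H38.BB H38.BG H57.PC H57.BRA H57.GP H77.WD Pool.Agent.H19.NF
  Pool.Agent.H19.AB Pool.Agent.H19.A2 H77.WE H77.PC3 H35.CF Pool.Agent.H19 H77.S3 H35.UB H48.UX

variable {K : Type} [Field K] [NumberField K] {Ω : Type} [Field Ω] [Algebra K Ω]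
  {p : ℕ} {ζ : K} {D : RD0 K p ζ} {L : LDs D Ω} {A : GS D Ω}
  {P : Type} [Group P] {N : Subgroup P} [N.Normal] {n : ℕ}

/-- the labels for given variable primes -/
def glb (X : Bs A P N n) (g : Fin (n + 1) → P) (q : Fin (n + 1) → Pl K) (v : Pl K) : P :=
  if h : ∃ k, q k = v then g h.choose else X.g v

theorem th_glb (X : Bs A P N n) (g : Fin (n + 1) → P) (q : Fin (n + 1) → Pl K) :
    X.th g q = ev A (glb X g q) X.α := rfl

theorem glb_q (X : Bs A P N n) (g : Fin (n + 1) → P) {q : Fin (n + 1) → Pl K}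
    (hq : Function.Injective q) (k : Fin (n + 1)) : glb X g q (q k) = g k := by
  have h : ∃ k', q k' = q k := ⟨k, rfl⟩
  unfold glb
  rw [dif_pos h]
  exact congrArg g (hq h.choose_spec)

theorem glb_n (X : Bs A P N n) (g : Fin (n + 1) → P) {q : Fin (n + 1) → Pl K} {v : Pl K}
    (h : ∀ k, q k ≠ v) : glb X g q v = X.g v := dif_neg fun ⟨k, hk⟩ => h k hk

theorem bx_inj {X : Bs A P N n} {Zw : Finset (Pl K)} {q : Fin (n + 1) → Pl K}
    (hq : q ∈ X.bx Zw) : Function.Injective q := (Finset.mem_filter.1 hq).2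

theorem bx_mem {X : Bs A P N n} {Zw : Finset (Pl K)} {q : Fin (n + 1) → Pl K}
    (hq : q ∈ X.bx Zw) (k : Fin (n + 1)) : q k ∈ Zw ∧ D.Gd (q k) ∧ q k ∉ X.s ∧
      X.lo k < (nm (q k) : ℝ) ∧ (nm (q k) : ℝ) ≤ X.hi k :=
  Finset.mem_filter.1 (Fintype.mem_piFinset.1 (Finset.mem_filter.1 hq).1 k)

/-- the value of a word is over the value of the honest reduction -/
theorem th_hat (X : Bs A P N n) (hg1 : ∀ v, v ∉ X.s → X.g v ∈ N)
    (hφ' : hat L A X.φ = (QuotientGroup.mk' N).comp (ev A X.g X.α)) {Zw : Finset (Pl K)}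
    {g : Fin (n + 1) → P} (hg : ∀ k, g k ∈ N) {q : Fin (n + 1) → Pl K} (hq : q ∈ X.bx Zw) :
    hat L A X.φ = (QuotientGroup.mk' N).comp (ev A (glb X g q) X.α) := by
  rw [hφ']
  refine FreeGroup.ext_hom _ _ fun x => ?_
  unfold H35.UB.ev
  rw [MonoidHom.comp_apply, MonoidHom.comp_apply, FreeGroup.lift_apply_of,
    FreeGroup.lift_apply_of]
  rcases x with v | i
  · show ((X.g v : P) : P ⧸ N) = ((glb X g q v : P) : P ⧸ N)
    by_cases h : ∃ k, q k = v
    · obtain ⟨k, rfl⟩ := h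
      rw [glb_q X g (bx_inj hq), (QuotientGroup.eq_one_iff _).2 (hg k),
        (QuotientGroup.eq_one_iff _).2 (hg1 _ (bx_mem hq k).2.2.1)]
    · push Not at h
      rw [glb_n X g h]
  · rfl

/-- the labels change by elements of the last layer -/
theorem th_dg (X : Bs A P N n) {g d : Fin (n + 1) → P} (hd : ∀ k, d k ∈ Nk N n)
    (q : Fin (n + 1) → Pl K) (w : FW A) :
    ∃ u ∈ Nk N n, X.th (fun k => d k * g k) q w = u * X.th g q w := by
  have h1 := ev_cong (A := A) (V := Nk N n) (g := glb X g q)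
    (g' := glb X (fun k => d k * g k) q) (α := X.α) (α' := X.α) (fun v => by
      unfold glb
      by_cases h : ∃ k, q k = v
      · rw [dif_pos h, dif_pos h, mul_inv_cancel_right]
        exact hd _
      · rw [dif_neg h, dif_neg h, mul_inv_cancel]
        exact Subgroup.one_mem _) (fun i => by
      rw [mul_inv_cancel]
      exact Subgroup.one_mem _) w
  refine ⟨X.th (fun k => d k * g k) q w * (X.th g q w)⁻¹, ?_, by rw [inv_mul_cancel_right]⟩
  have h2 := (nk_normal N n).conj_mem _ h1 (X.th g q w)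
  rw [th_glb, th_glb] at *
  rwa [mul_inv_cancel_left] at h2

/-- THE PHASE FORMULA -/
theorem phf (hp : p.Prime) {k M : ℕ} {Q' : DP K Ω} {Fr : FR L} {B : SD D Q' A}
    {Zw : Finset (Pl K)} (hZ : ∀ v ∈ Zw, v ∉ D.S0) {l : List (Pl K)} (hl : l.Nodup)
    (hlZ : ∀ v, v ∈ l ↔ v ∈ Zw ∨ v ∈ D.S0) {W : Pl K → FW A} {Yw : Fin A.g → FW A}
    (hR : Rel k M L Fr A B Zw l W Yw) [Finite P] (hn : Nk N (n + 1) = ⊥)
    (hS : Sml p k M (Hs p (LL N n hn) (P ⧸ N))) {E : Finset (Pl K)} (X : Bs A P N n)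
    (hE : E ⊆ X.s) (hs : X.s ⊆ Zw) (hg1 : ∀ v, v ∉ X.s → X.g v ∈ N)
    (hφ : HonE L E X.s X.φ) (hφ' : hat L A X.φ = (QuotientGroup.mk' N).comp (ev A X.g X.α))
    (hch : X.ch Fr E) {kp : Gal(Ω/K) → P → ZMod p} (hK : Kp L Fr A B N n X.s E X.φ X.χ kp)
    {g d : Fin (n + 1) → P} (hg : ∀ k, g k ∈ N) (hd : ∀ k, d k ∈ Nk N n)
    {q : Fin (n + 1) → Pl K} (hq : q ∈ X.bx Zw) :
    ∏ v ∈ X.s, X.G v (X.th (fun k => d k * g k) q (W v)) =
      ep p (∑ k, kp (Fr.F (q k)) (X.th g q (W (q k)) * d k * (X.th g q (W (q k)))⁻¹)) *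
        ∏ v ∈ X.s, X.G v (X.th g q (W v)) := by
  have hp0 : NeZero p := ⟨hp.ne_zero⟩
  have hinj := bx_inj hq
  have hmem := bx_mem hq
  have hsE : E ∪ X.s = X.s := Finset.union_eq_right.2 hE
  have hprs : Function.Surjective (prQ (p := p) (V := LL N n hn) (Q := P ⧸ N)) := fun g =>
    ⟨⟨0, 0, 0, g⟩, rfl⟩
  have hQ : Sml p k M (P ⧸ N) := sml_surj hS prQ hprs
  have hU : Unz L X.s X.φ := by
    have h := hφ.unz
    rwa [hsE] at h
  have hUZ : Unz L Zw X.φ := ⟨hU.1, fun v hv hz => hU.2 v hv fun h => hz (hs h)⟩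
  have hXg : ∀ v ∈ Zw, hat L A X.φ (W v) = X.φ (Fr.F v) := (hR.2.2.1 _ hQ X.φ hUZ).1
  have hhat := th_hat (L := L) X hg1 hφ' hg hq
  have hthφ : ∀ w, ((X.th g q w : P) : P ⧸ N) = hat L A X.φ w := fun w =>
    (DFunLike.congr_fun hhat w).symm
  have hev : ∀ v, ev A X.g X.α (FreeGroup.of (Sum.inl v)) = X.g v := by
    intro v
    unfold H35.UB.ev
    rw [FreeGroup.lift_apply_of]
    rfl
  have hφ1 : ∀ v ∈ X.s, v ∉ E → X.φ (L.t v) = 1 := by
    intro v hv hvE
    rw [← hat_inl L A X.φ v, DFunLike.congr_fun hφ' _]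
    show ((ev A X.g X.α (FreeGroup.of (Sum.inl v)) : P) : P ⧸ N) = 1
    rw [hev]
    exact (QuotientGroup.eq_one_iff _).2 (hch.mem v hv hvE)
  have hφ1Z : ∀ v ∈ Zw, v ∉ E → X.φ (L.t v) = 1 := by
    intro v hv hvE
    by_cases hvs : v ∈ X.s
    · exact hφ1 v hvs hvE
    · exact hU.2 v (hZ v hv) hvs
  have hinv : ∀ v ∈ X.s, ∀ x : P, (x : P ⧸ N) = X.φ (Fr.F v) → ∀ u ∈ Nk N n,
      X.χ v (x⁻¹ * u * x) = X.χ v u := by
    intro v hv x hx u hu
    have h1 : x⁻¹ * u * x ∈ Nk N n := by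
      have h2 := (nk_normal N n).conj_mem u hu x⁻¹
      rwa [inv_inv] at h2
    have h3 := hch.inv v hv x hx _ h1
    rw [← h3]
    congr 1
    group
  -- the characters
  set χ' : Pl K → LL N n hn →+ ZMod p := fun v => kpd hn hK (L.t v) with hχ'
  have hχs : ∀ v ∈ X.s, ∀ u : LL N n hn, χ' v u = X.χ v (ll u) := fun v hv u => kpd_t hn hK hv u
  have hχn : ∀ v, v ∉ X.s → χ' v = 0 := fun v hv => kpd_t0 hn hK hv
  have hχ0 : ∀ v, v ∉ Zw ∨ v ∈ E → χ' v = 0 := by
    intro v hv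
    rcases hv with hv | hv
    · exact hχn v fun h => hv (hs h)
    · ext u
      rw [hχs v (hE hv), hch.exc v hv _ (ll_mem u)]
      rfl
  have hχ1 : ∀ v ∈ Zw, v ∉ E → tw (X.φ (Fr.F v)) (χ' v) = χ' v := by
    intro v _ _
    by_cases hvs : v ∈ X.s
    · ext u
      obtain ⟨x, hx⟩ := QuotientGroup.mk_surjective (X.φ (Fr.F v))
      rw [H48.UX.tw_apply, hχs v hvs, hχs v hvs, ← hx, ← QuotientGroup.mk_inv, ll_smul, inv_inv]
      exact hinv v hvs x hx _ (ll_mem u)
    · rw [hχn v hvs]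
      rfl
  -- the change of the labels
  obtain ⟨dE, hdE, hdEn⟩ : ∃ dE : Pl K → LL N n hn, (∀ k, dE (q k) = lm (d k) (hd k)) ∧
      ∀ v, (∀ k, q k ≠ v) → dE v = 0 := by
    refine ⟨fun v => if h : ∃ k, q k = v then lm (d h.choose) (hd _) else 0, fun k => ?_,
      fun v hv => dif_neg fun ⟨k, hk⟩ => hv k hk⟩
    have h : ∃ k', q k' = q k := ⟨k, rfl⟩
    show dite _ _ _ = _
    rw [dif_pos h]
    apply ll_inj
    rw [ll_lm, ll_lm]
    exact congrArg d (hinj h.choose_spec)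
  have hdE0 : ∀ v, v ∉ Zw ∨ v ∈ E → dE v = 0 := by
    intro v hv
    refine hdEn v fun k hk => ?_
    subst hk
    rcases hv with hv | hv
    · exact hv (hmem k).1
    · exact (hmem k).2.2.1 (hE hv)
  -- the word values
  set c : FW A → LL N n hn := fun w => (th L A X.φ χ' dE 0 w).b with hc
  have hcrs : ∀ w w', c (w * w') = c w + hat L A X.φ w • c w' := th_crs X.φ χ' dE 0
  have hcw : ∀ w, X.th (fun k => d k * g k) q w = ll (c w) * X.th g q w := by
    intro w
    have h1 := ev_crs hn (glb X g q) X.α X.φ hhat c hcrs w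
    rw [th_glb X g q, ← h1, th_glb]
    congr 2
    · funext v
      have h2 : c (FreeGroup.of (Sum.inl v)) = dE v := by
        rw [hc]
        show (th L A X.φ χ' dE 0 (FreeGroup.of (Sum.inl v))).b = _
        rw [th_inl]
      rw [h2]
      by_cases h : ∃ k, q k = v
      · obtain ⟨k, rfl⟩ := h
        rw [glb_q X _ hinj, glb_q X _ hinj, hdE, ll_lm]
      · push Not at h
        rw [glb_n X _ h, glb_n X _ h, hdEn v h, ll_zero, one_mul]
    · funext i
      have h2 : c (FreeGroup.of (Sum.inr i)) = 0 := by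
        show (th L A X.φ χ' dE 0 (FreeGroup.of (Sum.inr i))).b = _
        rw [th_inr]
        rfl
      rw [h2, ll_zero, one_mul]
  have hprod : ∀ t : Finset (Pl K), t ⊆ X.s →
      ∏ v ∈ t, X.G v (X.th (fun k => d k * g k) q (W v)) =
        ep p (∑ v ∈ t, χ' v (c (W v))) * ∏ v ∈ t, X.G v (X.th g q (W v)) := by
    intro t
    induction t using Finset.induction_on with
    | empty => intro _; rw [Finset.prod_empty, Finset.prod_empty, Finset.sum_empty, ep_zero, mul_one]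
    | insert a t ha ih =>
      intro ht
      have has : a ∈ X.s := ht (Finset.mem_insert_self a t)
      rw [Finset.prod_insert ha, Finset.prod_insert ha, Finset.sum_insert ha, ep_add hp,
        ih fun y hy => ht (Finset.mem_insert_of_mem hy), hcw]
      have hx : ((X.th g q (W a) : P) : P ⧸ N) = X.φ (Fr.F a) := by
        rw [hthφ, hXg a (hs has)]
      have hu : (X.th g q (W a))⁻¹ * ll (c (W a)) * X.th g q (W a) ∈ Nk N n := by
        have h2 := (nk_normal N n).conj_mem _ (ll_mem (c (W a))) (X.th g q (W a))⁻¹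
        rwa [inv_inv] at h2
      have h2 := hch.eq a has (X.th g q (W a)) _ hu
      rw [hinv a has _ hx _ (ll_mem _), ← hχs a has] at h2
      have h3 : X.th g q (W a) * ((X.th g q (W a))⁻¹ * ll (c (W a)) * X.th g q (W a)) =
          ll (c (W a)) * X.th g q (W a) := by group
      rw [h3] at h2
      rw [h2]
      ring
  rw [hprod X.s (Finset.Subset.refl _)]
  congr 2
  -- the relation
  have hpU : Unz L Zw (php hn hK) := by
    have h := (php_hon hn hK hp hφ hφ1).unz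
    rw [hsE] at h
    exact ⟨h.1, fun v hv hz => h.2 v hv fun h => hz (hs h)⟩
  have h1 := phf_abs hZ hl hlZ hR hS hφ1Z hχ0 hχ1 (kp := kpd hn hK) (php hn hK) hpU
    (php_apply hn hK) (fun v _ => rfl) (fun i => congrArg Hs.k (php_a hn hK i))
    (fun i => congrArg Hs.k (php_b hn hK i)) (fun v hv => congrArg Hs.k (php_f hn hK hv)) hdE0
  have h2 : ∑ v ∈ X.s, χ' v (c (W v)) = ∑ v ∈ Zw, χ' v (th L A X.φ χ' dE 0 (W v)).b :=
    Finset.sum_subset hs fun v _ hv => by
      rw [hχn v hv]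
      rfl
  have h3 : ∑ v ∈ Zw, kpd hn hK (Fr.F v) (X.φ (Fr.F v) • dE v) =
      ∑ v ∈ Finset.univ.image q, kpd hn hK (Fr.F v) (X.φ (Fr.F v) • dE v) := by
    symm
    refine Finset.sum_subset (fun v hv => ?_) fun v _ hv => ?_
    · obtain ⟨k, -, rfl⟩ := Finset.mem_image.1 hv
      exact (hmem k).1
    · rw [hdEn v fun k hk => hv (Finset.mem_image.2 ⟨k, Finset.mem_univ _, hk⟩), smul_zero,
        map_zero]
  rw [h2, h1, h3, Finset.sum_image fun a _ b _ h => hinj h]
  refine Finset.sum_congr rfl fun k _ => ?_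
  rw [hdE, kpd_apply]
  have hx : ((X.th g q (W (q k)) : P) : P ⧸ N) = X.φ (Fr.F (q k)) := by
    rw [hthφ, hXg _ (hmem k).1]
  rw [← hx, ll_smul, ll_lm]

end H70.UX
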